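import Mathlib.Algebra.Module.Projective
import Mathlib.Algebra.FreeAlgebra
import Mathlib.Algebra.Category.ModuleCat.Basic
import Mathlib.GroupTheory.Sylow
import Mathlib.RingTheory.SimpleModule.Basic
import Mathlib.Algebra.RingQuot
import Mathlib.Order.CompletePartialOrder

/-!
Fusion systems, compatible families of degree-two classes, and the invariants `w` and `k` of
Kessar, Linckelmann, Lynd and Semeraro.

All groups are subgroups of one ambient group `G`; a fusion system on `S ≤ G` is recorded by the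
sets `Hom P = Hom_F(P, S)`.  A class in `H²(H, kˣ)` is recorded by a representing cocycle.
-/

set_option autoImplicit false

namespace Pool.Agent.MP_3359e9_al

open Subgroup

/-- `Out(H) = Aut(H) / Inn(H)`; the set of inner automorphisms is its own normal closure. -/
abbrev Out (H : Type) [Group H] : Type :=
  MulAut H ⧸ normalClosure (Set.range (MulAut.conj : H → MulAut H))

/-- The twisted group algebra `k_β H`: generators `e_h`, relations `e_g e_h = β(g,h) e_{gh}` and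
`e_1 = β(1,1) 1`. -/
abbrev TwAlg (k : Type) [Field k] (H : Type) [Group H] (β : H → H → kˣ) : Type :=
  RingQuot fun x y : FreeAlgebra k H =>
    (∃ g h : H, x = FreeAlgebra.ι k g * FreeAlgebra.ι k h ∧
      y = (β g h : k) • FreeAlgebra.ι k (g * h)) ∨
    (x = FreeAlgebra.ι k (1 : H) ∧ y = algebraMap k (FreeAlgebra k H) (β 1 1 : k))

/-- The number of isomorphism classes of simple projective `A`-modules. -/
noncomputable def z (A : Type) [Ring A] : ℕ :=
  Nat.card (Quot fun M N : {M : ModuleCat.{0} A // IsSimpleModule A M ∧ Module.Projective A M} =>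
    Nonempty (M.1 ≃ₗ[A] N.1))

/-- `z(k_β H)` for a subgroup `H` of `M` and the restriction of `β` to `H`. -/
noncomputable def zTw {k M : Type} [Field k] [Group M] (H : Subgroup M) (β : M → M → kˣ) : ℕ :=
  z (TwAlg k H fun a b => β a b)

/-- `β` is a two-cocycle on `H` (trivial action). -/
def IsCocycle {k M : Type} [Field k] [Group M] (H : Subgroup M) (β : M → M → kˣ) : Prop :=
  ∀ a ∈ H, ∀ b ∈ H, ∀ c ∈ H, β (a * b) c * β a b = β b c * β a (b * c)

/-- `β` and `γ` differ by a coboundary on `H`. -/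
def Cohomologous {k M : Type} [Field k] [Group M] (H : Set M) (β γ : M → M → kˣ) : Prop :=
  ∃ b : M → kˣ, ∀ u ∈ H, ∀ v ∈ H, β u v * b (u * v) = γ u v * b u * b v

/-- The sum of `f` over one representative of each `r`-class of elements satisfying `q`. -/
noncomputable def classSum {X : Type} (q : X → Prop) (r : X → X → Prop) (f : X → ℤ) : ℤ :=
  ∑ᶠ c : Quot fun x y : {x // q x} => r x.1 y.1, f c.out.1

/-- A subgroup `S` of `G` with sets of maps `Hom P = Hom_F(P, S)`. -/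
structure Fus (G : Type) [Group G] where
  S : Subgroup G
  Hom : (P : Subgroup G) → Set (P →* G)

namespace Fus

variable {G : Type} [Group G] (F : Fus G)

/-- The axioms of a fusion system on `S`. -/
structure IsFusionSystem : Prop where
  inj : ∀ P, ∀ φ ∈ F.Hom P, P ≤ F.S ∧ φ.range ≤ F.S ∧ Function.Injective φ
  conj : ∀ P ≤ F.S, ∀ g ∈ F.S, (MulAut.conj g).toMonoidHom.comp P.subtype ∈ F.Hom P
  comp : ∀ P Q, ∀ φ ∈ F.Hom P, ∀ ψ ∈ F.Hom Q, ∀ h : ∀ x, φ x ∈ Q,
    ψ.comp (φ.codRestrict Q h) ∈ F.Hom P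
  inv : ∀ P, ∀ φ ∈ F.Hom P, ∃ ψ ∈ F.Hom φ.range, ∀ x, ψ (φ.rangeRestrict x) = x

/-- `Aut_F(Q)`; for a fusion system the generating set is already a subgroup. -/
def Aut (Q : Subgroup G) : Subgroup (MulAut Q) :=
  closure {a | Q.subtype.comp a.toMonoidHom ∈ F.Hom Q}

/-- `Out_F(Q) = Aut_F(Q) / Inn(Q)` as a subgroup of `Out(Q)`. -/
def OutF (Q : Subgroup G) : Subgroup (Out Q) :=
  (F.Aut Q).map (QuotientGroup.mk' _)

/-- `Aut_S(P)` is a Sylow `p`-subgroup of `Aut_F(P)`. -/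
def FullyAutomized (p : ℕ) (P : Subgroup G) : Prop :=
  ∃ T : Sylow p (F.Aut P), (T : Subgroup (F.Aut P)) =
    ((F.S.subgroupOf (normalizer P)).map P.normalizerMonoidHom).subgroupOf (F.Aut P)

/-- Every `F`-isomorphism `φ : Q → P` extends to every `N` with `Q ≤ N ≤ N_φ`. -/
def Receptive (P : Subgroup G) : Prop :=
  ∀ Q, ∀ φ ∈ F.Hom Q, φ.range = P → ∀ (N : Subgroup G) (hN : Q ≤ N), N ≤ F.S ⊓ normalizer Q →
    (∀ g ∈ N, ∃ h ∈ F.S ⊓ normalizer P, ∀ x y : Q, (y : G) = g * x * g⁻¹ →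
      φ y = h * φ x * h⁻¹) →
    ∃ ψ ∈ F.Hom N, ψ.comp (inclusion hN) = φ

/-- A fusion system in which every subgroup of `S` is conjugate to a fully automized and
receptive subgroup. -/
def IsSaturated (p : ℕ) : Prop :=
  F.IsFusionSystem ∧ ∀ P ≤ F.S, ∃ φ ∈ F.Hom P, F.FullyAutomized p φ.range ∧ F.Receptive φ.range

/-- `F`-centric subgroups. -/
def Centric (Q : Subgroup G) : Prop :=
  Q ≤ F.S ∧ ∀ φ ∈ F.Hom Q, F.S ⊓ centralizer φ.range ≤ φ.range

/-- Fully `F`-normalized subgroups. -/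
def FullyNormalized (Q : Subgroup G) : Prop :=
  ∀ φ ∈ F.Hom Q, Nat.card ↥(F.S ⊓ normalizer φ.range) ≤ Nat.card ↥(F.S ⊓ normalizer Q)

/-- Fully `F`-centralized subgroups. -/
def FullyCentralized (Q : Subgroup G) : Prop :=
  ∀ φ ∈ F.Hom Q, Nat.card ↥(F.S ⊓ centralizer φ.range) ≤ Nat.card ↥(F.S ⊓ centralizer Q)

/-- `N_F(σ)` on `N_S(σ)`, for a set `σ` of subgroups with largest member `sSup σ`. -/
def normSys (σ : Set (Subgroup G)) : Fus G where
  S := F.S ⊓ ⨅ Q ∈ σ, normalizer (Q : Set G)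
  Hom P := {φ | P ⊔ φ.range ≤ F.S ⊓ ⨅ Q ∈ σ, normalizer (Q : Set G) ∧
    ∃ ψ ∈ F.Hom (sSup σ ⊔ P), ψ.comp (inclusion le_sup_right) = φ ∧
      ∀ Q ∈ σ, (Q.subgroupOf (sSup σ ⊔ P)).map ψ = Q}

/-- `C_F(x)` on `C_S(x)`. -/
def centSys (x : G) : Fus G where
  S := F.S ⊓ centralizer {x}
  Hom P := {φ | P ⊔ φ.range ≤ F.S ⊓ centralizer {x} ∧
    ∃ ψ ∈ F.Hom (zpowers x ⊔ P), ψ.comp (inclusion le_sup_right) = φ ∧
      ψ ⟨x, mem_sup_left (mem_zpowers x)⟩ = x}

variable {k : Type} [Field k] (α : (Q : Subgroup G) → Out Q → Out Q → kˣ)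

/-- `α Q` is a cocycle on `Out_F(Q)` for centric `Q`, and for every `F`-morphism `φ : Q → R` of
centric subgroups with `φ(Q)` normal in `R` the classes of `α Q` and `α R` agree on the group of
pairs `(a, c)` in `Aut_F(Q) × Aut_F(R)` with `c φ = φ a`. -/
def Compatible : Prop :=
  (∀ Q, F.Centric Q → IsCocycle (F.OutF Q) (α Q)) ∧
  ∀ Q R, F.Centric Q → F.Centric R → ∀ φ ∈ F.Hom Q, φ.range ≤ R → R ≤ normalizer φ.range →
    Cohomologous {u : MulAut Q × MulAut R | u.1 ∈ F.Aut Q ∧ u.2 ∈ F.Aut R ∧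
        ∀ (x : Q) (y : R), φ x = y → φ (u.1 x) = u.2 y}
      (fun u v => α Q u.1 v.1) (fun u v => α R u.2 v.2)

/-- The class in `Out(R)` of an `F`-automorphism of `R` that stabilises every member of `σ` and
extends a representative of `a`. -/
noncomputable def extOut (σ : Set (Subgroup G)) (P R : Subgroup G) (a : Out P) : Out R :=
  Classical.epsilon fun c => ∃ ψ ∈ F.Aut R, ∃ φ : MulAut P, c = ψ ∧ a = φ ∧
    (∀ (x : P) (y : R), (x : G) = y → (φ x : G) = ψ y) ∧
    ∀ Q ∈ σ, (Q.subgroupOf R).map (R.subtype.comp ψ.toMonoidHom) = Q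

/-- `α(σ)`: the restriction of `α` along `P ↦ Q_m P`. -/
noncomputable def restrict (σ : Set (Subgroup G)) (P : Subgroup G) (a b : Out P) : kˣ :=
  α (sSup σ ⊔ P) (F.extOut σ P _ a) (F.extOut σ P _ b)

/-- `w(F, α)`. -/
noncomputable def w : ℤ :=
  classSum F.Centric (fun P Q => ∃ φ ∈ F.Hom P, φ.range = Q) fun Q => zTw (F.OutF Q) (α Q)

/-- `k(F, α)`.  A `C_F(x)`-centric subgroup `R` contains `x`, so `⟨x⟩R = R` and `α(x)` is `α`. -/
noncomputable def kk : ℤ :=
  classSum (fun x => x ∈ F.S ∧ F.FullyCentralized (zpowers x))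
    (fun x y => ∃ φ ∈ F.Hom (zpowers x), φ ⟨x, mem_zpowers x⟩ = y) fun x => (F.centSys x).w α

/-- Normal chains `Q₀ < ⋯ < Q_m` of nontrivial subgroups of `S`. -/
def NormalChain (σ : List (Subgroup G)) : Prop :=
  σ ≠ [] ∧ σ.Pairwise (· < ·) ∧
    ∀ Q ∈ σ, Q ≠ ⊥ ∧ Q ≤ F.S ∧ sSup {R | R ∈ σ} ≤ normalizer (Q : Set G)

/-- Fully `F`-normalized chains. -/
inductive FullyNormalizedChain : Fus G → List (Subgroup G) → Prop
  | nil (E : Fus G) : FullyNormalizedChain E []
  | cons (E : Fus G) (Q : Subgroup G) (τ : List (Subgroup G)) : E.FullyNormalized Q →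
      FullyNormalizedChain (E.normSys {Q}) τ → FullyNormalizedChain E (Q :: τ)

/-- `F`-isomorphism of chains: an `F`-morphism on `Q_m` carries `σ` to `τ` term by term. -/
def ChainIso (σ τ : List (Subgroup G)) : Prop :=
  ∃ φ ∈ F.Hom (sSup {Q | Q ∈ σ}), σ.map (fun Q => (Q.subgroupOf (sSup {Q | Q ∈ σ})).map φ) = τ

end Fus

end Pool.Agent.MP_3359e9_al
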