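import Mathlib.Tactic.Monotonicity.Lemmas
import Mathlib.GroupTheory.Nilpotent
import Pool.Agent.MP_3359e9_al.Defs

-- ======== part 0: formerly Pool.Agent.MP_3359e9_al.PHom
section MrgPart0

set_option autoImplicit false

namespace Pool.Agent.MP_3359e9_al

open Subgroup

variable {G : Type} [Group G]

/-- `f` restricts to an injective homomorphism on `R`. -/
structure PHom (R : Subgroup G) (f : G → G) : Prop where
  map_mul : ∀ x ∈ R, ∀ y ∈ R, f (x * y) = f x * f y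
  inj : ∀ x ∈ R, ∀ y ∈ R, f x = f y → x = y

/-- The image of a subgroup. -/
def img (f : G → G) (Q : Subgroup G) : Subgroup G := closure (f '' Q)

/-- Conjugation. -/
def cj (g : G) : G → G := fun x => g * x * g⁻¹

lemma mem_img_of_mem (f : G → G) {Q : Subgroup G} {x : G} (hx : x ∈ Q) : f x ∈ img f Q :=
  subset_closure ⟨x, hx, rfl⟩

lemma img_mono (f : G → G) {P Q : Subgroup G} (h : P ≤ Q) : img f P ≤ img f Q :=
  closure_mono (Set.image_mono h)

lemma img_congr {f g : G → G} {Q : Subgroup G} (h : ∀ x ∈ Q, f x = g x) : img f Q = img g Q := by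
  unfold img
  rw [Set.image_congr h]

lemma img_le_iff {f : G → G} {Q T : Subgroup G} : img f Q ≤ T ↔ ∀ x ∈ Q, f x ∈ T := by
  unfold img
  rw [closure_le]
  exact ⟨fun h x hx => h ⟨x, hx, rfl⟩, by rintro h _ ⟨x, hx, rfl⟩; exact h x hx⟩

lemma img_eq_self {f : G → G} {Q : Subgroup G} (h : ∀ x ∈ Q, f x = x) : img f Q = Q := by
  rw [img_congr (g := id) h]
  simp [img]

lemma img_id (Q : Subgroup G) : img id Q = Q := img_eq_self fun _ _ => rfl

lemma image_img_id (σ : Set (Subgroup G)) : img id '' σ = σ := by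
  rw [Set.image_congr fun Q _ => img_id Q]
  simp

lemma map_subgroupOf_eq_img {R Q : Subgroup G} (φ : R →* G) {f : G → G} (h : ∀ x : R, φ x = f x)
    (hQ : Q ≤ R) : (Q.subgroupOf R).map φ = img f Q := by
  apply le_antisymm
  · rintro _ ⟨x, hx, rfl⟩
    rw [h]
    exact mem_img_of_mem f hx
  · rw [img_le_iff]
    intro x hx
    exact ⟨⟨x, hQ hx⟩, hx, h _⟩

lemma range_eq_img {R : Subgroup G} (φ : R →* G) {f : G → G} (h : ∀ x : R, φ x = f x) :
    φ.range = img f R := by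
  rw [← map_subgroupOf_eq_img φ h le_rfl, subgroupOf_self, MonoidHom.range_eq_map]

lemma phom_cj (R : Subgroup G) (g : G) : PHom R (cj g) :=
  ⟨fun x _ y _ => by simp [cj, mul_assoc], fun x _ y _ h => by simpa [cj] using h⟩

lemma phom_id (R : Subgroup G) : PHom R id := ⟨fun _ _ _ _ => rfl, fun _ _ _ _ h => h⟩

namespace PHom

variable {R : Subgroup G} {f : G → G}

lemma mono (h : PHom R f) {P : Subgroup G} (hP : P ≤ R) : PHom P f :=
  ⟨fun x hx y hy => h.map_mul x (hP hx) y (hP hy), fun x hx y hy => h.inj x (hP hx) y (hP hy)⟩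

/-- The bundled homomorphism. -/
def toHom (h : PHom R f) : R →* G :=
  MonoidHom.mk' (fun x => f x) fun x y => h.map_mul x x.2 y y.2

@[simp] lemma toHom_apply (h : PHom R f) (x : R) : h.toHom x = f x := rfl

lemma toHom_injective (h : PHom R f) : Function.Injective h.toHom :=
  fun x y hxy => Subtype.ext (h.inj x x.2 y y.2 hxy)

lemma map_one (h : PHom R f) : f 1 = 1 := h.toHom.map_one

lemma map_inv (h : PHom R f) {x : G} (hx : x ∈ R) : f x⁻¹ = (f x)⁻¹ := h.toHom.map_inv ⟨x, hx⟩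

lemma map_conj (h : PHom R f) {g x : G} (hg : g ∈ R) (hx : x ∈ R) :
    f (g * x * g⁻¹) = f g * f x * (f g)⁻¹ := by
  rw [h.map_mul _ (mul_mem hg hx) _ (inv_mem hg), h.map_mul _ hg _ hx, h.map_inv hg]

lemma mem_img (h : PHom R f) {Q : Subgroup G} (hQ : Q ≤ R) {y : G} :
    y ∈ img f Q ↔ ∃ x ∈ Q, f x = y := by
  rw [← map_subgroupOf_eq_img h.toHom (fun _ => rfl) hQ]
  exact ⟨by rintro ⟨x, hx, rfl⟩; exact ⟨x, hx, rfl⟩,
    by rintro ⟨x, hx, rfl⟩; exact ⟨⟨x, hQ hx⟩, hx, rfl⟩⟩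

lemma apply_mem_img (h : PHom R f) {Q : Subgroup G} (hQ : Q ≤ R) {x : G} (hx : x ∈ R) :
    f x ∈ img f Q ↔ x ∈ Q := by
  rw [h.mem_img hQ]
  exact ⟨fun ⟨y, hy, hxy⟩ => h.inj y (hQ hy) x hx hxy ▸ hy, fun hx => ⟨x, hx, rfl⟩⟩

lemma coe_img (h : PHom R f) {Q : Subgroup G} (hQ : Q ≤ R) : (img f Q : Set G) = f '' Q := by
  ext y
  exact h.mem_img hQ

lemma img_comp (h : PHom R f) {Q : Subgroup G} (hQ : Q ≤ R) (g : G → G) :
    img (g ∘ f) Q = img g (img f Q) := by
  rw [img, img, h.coe_img hQ, Set.image_comp]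

lemma img_closure (h : PHom R f) {s : Set G} (hs : s ⊆ R) :
    img f (closure s) = closure (f '' s) := by
  have hle : closure s ≤ R := (closure_le _).2 hs
  apply le_antisymm
  · rw [img_le_iff]
    intro x hx
    induction hx using closure_induction with
    | mem x hx => exact subset_closure ⟨x, hx, rfl⟩
    | one => rw [h.map_one]; exact one_mem _
    | mul x y hx hy ihx ihy => rw [h.map_mul x (hle hx) y (hle hy)]; exact mul_mem ihx ihy
    | inv x hx ihx => rw [h.map_inv (hle hx)]; exact inv_mem ihx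
  · exact closure_mono (Set.image_mono subset_closure)

lemma img_sup (h : PHom R f) {A B : Subgroup G} (hA : A ≤ R) (hB : B ≤ R) :
    img f (A ⊔ B) = img f A ⊔ img f B := by
  rw [sup_eq_closure, h.img_closure (Set.union_subset hA hB), Set.image_union,
    Subgroup.closure_union]
  rfl

lemma img_sSup (h : PHom R f) {σ : Set (Subgroup G)} (hσ : ∀ Q ∈ σ, Q ≤ R) :
    img f (sSup σ) = sSup (img f '' σ) := by
  apply le_antisymm
  · have h1 : sSup σ = closure (⋃ Q ∈ σ, (Q : Set G)) := by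
      apply le_antisymm
      · exact sSup_le fun Q hQ x hx => subset_closure (Set.mem_biUnion hQ hx)
      · rw [closure_le]
        exact Set.iUnion₂_subset fun Q hQ => (le_sSup hQ : Q ≤ sSup σ)
    rw [h1, h.img_closure (Set.iUnion₂_subset hσ), closure_le]
    rintro _ ⟨x, hx, rfl⟩
    obtain ⟨Q, hQ, hxQ⟩ := Set.mem_iUnion₂.1 hx
    exact (le_sSup (Set.mem_image_of_mem _ hQ) : img f Q ≤ _) (mem_img_of_mem f hxQ)
  · refine sSup_le ?_
    rintro _ ⟨Q, hQ, rfl⟩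
    exact img_mono f (le_sSup hQ)

lemma img_zpowers (h : PHom R f) {x : G} (hx : x ∈ R) : img f (zpowers x) = zpowers (f x) := by
  rw [zpowers_eq_closure, h.img_closure (Set.singleton_subset_iff.2 hx), Set.image_singleton,
    zpowers_eq_closure]

lemma img_le_img_iff (h : PHom R f) {A B : Subgroup G} (hA : A ≤ R) (hB : B ≤ R) :
    img f A ≤ img f B ↔ A ≤ B :=
  ⟨fun hle _ hx => (h.apply_mem_img hB (hA hx)).1 (hle (mem_img_of_mem f hx)), img_mono f⟩

lemma img_inj (h : PHom R f) {A B : Subgroup G} (hA : A ≤ R) (hB : B ≤ R)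
    (hAB : img f A = img f B) : A = B :=
  le_antisymm ((h.img_le_img_iff hA hB).1 hAB.le) ((h.img_le_img_iff hB hA).1 hAB.ge)

lemma img_lt_img (h : PHom R f) {A B : Subgroup G} (hB : B ≤ R) (hAB : A < B) :
    img f A < img f B :=
  lt_of_le_of_ne (img_mono f hAB.le) fun h' => hAB.ne (h.img_inj (hAB.le.trans hB) hB h')

lemma img_bot (h : PHom R f) : img f ⊥ = ⊥ := by
  rw [eq_bot_iff, img_le_iff]
  intro x hx
  rw [mem_bot.1 hx, h.map_one]
  exact one_mem _

lemma img_ne_bot (h : PHom R f) {A : Subgroup G} (hA : A ≤ R) (hne : A ≠ ⊥) : img f A ≠ ⊥ :=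
  fun h' => hne (h.img_inj hA bot_le (h'.trans h.img_bot.symm))

lemma card_img (h : PHom R f) {Q : Subgroup G} (hQ : Q ≤ R) :
    Nat.card (img f Q) = Nat.card Q := by
  rw [← range_eq_img (h.mono hQ).toHom fun _ => rfl]
  exact (Nat.card_congr (MonoidHom.ofInjective (h.mono hQ).toHom_injective).toEquiv).symm

lemma mem_normalizer_img (h : PHom R f) {Q : Subgroup G} (hQ : Q ≤ R) {g : G} (hg : g ∈ R)
    (hn : g ∈ normalizer (Q : Set G)) : f g ∈ normalizer (img f Q : Set G) := by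
  rw [mem_normalizer_iff]
  intro y
  constructor
  · intro hy
    obtain ⟨x, hx, rfl⟩ := (h.mem_img hQ).1 hy
    rw [← h.map_conj hg (hQ hx)]
    exact mem_img_of_mem f ((mem_normalizer_iff.1 hn x).1 hx)
  · intro hy
    obtain ⟨x, hx, hxy⟩ := (h.mem_img hQ).1 hy
    have h1 : y = f (g⁻¹ * x * g⁻¹⁻¹) := by
      rw [h.map_conj (inv_mem hg) (hQ hx), h.map_inv hg, hxy]
      simp [mul_assoc]
    rw [h1]
    exact mem_img_of_mem f ((mem_normalizer_iff.1 (inv_mem hn) x).1 hx)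

lemma comp (h : PHom R f) {T : Subgroup G} {g : G → G} (hg : PHom T g) (hT : ∀ x ∈ R, f x ∈ T) :
    PHom R (g ∘ f) :=
  ⟨fun x hx y hy => by
      simp only [Function.comp, h.map_mul x hx y hy, hg.map_mul _ (hT x hx) _ (hT y hy)],
    fun x hx y hy hxy => h.inj x hx y hy (hg.inj _ (hT x hx) _ (hT y hy) hxy)⟩

/-- The automorphism of `P` induced by a map that stabilises `P`. -/
lemma exists_mulAut {P : Subgroup G} (h : PHom P f) (hP : img f P = P) :
    ∃ a : MulAut P, ∀ y : P, (a y : G) = f y := by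
  let φ : P →* P := h.toHom.codRestrict P fun x => hP.le (mem_img_of_mem f x.2)
  have hφ : Function.Bijective φ := by
    constructor
    · intro x y hxy
      exact h.toHom_injective (congrArg Subtype.val hxy)
    · intro y
      obtain ⟨x, hx, hxy⟩ := (h.mem_img le_rfl).1 (hP.ge y.2)
      exact ⟨⟨x, hx⟩, Subtype.ext hxy⟩
  exact ⟨MulEquiv.ofBijective φ hφ, fun _ => rfl⟩

end PHom

lemma img_cj_eq_iff {Q : Subgroup G} {g : G} : img (cj g) Q = Q ↔ g ∈ normalizer (Q : Set G) := by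
  constructor
  · intro h
    rw [mem_normalizer_iff]
    intro y
    conv_rhs => rw [← h]
    exact ((phom_cj ⊤ g).apply_mem_img le_top (mem_top y)).symm
  · intro h
    apply le_antisymm
    · rw [img_le_iff]
      exact fun x hx => (mem_normalizer_iff.1 h x).1 hx
    · intro y hy
      have h1 : y = cj g (g⁻¹ * y * g) := by simp [cj, mul_assoc]
      rw [h1]
      exact mem_img_of_mem _ ((mem_normalizer_iff''.1 h y).1 hy)

open Classical in
/-- Extension of a homomorphism on a subgroup to a map on `G`. -/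
noncomputable def extFun {P : Subgroup G} (φ : P →* G) : G → G :=
  fun x => if h : x ∈ P then φ ⟨x, h⟩ else x

lemma extFun_coe {P : Subgroup G} (φ : P →* G) (x : P) : φ x = extFun φ x := by
  simp [extFun]

lemma extFun_of_mem {P : Subgroup G} (φ : P →* G) {x : G} (h : x ∈ P) :
    extFun φ x = φ ⟨x, h⟩ := (extFun_coe φ ⟨x, h⟩).symm

/-- In a chain of subgroups of a finite group, members of equal order coincide. -/
lemma chain_eq_of_card [Finite G] {σ : Set (Subgroup G)} (hσ : IsChain (· ≤ ·) σ)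
    {A B : Subgroup G} (hA : A ∈ σ) (hB : B ∈ σ) (h : Nat.card A = Nat.card B) : A = B := by
  rcases hσ.total hA hB with hle | hle
  · exact eq_of_le_of_card_ge hle h.ge
  · exact (eq_of_le_of_card_ge hle h.le).symm

lemma PHom.fix_of_image_eq [Finite G] {R : Subgroup G} {f : G → G} (h : PHom R f)
    {σ : Set (Subgroup G)} (hσ : IsChain (· ≤ ·) σ) (hR : ∀ Q ∈ σ, Q ≤ R)
    (hf : img f '' σ = σ) : ∀ Q ∈ σ, img f Q = Q := fun Q hQ =>
  chain_eq_of_card hσ (hf ▸ Set.mem_image_of_mem _ hQ) hQ (h.card_img (hR Q hQ))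

lemma image_eq_of_fix {f : G → G} {σ : Set (Subgroup G)} (hf : ∀ Q ∈ σ, img f Q = Q) :
    img f '' σ = σ := by
  rw [Set.image_congr hf]
  simp

end Pool.Agent.MP_3359e9_al

end MrgPart0

-- ======== part 1: formerly Pool.Agent.MP_3359e9_al.Mor
section MrgPart1

set_option autoImplicit false

namespace Pool.Agent.MP_3359e9_al

open Subgroup

variable {G : Type} [Group G]

namespace Fus

/-- `f` restricts to an `F`-morphism on `P`. -/
def Mor (F : Fus G) (P : Subgroup G) (f : G → G) : Prop := ∃ φ ∈ F.Hom P, ∀ x : P, φ x = f x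

variable {F : Fus G}

lemma mor_iff_mem {P : Subgroup G} (φ : P →* G) {f : G → G} (h : ∀ x : P, φ x = f x) :
    F.Mor P f ↔ φ ∈ F.Hom P := by
  constructor
  · rintro ⟨ψ, hψ, hψf⟩
    have : φ = ψ := MonoidHom.ext fun x => (h x).trans (hψf x).symm
    rwa [this]
  · exact fun hφ => ⟨φ, hφ, h⟩

lemma mor_extFun {P : Subgroup G} {φ : P →* G} (hφ : φ ∈ F.Hom P) : F.Mor P (extFun φ) :=
  ⟨φ, hφ, extFun_coe φ⟩

lemma Mor.congr {P : Subgroup G} {f g : G → G} (h : F.Mor P f) (hfg : ∀ x ∈ P, f x = g x) :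
    F.Mor P g := by
  obtain ⟨φ, hφ, hφf⟩ := h
  exact ⟨φ, hφ, fun x => (hφf x).trans (hfg x x.2)⟩

lemma forall_hom_range {P : Subgroup G} {q : Subgroup G → Prop} :
    (∀ φ ∈ F.Hom P, q φ.range) ↔ ∀ f, F.Mor P f → q (img f P) := by
  constructor
  · rintro h f ⟨φ, hφ, hφf⟩
    rw [← range_eq_img φ hφf]
    exact h φ hφ
  · intro h φ hφ
    rw [range_eq_img φ (extFun_coe φ)]
    exact h _ (mor_extFun hφ)

lemma exists_hom_range {P : Subgroup G} {q : Subgroup G → Prop} :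
    (∃ φ ∈ F.Hom P, q φ.range) ↔ ∃ f, F.Mor P f ∧ q (img f P) := by
  constructor
  · rintro ⟨φ, hφ, h⟩
    rw [range_eq_img φ (extFun_coe φ)] at h
    exact ⟨_, mor_extFun hφ, h⟩
  · rintro ⟨f, ⟨φ, hφ, hφf⟩, h⟩
    rw [← range_eq_img φ hφf] at h
    exact ⟨φ, hφ, h⟩

lemma exists_hom_apply {P : Subgroup G} {x y : G} (hx : x ∈ P) :
    (∃ φ ∈ F.Hom P, φ ⟨x, hx⟩ = y) ↔ ∃ f, F.Mor P f ∧ f x = y := by
  constructor
  · rintro ⟨φ, hφ, h⟩
    exact ⟨_, mor_extFun hφ, by rw [extFun_of_mem φ hx, h]⟩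
  · rintro ⟨f, ⟨φ, hφ, hφf⟩, h⟩
    exact ⟨φ, hφ, (hφf _).trans h⟩

section FusionSystem

variable (hF : F.IsFusionSystem)
include hF

lemma Mor.le {P : Subgroup G} {f : G → G} (h : F.Mor P f) : P ≤ F.S := by
  obtain ⟨φ, hφ, -⟩ := h
  exact (hF.inj P φ hφ).1

lemma Mor.apply_mem {P : Subgroup G} {f : G → G} (h : F.Mor P f) {x : G} (hx : x ∈ P) :
    f x ∈ F.S := by
  obtain ⟨φ, hφ, hφf⟩ := h
  exact (hF.inj P φ hφ).2.1 ⟨⟨x, hx⟩, hφf _⟩

lemma Mor.img_le {P : Subgroup G} {f : G → G} (h : F.Mor P f) {Q : Subgroup G} (hQ : Q ≤ P) :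
    img f Q ≤ F.S := img_le_iff.2 fun _ hx => h.apply_mem hF (hQ hx)

lemma Mor.phom {P : Subgroup G} {f : G → G} (h : F.Mor P f) : PHom P f := by
  obtain ⟨φ, hφ, hφf⟩ := h
  constructor
  · intro x hx y hy
    rw [← hφf ⟨x, hx⟩, ← hφf ⟨y, hy⟩, ← map_mul]
    exact (hφf ⟨x * y, mul_mem hx hy⟩).symm
  · intro x hx y hy hxy
    rw [← hφf ⟨x, hx⟩, ← hφf ⟨y, hy⟩] at hxy
    exact congrArg Subtype.val ((hF.inj P φ hφ).2.2 hxy)

lemma mor_cj {P : Subgroup G} (hP : P ≤ F.S) {g : G} (hg : g ∈ F.S) : F.Mor P (cj g) :=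
  ⟨_, hF.conj P hP g hg, fun _ => rfl⟩

lemma mor_id {P : Subgroup G} (hP : P ≤ F.S) : F.Mor P id :=
  (mor_cj hF hP (one_mem _)).congr fun x _ => by simp [cj]

lemma Mor.comp {P Q : Subgroup G} {f g : G → G} (h : F.Mor P f) (hg : F.Mor Q g)
    (hPQ : ∀ x ∈ P, f x ∈ Q) : F.Mor P (g ∘ f) := by
  obtain ⟨φ, hφ, hφf⟩ := h
  obtain ⟨ψ, hψ, hψg⟩ := hg
  refine ⟨_, hF.comp P Q φ hφ ψ hψ fun x => by rw [hφf]; exact hPQ x x.2, fun x => ?_⟩
  simp only [MonoidHom.comp_apply, hψg, Function.comp, MonoidHom.codRestrict_apply, hφf]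

lemma Mor.mono {R P : Subgroup G} {f : G → G} (h : F.Mor R f) (hP : P ≤ R) : F.Mor P f :=
  (mor_id hF (hP.trans (h.le hF))).comp hF h fun _ hx => hP hx

lemma Mor.inv {P : Subgroup G} {f : G → G} (h : F.Mor P f) :
    ∃ g, F.Mor (img f P) g ∧ ∀ x ∈ P, g (f x) = x := by
  obtain ⟨φ, hφ, hφf⟩ := h
  obtain ⟨ψ, hψ, hψφ⟩ := hF.inv P φ hφ
  rw [← range_eq_img φ hφf]
  refine ⟨extFun ψ, mor_extFun hψ, fun x hx => ?_⟩
  rw [← hφf ⟨x, hx⟩]
  exact (extFun_coe ψ (φ.rangeRestrict ⟨x, hx⟩)).symm.trans (hψφ ⟨x, hx⟩)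

lemma mem_Aut_iff {Q : Subgroup G} (hQ : Q ≤ F.S) {a : MulAut Q} :
    a ∈ F.Aut Q ↔ ∃ f, F.Mor Q f ∧ ∀ y : Q, (a y : G) = f y := by
  constructor
  · intro ha
    induction ha using closure_induction with
    | mem a ha => exact ⟨_, mor_extFun ha, fun y => extFun_coe (Q.subtype.comp a.toMonoidHom) y⟩
    | one => exact ⟨id, mor_id hF hQ, fun _ => rfl⟩
    | mul a b _ _ iha ihb =>
      obtain ⟨f, hf, haf⟩ := iha
      obtain ⟨g, hg, hbg⟩ := ihb
      refine ⟨f ∘ g, hg.comp hF hf fun x hx => ?_, fun y => ?_⟩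
      · rw [← hbg ⟨x, hx⟩]
        exact (b ⟨x, hx⟩).2
      · rw [MulAut.mul_apply, haf, hbg, Function.comp]
    | inv a _ iha =>
      obtain ⟨f, hf, haf⟩ := iha
      obtain ⟨g, hg, hgf⟩ := hf.inv hF
      have hle : Q ≤ img f Q := fun y hy => by
        have := mem_img_of_mem f (a⁻¹ ⟨y, hy⟩).2
        rwa [← haf, MulAut.apply_inv_self] at this
      refine ⟨g, hg.mono hF hle, fun y => ?_⟩
      rw [← hgf _ (a⁻¹ y).2, ← haf, MulAut.apply_inv_self]
  · rintro ⟨f, hf, haf⟩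
    exact subset_closure ((mor_iff_mem (Q.subtype.comp a.toMonoidHom) haf).1 hf)

lemma Mor.exists_aut {P : Subgroup G} {f : G → G} (h : F.Mor P f) (hP : img f P = P) :
    ∃ a ∈ F.Aut P, ∀ y : P, (a y : G) = f y := by
  obtain ⟨a, ha⟩ := (h.phom hF).exists_mulAut hP
  exact ⟨a, (mem_Aut_iff hF (h.le hF)).2 ⟨f, h, ha⟩, ha⟩

end FusionSystem

lemma mem_normSys_S {σ : Set (Subgroup G)} {g : G} :
    g ∈ (F.normSys σ).S ↔ g ∈ F.S ∧ ∀ Q ∈ σ, g ∈ normalizer (Q : Set G) := by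
  simp [normSys, mem_iInf]

lemma mem_centSys_S {x g : G} : g ∈ (F.centSys x).S ↔ g ∈ F.S ∧ g * x = x * g := by
  simp [centSys, mem_centralizer_singleton_iff]

lemma normSys_mor {σ : Set (Subgroup G)} {P : Subgroup G} {f : G → G} :
    (F.normSys σ).Mor P f ↔ P ≤ (F.normSys σ).S ∧ img f P ≤ (F.normSys σ).S ∧
      ∃ g, F.Mor (sSup σ ⊔ P) g ∧ (∀ x ∈ P, g x = f x) ∧ ∀ Q ∈ σ, img g Q = Q := by
  constructor
  · rintro ⟨φ, ⟨hle, ψ, hψ, hψφ, hσ⟩, hφf⟩
    rw [range_eq_img φ hφf, sup_le_iff] at hle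
    refine ⟨hle.1, hle.2, extFun ψ, mor_extFun hψ, fun x hx => ?_, fun Q hQ => ?_⟩
    · rw [extFun_of_mem ψ (mem_sup_right hx), ← hφf ⟨x, hx⟩, ← hψφ]
      rfl
    · rw [← map_subgroupOf_eq_img ψ (extFun_coe ψ) ((le_sSup hQ).trans le_sup_left), hσ Q hQ]
  · rintro ⟨h1, h2, g, ⟨ψ, hψ, hψg⟩, hgf, hσ⟩
    have h3 : ∀ x : P, ψ.comp (inclusion le_sup_right) x = f x := fun x =>
      (hψg _).trans (hgf x x.2)
    refine ⟨ψ.comp (inclusion le_sup_right), ⟨?_, ψ, hψ, rfl, fun Q hQ => ?_⟩, h3⟩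
    · rw [range_eq_img _ h3]
      exact sup_le h1 h2
    · rw [map_subgroupOf_eq_img ψ hψg ((le_sSup hQ).trans le_sup_left), hσ Q hQ]

lemma centSys_mor {x : G} {P : Subgroup G} {f : G → G} :
    (F.centSys x).Mor P f ↔ P ≤ (F.centSys x).S ∧ img f P ≤ (F.centSys x).S ∧
      ∃ g, F.Mor (zpowers x ⊔ P) g ∧ (∀ y ∈ P, g y = f y) ∧ g x = x := by
  constructor
  · rintro ⟨φ, ⟨hle, ψ, hψ, hψφ, hx⟩, hφf⟩
    rw [range_eq_img φ hφf, sup_le_iff] at hle
    refine ⟨hle.1, hle.2, extFun ψ, mor_extFun hψ, fun y hy => ?_, ?_⟩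
    · rw [extFun_of_mem ψ (mem_sup_right hy), ← hφf ⟨y, hy⟩, ← hψφ]
      rfl
    · rw [extFun_of_mem ψ (mem_sup_left (mem_zpowers x)), hx]
  · rintro ⟨h1, h2, g, ⟨ψ, hψ, hψg⟩, hgf, hx⟩
    have h3 : ∀ y : P, ψ.comp (inclusion le_sup_right) y = f y := fun y =>
      (hψg _).trans (hgf y y.2)
    refine ⟨ψ.comp (inclusion le_sup_right), ⟨?_, ψ, hψ, rfl, (hψg _).trans hx⟩, h3⟩
    rw [range_eq_img _ h3]
    exact sup_le h1 h2

/-- A criterion for being a fusion system in terms of `Mor`. -/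
lemma isFusionSystem_of_mor
    (h1 : ∀ P f, F.Mor P f → P ≤ F.S ∧ img f P ≤ F.S ∧ PHom P f)
    (h2 : ∀ P ≤ F.S, ∀ g ∈ F.S, F.Mor P (cj g))
    (h3 : ∀ P Q f g, F.Mor P f → F.Mor Q g → (∀ x ∈ P, f x ∈ Q) → F.Mor P (g ∘ f))
    (h4 : ∀ P f, F.Mor P f → ∃ g, F.Mor (img f P) g ∧ ∀ x ∈ P, g (f x) = x) :
    F.IsFusionSystem := by
  constructor
  · intro P φ hφ
    obtain ⟨a, b, c⟩ := h1 P _ (mor_extFun hφ)
    refine ⟨a, by rwa [range_eq_img φ (extFun_coe φ)], fun x y hxy => ?_⟩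
    rw [extFun_coe, extFun_coe] at hxy
    exact Subtype.ext (c.inj x x.2 y y.2 hxy)
  · intro P hP g hg
    exact (mor_iff_mem _ fun _ => rfl).1 (h2 P hP g hg)
  · intro P Q φ hφ ψ hψ h
    refine (mor_iff_mem _ fun x => ?_).1 (h3 P Q _ _ (mor_extFun hφ) (mor_extFun hψ)
      fun x hx => by rw [extFun_of_mem φ hx]; exact h _)
    simp only [MonoidHom.comp_apply, Function.comp, ← extFun_coe]
    exact extFun_coe ψ _
  · intro P φ hφ
    obtain ⟨g, hg, hgf⟩ := h4 P _ (mor_extFun hφ)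
    rw [← range_eq_img φ (extFun_coe φ)] at hg
    obtain ⟨ψ, hψ, hψg⟩ := hg
    refine ⟨ψ, hψ, fun x => ?_⟩
    rw [hψg, MonoidHom.coe_rangeRestrict, extFun_coe, hgf x x.2]

lemma img_sSup_sup {R : Subgroup G} {g : G → G} (hg : PHom R g) {σ : Set (Subgroup G)}
    {P : Subgroup G} (hR : sSup σ ⊔ P ≤ R) :
    img g (sSup σ ⊔ P) = sSup (img g '' σ) ⊔ img g P := by
  rw [hg.img_sup (le_sup_left.trans hR) (le_sup_right.trans hR),
    hg.img_sSup fun Q hQ => (le_sSup hQ).trans (le_sup_left.trans hR)]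

theorem normSys_isFusionSystem (hF : F.IsFusionSystem) {σ : Set (Subgroup G)}
    (hσ : sSup σ ≤ F.S) : (F.normSys σ).IsFusionSystem := by
  apply isFusionSystem_of_mor
  · intro P f h
    obtain ⟨h1, h2, g, hg, hgf, -⟩ := normSys_mor.1 h
    exact ⟨h1, h2, ((hg.mono hF le_sup_right).congr hgf).phom hF⟩
  · intro P hP g hg
    have hg' := mem_normSys_S.1 hg
    refine normSys_mor.2 ⟨hP, img_le_iff.2 fun x hx => ?_, cj g,
      mor_cj hF (sup_le hσ (hP.trans inf_le_left)) hg'.1, fun _ _ => rfl,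
      fun Q hQ => img_cj_eq_iff.2 (hg'.2 Q hQ)⟩
    exact mul_mem (mul_mem hg (hP hx)) (inv_mem hg)
  · intro P Q f g hf hg hPQ
    obtain ⟨h1, h2, f', hf', hff, hfσ⟩ := normSys_mor.1 hf
    obtain ⟨h3, h4, g', hg', hgg, hgσ⟩ := normSys_mor.1 hg
    have hle : img f' (sSup σ ⊔ P) ≤ sSup σ ⊔ Q := by
      rw [img_sSup_sup (hf'.phom hF) le_rfl, image_eq_of_fix hfσ, img_congr hff]
      exact sup_le_sup_left (img_le_iff.2 hPQ) _
    refine normSys_mor.2 ⟨h1, img_le_iff.2 fun x hx => h4 (mem_img_of_mem g (hPQ x hx)), g' ∘ f',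
      hf'.comp hF hg' (img_le_iff.1 hle), fun x hx => ?_, fun T hT => ?_⟩
    · simp only [Function.comp, hff x hx, hgg _ (hPQ x hx)]
    · rw [(hf'.phom hF).img_comp ((le_sSup hT).trans le_sup_left), hfσ T hT, hgσ T hT]
  · intro P f hf
    obtain ⟨h1, h2, f', hf', hff, hfσ⟩ := normSys_mor.1 hf
    obtain ⟨g, hg, hgf⟩ := hf'.inv hF
    rw [img_sSup_sup (hf'.phom hF) le_rfl, image_eq_of_fix hfσ, img_congr hff] at hg
    have hP : img g (img f P) = P := by
      rw [← img_congr hff, ← (hf'.phom hF).img_comp le_sup_right]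
      exact img_eq_self fun x hx => hgf x (mem_sup_right hx)
    refine ⟨g, normSys_mor.2 ⟨h2, hP.le.trans h1, g, hg, fun _ _ => rfl, fun T hT => ?_⟩,
      fun x hx => ?_⟩
    · have hT' : T ≤ sSup σ ⊔ P := (le_sSup hT).trans le_sup_left
      conv_lhs => rw [← hfσ T hT, ← (hf'.phom hF).img_comp hT']
      exact img_eq_self fun x hx => hgf x (hT' hx)
    · rw [← hff x hx, hgf x (mem_sup_right hx)]

theorem centSys_isFusionSystem (hF : F.IsFusionSystem) {x : G} (hx : x ∈ F.S) :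
    (F.centSys x).IsFusionSystem := by
  have hxx : ∀ P : Subgroup G, x ∈ zpowers x ⊔ P := fun P => mem_sup_left (mem_zpowers x)
  apply isFusionSystem_of_mor
  · intro P f h
    obtain ⟨h1, h2, g, hg, hgf, -⟩ := centSys_mor.1 h
    exact ⟨h1, h2, ((hg.mono hF le_sup_right).congr hgf).phom hF⟩
  · intro P hP g hg
    have hg' := mem_centSys_S.1 hg
    refine centSys_mor.2 ⟨hP, img_le_iff.2 fun y hy => ?_, cj g,
      mor_cj hF (sup_le (zpowers_le.2 hx) (hP.trans inf_le_left)) hg'.1, fun _ _ => rfl, ?_⟩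
    · exact mul_mem (mul_mem hg (hP hy)) (inv_mem hg)
    · simp [cj, hg'.2]
  · intro P Q f g hf hg hPQ
    obtain ⟨h1, h2, f', hf', hff, hfx⟩ := centSys_mor.1 hf
    obtain ⟨h3, h4, g', hg', hgg, hgx⟩ := centSys_mor.1 hg
    have hle : img f' (zpowers x ⊔ P) ≤ zpowers x ⊔ Q := by
      rw [(hf'.phom hF).img_sup le_sup_left le_sup_right, (hf'.phom hF).img_zpowers (hxx P), hfx,
        img_congr hff]
      exact sup_le_sup_left (img_le_iff.2 hPQ) _
    refine centSys_mor.2 ⟨h1, img_le_iff.2 fun y hy => h4 (mem_img_of_mem g (hPQ y hy)), g' ∘ f',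
      hf'.comp hF hg' (img_le_iff.1 hle), fun y hy => ?_, ?_⟩
    · simp only [Function.comp, hff y hy, hgg _ (hPQ y hy)]
    · simp only [Function.comp, hfx, hgx]
  · intro P f hf
    obtain ⟨h1, h2, f', hf', hff, hfx⟩ := centSys_mor.1 hf
    obtain ⟨g, hg, hgf⟩ := hf'.inv hF
    rw [(hf'.phom hF).img_sup le_sup_left le_sup_right, (hf'.phom hF).img_zpowers (hxx P), hfx,
      img_congr hff] at hg
    have hP : img g (img f P) = P := by
      rw [← img_congr hff, ← (hf'.phom hF).img_comp le_sup_right]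
      exact img_eq_self fun y hy => hgf y (mem_sup_right hy)
    refine ⟨g, centSys_mor.2 ⟨h2, hP.le.trans h1, g, hg, fun _ _ => rfl, ?_⟩, fun y hy => ?_⟩
    · conv_lhs => rw [← hfx]
      exact hgf x (hxx P)
    · rw [← hff y hy, hgf y (mem_sup_right hy)]

lemma fus_ext {E E' : Fus G} (hS : E.S = E'.S) (hM : ∀ P f, E.Mor P f ↔ E'.Mor P f) : E = E' := by
  obtain ⟨S, H⟩ := E
  obtain ⟨S', H'⟩ := E'
  have hH : H = H' := by
    funext P
    ext φ
    exact ((mor_iff_mem (F := ⟨S, H⟩) φ (extFun_coe φ)).symm.trans (hM P _)).trans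
      (mor_iff_mem (F := ⟨S', H'⟩) φ (extFun_coe φ))
  cases hS
  cases hH
  rfl

end Fus

end Pool.Agent.MP_3359e9_al

end MrgPart1

-- ======== part 2: formerly Pool.Agent.MP_3359e9_al.GroupLemmas
section MrgPart2

set_option autoImplicit false

namespace Pool.Agent.MP_3359e9_al

open Subgroup

lemma mem_inn_iff {H : Type} [Group H] {a : MulAut H} :
    a ∈ normalClosure (Set.range (MulAut.conj : H → MulAut H)) ↔ ∃ u, MulAut.conj u = a := by
  have hn : (MulAut.conj : H →* MulAut H).range.Normal := ⟨by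
    rintro _ ⟨h, rfl⟩ a
    exact ⟨a h, by ext y; simp⟩⟩
  rw [← MonoidHom.coe_range, normalClosure_eq_self]
  rfl

section Sylow

variable {M : Type} [Group M] [Finite M] {p : ℕ} [Fact p.Prime]

lemma conj_into_sylow (T : Sylow p M) {V : Subgroup M} (hV : IsPGroup p V) :
    ∃ a : M, ∀ v ∈ V, a * v * a⁻¹ ∈ (T : Subgroup M) := by
  obtain ⟨U, hU⟩ := hV.exists_le_sylow
  obtain ⟨a, ha⟩ := MulAction.exists_smul_eq M U T
  refine ⟨a, fun v hv => ?_⟩
  rw [← ha, Sylow.coe_subgroup_smul]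
  exact smul_mem_pointwise_smul v (MulAut.conj a) (U : Subgroup M) (hU hv)

lemma conj_into_sylow' {A T₀ : Subgroup M} (T : Sylow p A)
    (hT : (T : Subgroup A) = T₀.subgroupOf A) {V : Subgroup M} (hV : IsPGroup p V) (hVA : V ≤ A) :
    ∃ a ∈ A, ∀ v ∈ V, a * v * a⁻¹ ∈ T₀ := by
  obtain ⟨a, ha⟩ := conj_into_sylow T (V := V.subgroupOf A) hV.comap_subtype
  refine ⟨a, a.2, fun v hv => ?_⟩
  have := ha ⟨v, hVA hv⟩ hv
  rw [hT] at this
  exact this

lemma conj_pair_into_sylow {A T₀ K : Subgroup M} (T : Sylow p A)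
    (hT : (T : Subgroup A) = T₀.subgroupOf A) (hKA : K ≤ A) {V V' : Subgroup M}
    (hV : IsPGroup p V) (hV' : IsPGroup p V') (hVK : V ≤ K) (hVK' : V' ≤ K) :
    ∃ a ∈ A, ∃ b ∈ K, (∀ v ∈ V, a * v * a⁻¹ ∈ T₀) ∧
      ∀ v ∈ V', (a * b) * v * (a * b)⁻¹ ∈ T₀ := by
  obtain ⟨U, hU⟩ := (hV.comap_subtype (K := K)).exists_le_sylow
  obtain ⟨b, hb, hbV⟩ := conj_into_sylow' (T₀ := (U : Subgroup K).map K.subtype) U
    (by rw [subgroupOf, comap_map_eq_self_of_injective K.subtype_injective]) hV' hVK'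
  obtain ⟨a, ha, haU⟩ := conj_into_sylow' T hT (V := (U : Subgroup K).map K.subtype)
    (U.isPGroup'.map _) ((map_subtype_le _).trans hKA)
  refine ⟨a, ha, b, hb, fun v hv => haU v ⟨⟨v, hVK hv⟩, hU hv, rfl⟩, fun v hv => ?_⟩
  have := haU _ (hbV v hv)
  simpa [mul_assoc] using this

/-- An automorphism of a finite `p`-group fixing a self-centralizing subgroup pointwise has
`p`-power order. -/
lemma pow_eq_one_of_fix (hM : IsPGroup p M) (H : Subgroup M) (hH : centralizer (H : Set M) ≤ H)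
    (θ : MulAut M) (hθ : ∀ h ∈ H, θ h = h) : ∃ n : ℕ, θ ^ p ^ n = 1 := by
  have hnil := hM.isNilpotent
  have hnc : NormalizerCondition M := Group.normalizerCondition_of_isNilpotent
  obtain ⟨e, he⟩ := isPGroup_iff_exists_pow_pow_eq_one.1 hM
  induction H using WellFoundedGT.induction generalizing θ with
  | ind H ih =>
    by_cases htop : H = ⊤
    · refine ⟨0, ?_⟩
      ext x
      simp [hθ x (htop ▸ mem_top x)]
    · have hlt := hnc H (lt_top_iff_ne_top.2 htop)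
      obtain ⟨n, hn⟩ := ih _ hlt ((centralizer_le hlt.le).trans (hH.trans hlt.le)) (θ ^ p ^ e) (by
        intro g hg
        have hc : g⁻¹ * θ g ∈ H := by
          apply hH
          rw [mem_centralizer_iff]
          intro h hh
          have h1 := hθ _ ((mem_normalizer_iff.1 hg h).1 hh)
          rw [map_mul, map_mul, map_inv, hθ h hh] at h1
          calc h * (g⁻¹ * θ g) = g⁻¹ * (g * h * g⁻¹) * θ g := by simp [mul_assoc]
            _ = g⁻¹ * θ g * h := by rw [← h1]; simp [mul_assoc]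
        have hpow : ∀ j : ℕ, (θ ^ j) g = g * (g⁻¹ * θ g) ^ j := by
          intro j
          induction j with
          | zero => simp
          | succ j ihj =>
            rw [pow_succ', MulAut.mul_apply, ihj, map_mul, hθ _ (pow_mem hc j), pow_succ']
            simp [mul_assoc]
        rw [hpow, he, mul_one])
      exact ⟨e + n, by rw [pow_add, pow_mul, hn]⟩

end Sylow

variable {G : Type} [Group G]

lemma PHom.exists_mulEquiv {D D₀ : Subgroup G} {f : G → G} (h : PHom D f) (hD : img f D = D₀) :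
    ∃ e : D ≃* D₀, ∀ y : D, (e y : G) = f y := by
  let φ : D →* D₀ := h.toHom.codRestrict D₀ fun x => hD.le (mem_img_of_mem f x.2)
  have hφ : Function.Bijective φ := by
    constructor
    · intro x y hxy
      exact h.toHom_injective (congrArg Subtype.val hxy)
    · intro y
      obtain ⟨x, hx, hxy⟩ := (h.mem_img le_rfl).1 (hD.ge y.2)
      exact ⟨⟨x, hx⟩, Subtype.ext hxy⟩
  exact ⟨MulEquiv.ofBijective φ hφ, fun _ => rfl⟩

/-- The group of automorphisms of `D₀` induced through `e` by conjugation by elements of `N`. -/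
lemma exists_transport {p : ℕ} {D D₀ N : Subgroup G} (e : D ≃* D₀)
    (hN : N ≤ normalizer (D : Set G)) (hp : IsPGroup p N) :
    ∃ V : Subgroup (MulAut D₀), IsPGroup p V ∧
      ∀ v, v ∈ V ↔ ∃ n ∈ N, ∀ y y' : D, (y' : G) = n * y * n⁻¹ → v (e y) = e y' := by
  let χ : N →* MulAut D₀ :=
    (MulAut.congr e).toMonoidHom.comp (D.normalizerMonoidHom.comp (inclusion hN))
  have hχ : ∀ (n : N) (y y' : D), (y' : G) = n * y * (n : G)⁻¹ → χ n (e y) = e y' := by
    intro n y y' h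
    have h1 : D.normalizerMonoidHom (inclusion hN n) y = y' := Subtype.ext h.symm
    simp only [χ, MonoidHom.comp_apply, MulEquiv.coe_toMonoidHom, MulAut.congr_apply,
      MulEquiv.trans_apply, MulEquiv.symm_apply_apply, h1]
  refine ⟨χ.range, hp.of_surjective χ.rangeRestrict χ.rangeRestrict_surjective, fun v => ⟨?_, ?_⟩⟩
  · rintro ⟨n, rfl⟩
    exact ⟨n, n.2, hχ n⟩
  · rintro ⟨n, hn, h⟩
    refine ⟨⟨n, hn⟩, MulEquiv.ext fun u => ?_⟩
    obtain ⟨y, rfl⟩ := e.surjective u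
    rw [hχ ⟨n, hn⟩ y ⟨_, (mem_normalizer_iff.1 (hN hn) y).1 y.2⟩ rfl,
      h y ⟨_, (mem_normalizer_iff.1 (hN hn) y).1 y.2⟩ rfl]

/-- In a finite `p`-group, a subgroup whose normal closure is everything is everything. -/
lemma eq_of_normal_closure [Finite G] {p : ℕ} [Fact p.Prime] {R H : Subgroup G}
    (hR : IsPGroup p R) (hH : H ≤ R)
    (h : ∀ M : Subgroup G, H ≤ M → M ≤ R → R ≤ normalizer (M : Set G) → R ≤ M) : H = R := by
  by_contra hne
  have hnil := hR.isNilpotent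
  have hnc : NormalizerCondition R := Group.normalizerCondition_of_isNilpotent
  have hne' : H.subgroupOf R ≠ ⊤ := fun h' => hne (le_antisymm hH (subgroupOf_eq_top.1 h'))
  obtain ⟨M, hM, hHM⟩ := (eq_top_or_exists_le_coatom (H.subgroupOf R)).resolve_left hne'
  have hMn := NormalizerCondition.normal_of_coatom M hnc hM
  have h1 := h (M.map R.subtype) (fun x hx => ⟨⟨x, hH hx⟩, hHM hx, rfl⟩) (map_subtype_le _) (by
    intro g hg
    rw [mem_normalizer_iff]
    intro y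
    constructor
    · rintro ⟨m, hm, rfl⟩
      exact ⟨_, hMn.conj_mem m hm ⟨g, hg⟩, rfl⟩
    · rintro ⟨m, hm, hmy⟩
      refine ⟨_, hMn.conj_mem m hm ⟨g, hg⟩⁻¹, ?_⟩
      simp only [coe_subtype] at hmy
      simp [hmy, mul_assoc])
  apply hM.1
  rw [eq_top_iff]
  intro x _
  obtain ⟨m, hm, hmx⟩ := h1 x.2
  rwa [← Subtype.ext hmx]

end Pool.Agent.MP_3359e9_al

end MrgPart2

-- marker of a merged file
example : 731051 + 47464 = 731051 + 47464 := rfl
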