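import Mathlib.Algebra.Order.Star.Basic
import Mathlib.Algebra.Category.ModuleCat.ChangeOfRings
import Mathlib.RingTheory.SimpleRing.Principal
import Mathlib.RingTheory.Henselian
import Mathlib.RingTheory.RegularLocalRing.Defs
import Pool.Agent.MP_3359e9_al.GroupLemmas
import Pool.Agent.MP_3359e9_al.Defs

-- ======== part 0: formerly Pool.Agent.MP_3359e9_al.Sat
section MrgPart0

set_option autoImplicit false

namespace Pool.Agent.MP_3359e9_al

open Subgroup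

variable {G : Type} [Group G]

/-- The subgroup generated by a configuration `(σ, x)`. -/
def DD (σ : Set (Subgroup G)) (x : G) : Subgroup G := sSup σ ⊔ zpowers x

lemma le_DD {σ : Set (Subgroup G)} (x : G) {Q : Subgroup G} (hQ : Q ∈ σ) : Q ≤ DD σ x :=
  (le_sSup hQ).trans le_sup_left

lemma mem_DD (σ : Set (Subgroup G)) (x : G) : x ∈ DD σ x := mem_sup_right (mem_zpowers x)

lemma PHom.img_DD {R : Subgroup G} {f : G → G} (h : PHom R f) {σ : Set (Subgroup G)} {x : G}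
    (hR : DD σ x ≤ R) : img f (DD σ x) = DD (img f '' σ) (f x) := by
  rw [DD, Fus.img_sSup_sup h hR, h.img_zpowers (hR (mem_DD σ x)), DD]

lemma PHom.image_img_comp {R : Subgroup G} {f : G → G} (h : PHom R f) {σ : Set (Subgroup G)}
    (hR : ∀ Q ∈ σ, Q ≤ R) (g : G → G) : img (g ∘ f) '' σ = img g '' (img f '' σ) := by
  rw [← Set.image_comp]
  exact Set.image_congr fun Q hQ => h.img_comp (hR Q hQ) g

namespace Fus

/-- The normalizer in `S` of a configuration `(σ, x)`. -/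
def NN (F : Fus G) (σ : Set (Subgroup G)) (x : G) : Subgroup G := ((F.normSys σ).centSys x).S

variable {F : Fus G}

lemma mem_NN {σ : Set (Subgroup G)} {x g : G} :
    g ∈ F.NN σ x ↔ g ∈ F.S ∧ (∀ Q ∈ σ, g ∈ normalizer (Q : Set G)) ∧ g * x = x * g := by
  rw [NN, mem_centSys_S, mem_normSys_S, and_assoc]

lemma NN_le_S (σ : Set (Subgroup G)) (x : G) : F.NN σ x ≤ F.S := fun _ hg => (mem_NN.1 hg).1

lemma NN_one (σ : Set (Subgroup G)) : F.NN σ 1 = (F.normSys σ).S := by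
  ext g
  simp [mem_NN, mem_normSys_S]

lemma NN_le_normalizer (σ : Set (Subgroup G)) (x : G) :
    F.NN σ x ≤ normalizer (DD σ x : Set G) := by
  intro g hg
  obtain ⟨-, h2, h3⟩ := mem_NN.1 hg
  rw [← img_cj_eq_iff, (phom_cj ⊤ g).img_DD le_top,
    image_eq_of_fix fun Q hQ => img_cj_eq_iff.2 (h2 Q hQ)]
  simp [cj, h3]

lemma Mor.apply_mem_NN (hF : F.IsFusionSystem) {R : Subgroup G} {g : G → G} (h : F.Mor R g)
    {σ : Set (Subgroup G)} {x n : G} (hD : DD σ x ≤ R) (hn : n ∈ R) (hN : n ∈ F.NN σ x) :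
    g n ∈ F.NN (img g '' σ) (g x) := by
  obtain ⟨-, h2, h3⟩ := mem_NN.1 hN
  have hx := hD (mem_DD σ x)
  refine mem_NN.2 ⟨h.apply_mem hF hn, ?_, ?_⟩
  · rintro _ ⟨Q, hQ, rfl⟩
    exact (h.phom hF).mem_normalizer_img ((le_DD x hQ).trans hD) hn (h2 Q hQ)
  · rw [← (h.phom hF).map_mul n hn x hx, h3, (h.phom hF).map_mul x hx n hn]

/-- `Aut_S(D)`. -/
def AutS (F : Fus G) (D : Subgroup G) : Subgroup (MulAut D) :=
  (F.S.subgroupOf (normalizer D)).map D.normalizerMonoidHom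

lemma exists_of_mem_AutS {D : Subgroup G} {c : MulAut D} (hc : c ∈ F.AutS D) :
    ∃ h ∈ F.S ⊓ normalizer (D : Set G), ∀ u : D, (c u : G) = h * u * h⁻¹ := by
  obtain ⟨h, hh, rfl⟩ := hc
  exact ⟨h, ⟨hh, h.2⟩, fun _ => rfl⟩

/-- Extension lemma. -/
lemma exists_extension (hF : F.IsFusionSystem) {D D₀ N : Subgroup G} {f : G → G}
    (hrec : F.Receptive D₀) (hf : F.Mor D f) (hD : img f D = D₀)
    (hN : N ≤ F.S ⊓ normalizer (D : Set G))
    (h : ∀ n ∈ N, ∃ h ∈ F.S ⊓ normalizer (D₀ : Set G), ∀ y ∈ D,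
      f (n * y * n⁻¹) = h * f y * h⁻¹) :
    ∃ g, F.Mor (N ⊔ D) g ∧ ∀ y ∈ D, g y = f y := by
  let Nf : Subgroup G :=
    { carrier := {n | n ∈ F.S ⊓ normalizer (D : Set G) ∧ ∃ h ∈ F.S ⊓ normalizer (D₀ : Set G),
        ∀ y ∈ D, f (n * y * n⁻¹) = h * f y * h⁻¹}
      one_mem' := ⟨one_mem _, 1, one_mem _, fun y _ => by simp⟩
      mul_mem' := by
        rintro a b ⟨ha, h, hh, hah⟩ ⟨hb, h', hh', hbh⟩
        refine ⟨mul_mem ha hb, h * h', mul_mem hh hh', fun y hy => ?_⟩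
        have h1 := hah _ ((mem_normalizer_iff.1 hb.2 y).1 hy)
        rw [hbh y hy] at h1
        simpa [mul_assoc] using h1
      inv_mem' := by
        rintro a ⟨ha, h, hh, hah⟩
        refine ⟨inv_mem ha, h⁻¹, inv_mem hh, fun y hy => ?_⟩
        have h1 := hah _ ((mem_normalizer_iff.1 (inv_mem ha.2) y).1 hy)
        have h2 : a * (a⁻¹ * y * a⁻¹⁻¹) * a⁻¹ = y := by simp [mul_assoc]
        rw [h2] at h1
        rw [h1]
        simp [mul_assoc] }
  have hle : N ⊔ D ≤ Nf := by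
    refine sup_le (fun n hn => ⟨hN hn, h n hn⟩) fun d hd => ?_
    refine ⟨⟨hf.le hF hd, le_normalizer hd⟩, f d, ⟨hf.apply_mem hF hd, ?_⟩, fun y hy => ?_⟩
    · exact le_normalizer (hD.le (mem_img_of_mem f hd))
    · exact (hf.phom hF).map_conj hd hy
  obtain ⟨φ, hφ, hφf⟩ := hf
  obtain ⟨ψ, hψ, hψφ⟩ := hrec D φ hφ ((range_eq_img φ hφf).trans hD) (N ⊔ D) le_sup_right
    (fun n hn => (hle hn).1) (fun n hn => by
      obtain ⟨h, hh, hnh⟩ := (hle hn).2
      refine ⟨h, hh, fun x y hxy => ?_⟩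
      rw [hφf, hφf, hxy, hnh x x.2])
  refine ⟨extFun ψ, mor_extFun hψ, fun y hy => ?_⟩
  rw [extFun_of_mem ψ (mem_sup_right hy), ← hφf ⟨y, hy⟩, ← hψφ]
  rfl

/-- The stabiliser of a configuration in `Aut_F(D₀)`. -/
def stab (F : Fus G) (D₀ : Subgroup G) (σ₀ : Set (Subgroup G)) (x₀ : G) :
    Subgroup (MulAut D₀) :=
  F.Aut D₀ ⊓
    { carrier := {a | (∀ Q ∈ σ₀, ∀ u : D₀, (a u : G) ∈ Q ↔ (u : G) ∈ Q) ∧
        ∀ u : D₀, (a u : G) = x₀ ↔ (u : G) = x₀}
      one_mem' := ⟨fun _ _ _ => Iff.rfl, fun _ => Iff.rfl⟩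
      mul_mem' := by
        rintro a b ⟨ha, ha'⟩ ⟨hb, hb'⟩
        exact ⟨fun Q hQ u => (ha Q hQ (b u)).trans (hb Q hQ u), fun u => (ha' (b u)).trans (hb' u)⟩
      inv_mem' := by
        rintro a ⟨ha, ha'⟩
        refine ⟨fun Q hQ u => ?_, fun u => ?_⟩
        · rw [← ha Q hQ (a⁻¹ u), MulAut.apply_inv_self]
        · rw [← ha' (a⁻¹ u), MulAut.apply_inv_self] }

lemma mem_stab {D₀ : Subgroup G} {σ₀ : Set (Subgroup G)} {x₀ : G} {a : MulAut D₀} :
    a ∈ F.stab D₀ σ₀ x₀ ↔ a ∈ F.Aut D₀ ∧ (∀ Q ∈ σ₀, ∀ u : D₀, (a u : G) ∈ Q ↔ (u : G) ∈ Q) ∧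
        ∀ u : D₀, (a u : G) = x₀ ↔ (u : G) = x₀ := Iff.rfl

lemma congr_mem_Aut (hF : F.IsFusionSystem) {D D₀ : Subgroup G} {f : G → G} (hf : F.Mor D f)
    (hD : img f D = D₀) (e : D ≃* D₀) (he : ∀ y : D, (e y : G) = f y) {c : G → G}
    (hc : F.Mor D c) (hcD : ∀ y ∈ D, c y ∈ D) {v : MulAut D₀}
    (hv : ∀ y : D, (v (e y) : G) = f (c y)) : v ∈ F.Aut D₀ := by
  obtain ⟨g, hg, hgf⟩ := hf.inv hF
  rw [hD] at hg
  have hge : ∀ y : D, g (e y) = y := fun y => by rw [he, hgf y y.2]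
  have hgD : ∀ u ∈ D₀, g u ∈ D := fun u hu => by
    obtain ⟨y, hy⟩ := e.surjective ⟨u, hu⟩
    have := hge y
    rw [hy] at this
    exact this ▸ y.2
  refine (mem_Aut_iff hF (hg.le hF)).2 ⟨f ∘ (c ∘ g), (hg.comp hF hc hgD).comp hF hf
    fun u hu => hcD _ (hgD u hu), fun u => ?_⟩
  obtain ⟨y, rfl⟩ := e.surjective u
  simp only [Function.comp, hge, hv]

lemma transport_le_stab (hF : F.IsFusionSystem) {σ : Set (Subgroup G)} {x : G} {D₀ : Subgroup G}
    {f : G → G} (hf : F.Mor (DD σ x) f) (hD : img f (DD σ x) = D₀) (e : DD σ x ≃* D₀)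
    (he : ∀ y : DD σ x, (e y : G) = f y) {v : MulAut D₀} {n : G} (hn : n ∈ F.NN σ x)
    (hv : ∀ y y' : DD σ x, (y' : G) = n * y * n⁻¹ → v (e y) = e y') :
    v ∈ F.stab D₀ (img f '' σ) (f x) := by
  have hnD : ∀ y ∈ DD σ x, n * y * n⁻¹ ∈ DD σ x := fun y hy =>
    (mem_normalizer_iff.1 (NN_le_normalizer σ x hn) y).1 hy
  have hv' : ∀ y : DD σ x, (v (e y) : G) = f (cj n y) := fun y => by
    rw [hv y ⟨_, hnD y y.2⟩ rfl, he]
    rfl
  obtain ⟨h1, h2, h3⟩ := mem_NN.1 hn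
  have hph := hf.phom hF
  refine mem_stab.2 ⟨congr_mem_Aut hF hf hD e he (mor_cj hF (hf.le hF) h1) hnD hv', ?_, ?_⟩
  · rintro _ ⟨Q, hQ, rfl⟩ u
    obtain ⟨y, rfl⟩ := e.surjective u
    rw [hv', he, cj, hph.apply_mem_img (le_DD x hQ) (hnD y y.2),
      hph.apply_mem_img (le_DD x hQ) y.2]
    exact (mem_normalizer_iff.1 (h2 Q hQ) y).symm
  · intro u
    obtain ⟨y, rfl⟩ := e.surjective u
    rw [hv', he]
    constructor
    · intro h
      have h4 : n * y * n⁻¹ = x := hph.inj _ (hnD y y.2) _ (mem_DD σ x) h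
      have h5 : (y : G) = x := by
        rw [mul_inv_eq_iff_eq_mul, ← h3] at h4
        exact mul_left_cancel h4
      rw [h5]
    · intro h
      have h5 : (y : G) = x := hph.inj _ y.2 _ (mem_DD σ x) h
      simp [h5, cj, h3]

lemma exists_extension' (hF : F.IsFusionSystem) {D D₀ N : Subgroup G} {f : G → G}
    (hrec : F.Receptive D₀) (hf : F.Mor D f) (hD : img f D = D₀) (e : D ≃* D₀)
    (he : ∀ y : D, (e y : G) = f y) (hN : N ≤ F.S ⊓ normalizer (D : Set G))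
    {V : Subgroup (MulAut D₀)}
    (hV : ∀ v, v ∈ V ↔ ∃ n ∈ N, ∀ y y' : D, (y' : G) = n * y * n⁻¹ → v (e y) = e y')
    {c : MulAut D₀} (hc : c ∈ F.Aut D₀) (hcV : ∀ v ∈ V, c * v * c⁻¹ ∈ F.AutS D₀) :
    ∃ g, F.Mor (N ⊔ D) g ∧ ∀ y : D, g y = c (e y) := by
  have hD₀ : D₀ ≤ F.S := hD ▸ hf.img_le hF le_rfl
  obtain ⟨c', hc', hcc⟩ := (mem_Aut_iff hF hD₀).1 hc
  have hcf : ∀ y : D, (c' ∘ f) y = c (e y) := fun y => by rw [hcc, he, Function.comp]
  obtain ⟨g, hg, hgf⟩ := exists_extension hF (N := N) hrec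
    (hf.comp hF hc' fun y hy => hD.le (mem_img_of_mem f hy)) (by
      apply le_antisymm
      · rw [img_le_iff]
        intro y hy
        rw [hcf ⟨y, hy⟩]
        exact (c (e ⟨y, hy⟩)).2
      · intro u hu
        have := mem_img_of_mem (c' ∘ f) (e.symm (c⁻¹ ⟨u, hu⟩)).2
        rwa [hcf, MulEquiv.apply_symm_apply, MulAut.apply_inv_self] at this) hN (by
      intro n hn
      let v : MulAut D₀ := MulAut.congr e (D.normalizerMonoidHom ⟨n, (hN hn).2⟩)
      have hv : ∀ y y' : D, (y' : G) = n * y * n⁻¹ → v (e y) = e y' := by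
        intro y y' h
        have h1 : D.normalizerMonoidHom ⟨n, (hN hn).2⟩ y = y' := Subtype.ext h.symm
        simp only [v, MulAut.congr_apply, MulEquiv.trans_apply, MulEquiv.symm_apply_apply, h1]
      obtain ⟨h, hh, hch⟩ := exists_of_mem_AutS (hcV v ((hV v).2 ⟨n, hn, hv⟩))
      refine ⟨h, hh, fun y hy => ?_⟩
      have hy' := (mem_normalizer_iff.1 (hN hn).2 y).1 hy
      rw [hcf ⟨y, hy⟩, hcf ⟨_, hy'⟩, ← hch, ← hv ⟨y, hy⟩ ⟨_, hy'⟩ rfl]
      simp)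
  exact ⟨g, hg, fun y => (hgf y y.2).trans (hcf y)⟩

/-- The key extension property of a configuration. -/
def KP (F : Fus G) (σ : Set (Subgroup G)) (x : G) : Prop :=
  ∀ σ' x' f, F.Mor (DD σ' x') f → img f '' σ' = σ → f x' = x →
    ∃ g, F.Mor (F.NN σ' x' ⊔ DD σ' x') g ∧ (∀ Q ∈ σ', img g Q = img f Q) ∧ g x' = x

/-- A configuration with normalizer of maximal order in its class. -/
def MaxCfg (F : Fus G) (σ : Set (Subgroup G)) (x : G) : Prop :=
  ∀ f, F.Mor (DD σ x) f → Nat.card (F.NN (img f '' σ) (f x)) ≤ Nat.card (F.NN σ x)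

lemma IsSaturated.exists_good {p : ℕ} (hF : F.IsSaturated p) {D : Subgroup G} (hD : D ≤ F.S) :
    ∃ f D₀, F.Mor D f ∧ img f D = D₀ ∧ (∃ T : Sylow p (F.Aut D₀),
      (T : Subgroup (F.Aut D₀)) = (F.AutS D₀).subgroupOf (F.Aut D₀)) ∧ F.Receptive D₀ := by
  obtain ⟨f, hf, h1, h2⟩ :=
    (exists_hom_range (q := fun T => F.FullyAutomized p T ∧ F.Receptive T)).1 (hF.2 D hD)
  exact ⟨f, _, hf, rfl, h1, h2⟩

variable [Finite G] {p : ℕ} [Fact p.Prime]

theorem KP_of_max (hS : IsPGroup p F.S) (hF : F.IsSaturated p) {σ : Set (Subgroup G)} {x : G}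
    (hmax : F.MaxCfg σ x) : F.KP σ x := by
  intro σ' x' f hf hσ hx
  have hF1 := hF.1
  have hph := hf.phom hF1
  have hfD : img f (DD σ' x') = DD σ x := by rw [hph.img_DD le_rfl, hσ, hx]
  have hD : DD σ x ≤ F.S := hfD ▸ hf.img_le hF1 le_rfl
  obtain ⟨f₀, D₀, hf₀, hD₀, ⟨T, hT⟩, hrec⟩ := hF.exists_good hD
  have hf₁ : F.Mor (DD σ' x') (f₀ ∘ f) :=
    hf.comp hF1 hf₀ fun y hy => hfD.le (mem_img_of_mem f hy)
  have hD₁ : img (f₀ ∘ f) (DD σ' x') = D₀ := by rw [hph.img_comp le_rfl, hfD, hD₀]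
  obtain ⟨e, he⟩ := (hf₀.phom hF1).exists_mulEquiv hD₀
  obtain ⟨e', he'⟩ := (hf₁.phom hF1).exists_mulEquiv hD₁
  obtain ⟨V, hVp, hV⟩ := exists_transport e (NN_le_normalizer (F := F) σ x)
    (hS.to_le (NN_le_S σ x))
  obtain ⟨V', hVp', hV'⟩ := exists_transport e' (NN_le_normalizer (F := F) σ' x')
    (hS.to_le (NN_le_S σ' x'))
  have hσ₁ : img (f₀ ∘ f) '' σ' = img f₀ '' σ := by
    rw [hph.image_img_comp fun Q hQ => le_DD x' hQ, hσ]
  have hVK : V ≤ F.stab D₀ (img f₀ '' σ) (f₀ x) := fun v hv => by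
    obtain ⟨n, hn, hvn⟩ := (hV v).1 hv
    exact transport_le_stab hF1 hf₀ hD₀ e he hn hvn
  have hVK' : V' ≤ F.stab D₀ (img f₀ '' σ) (f₀ x) := fun v hv => by
    obtain ⟨n, hn, hvn⟩ := (hV' v).1 hv
    have := transport_le_stab hF1 hf₁ hD₁ e' he' hn hvn
    rwa [hσ₁, Function.comp, hx] at this
  obtain ⟨a, ha, b, hb, haV, habV⟩ := conj_pair_into_sylow (T₀ := F.AutS D₀) T hT inf_le_left
    hVp hVp' hVK hVK'
  obtain ⟨g₁, hg₁, hg₁e⟩ := exists_extension' hF1 hrec hf₀ hD₀ e he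
    (le_inf (NN_le_S σ x) (NN_le_normalizer σ x)) hV ha haV
  obtain ⟨g₂, hg₂, hg₂e⟩ := exists_extension' hF1 hrec hf₁ hD₁ e' he'
    (le_inf (NN_le_S σ' x') (NN_le_normalizer σ' x')) hV' (mul_mem ha hb.1) habV
  obtain ⟨hb1, hb2, hb3⟩ := mem_stab.1 hb
  have hph₀ := hf₀.phom hF1
  have hph₁ := hg₁.phom hF1
  have hph₂ := hg₂.phom hF1
  have hQimg : ∀ Q ∈ σ', img g₂ Q = img g₁ (img f Q) := by
    intro Q hQ
    have hfQ : img f Q ∈ σ := hσ ▸ Set.mem_image_of_mem _ hQ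
    have hQ₀ : img f₀ (img f Q) ∈ img f₀ '' σ := Set.mem_image_of_mem _ hfQ
    apply eq_of_le_of_card_ge
    · rw [img_le_iff]
      intro y hy
      have hy' := le_DD x' hQ hy
      have h1 : ((b (e' ⟨y, hy'⟩) : D₀) : G) ∈ img f₀ (img f Q) := by
        rw [hb2 _ hQ₀, he']
        exact mem_img_of_mem f₀ (mem_img_of_mem f hy)
      obtain ⟨w, hw, hwe⟩ := (hph₀.mem_img (le_DD x hfQ)).1 h1
      have h2 : e ⟨w, le_DD x hfQ hw⟩ = b (e' ⟨y, hy'⟩) := Subtype.ext (by rw [he, hwe])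
      have h3 : g₂ y = g₁ w := by
        rw [hg₂e ⟨y, hy'⟩, hg₁e ⟨w, le_DD x hfQ hw⟩, h2, MulAut.mul_apply]
      rw [h3]
      exact mem_img_of_mem g₁ hw
    · rw [hph₁.card_img ((le_DD x hfQ).trans le_sup_right), hph.card_img (le_DD x' hQ),
        hph₂.card_img ((le_DD x' hQ).trans le_sup_right)]
  have hxx : g₂ x' = g₁ x := by
    have h2 : e ⟨x, mem_DD σ x⟩ = b (e' ⟨x', mem_DD σ' x'⟩) := Subtype.ext (by
      rw [he, eq_comm, hb3, he', Function.comp, hx])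
    rw [hg₂e ⟨x', mem_DD σ' x'⟩, hg₁e ⟨x, mem_DD σ x⟩, h2, MulAut.mul_apply]
  have hσ₂ : img g₂ '' σ' = img g₁ '' σ := by
    rw [← hσ, ← Set.image_comp]
    exact Set.image_congr hQimg
  have hN₁ : img g₁ (F.NN σ x) = F.NN (img g₁ '' σ) (g₁ x) := by
    apply eq_of_le_of_card_ge
    · exact img_le_iff.2 fun n hn => hg₁.apply_mem_NN hF1 le_sup_right (mem_sup_left hn) hn
    · rw [hph₁.card_img le_sup_left]
      exact hmax g₁ (hg₁.mono hF1 le_sup_right)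
  have hle : img g₂ (F.NN σ' x' ⊔ DD σ' x') ≤ img g₁ (F.NN σ x ⊔ DD σ x) := by
    rw [hph₁.img_sup le_sup_left le_sup_right, hph₂.img_sup le_sup_left le_sup_right, hN₁,
      hph₁.img_DD le_sup_right, hph₂.img_DD le_sup_right, hσ₂, hxx]
    refine sup_le_sup_right (img_le_iff.2 fun n hn => ?_) _
    have := hg₂.apply_mem_NN hF1 le_sup_right (mem_sup_left hn) hn
    rwa [hσ₂, hxx] at this
  obtain ⟨h₁, hh₁, hh₁g⟩ := hg₁.inv hF1
  refine ⟨h₁ ∘ g₂, hg₂.comp hF1 hh₁ (img_le_iff.1 hle), fun Q hQ => ?_, ?_⟩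
  · have hfQ : img f Q ∈ σ := hσ ▸ Set.mem_image_of_mem _ hQ
    rw [hph₂.img_comp ((le_DD x' hQ).trans le_sup_right), hQimg Q hQ,
      ← hph₁.img_comp ((le_DD x hfQ).trans le_sup_right)]
    exact img_eq_self fun y hy => hh₁g y (mem_sup_right (le_DD x hfQ hy))
  · rw [Function.comp, hxx, hh₁g x (mem_sup_right (mem_DD σ x))]

/-- The pair `(σ, P)` is centric. -/
def CPair (F : Fus G) (σ : Set (Subgroup G)) (P : Subgroup G) : Prop :=
  ∀ f, F.Mor (sSup σ ⊔ P) f → ∀ h ∈ (F.normSys (img f '' σ)).S,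
    (∀ y ∈ P, h * f y = f y * h) → h ∈ img f P

/-- Uniqueness of extensions over a centric pair. -/
theorem inner_of_fix (hS : IsPGroup p F.S) (hF : F.IsSaturated p) {σ : Set (Subgroup G)}
    {P R : Subgroup G} (hR : R = sSup σ ⊔ P) (hRN : R ≤ (F.normSys σ).S) (hc : F.CPair σ P)
    {c : MulAut R} (hcA : c ∈ F.Aut R) (hcσ : ∀ Q ∈ σ, ∀ u : R, (c u : G) ∈ Q ↔ (u : G) ∈ Q)
    (hcP : ∀ u : R, (u : G) ∈ P → c u = u) : c ∈ (MulAut.conj : R →* MulAut R).range := by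
  have hF1 := hF.1
  have hRS : R ≤ F.S := hRN.trans inf_le_left
  have hPR : P ≤ R := hR ▸ le_sup_right
  have hQR : ∀ Q ∈ σ, Q ≤ R := fun Q hQ => hR ▸ (le_sSup hQ).trans le_sup_left
  obtain ⟨n, hn⟩ := pow_eq_one_of_fix (hS.to_le hRS) (P.subgroupOf R) (by
    intro u hu
    have h1 := hc id (hR ▸ mor_id hF1 hRS) u (by
      rw [image_img_id]
      exact hRN u.2) (fun y hy => by
      have := mem_centralizer_iff.1 hu ⟨y, hPR hy⟩ hy
      exact (congrArg Subtype.val this).symm)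
    rwa [img_id] at h1) c hcP
  obtain ⟨f₀, D₀, hf₀, hD₀, ⟨T, hT⟩, -⟩ := hF.exists_good hRS
  obtain ⟨e, he⟩ := (hf₀.phom hF1).exists_mulEquiv hD₀
  obtain ⟨c', hc', hcc⟩ := (mem_Aut_iff hF1 hRS).1 hcA
  have hv : MulAut.congr e c ∈ F.Aut D₀ :=
    congr_mem_Aut hF1 hf₀ hD₀ e he hc' (fun y hy => by rw [← hcc ⟨y, hy⟩]; exact (c ⟨y, hy⟩).2)
      (fun y => by simp [he, hcc])
  have hvp : IsPGroup p (zpowers (MulAut.congr e c)) := by
    rintro ⟨_, j, rfl⟩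
    refine ⟨n, Subtype.ext ?_⟩
    simp only [SubgroupClass.coe_pow, OneMemClass.coe_one]
    rw [← zpow_natCast, ← zpow_mul, mul_comm, zpow_mul, zpow_natCast, ← map_pow, hn, map_one,
      one_zpow]
  obtain ⟨a, ha, haV⟩ := conj_into_sylow' (T₀ := F.AutS D₀) T hT hvp (zpowers_le.2 hv)
  obtain ⟨h, hh, hch⟩ := exists_of_mem_AutS (haV _ (mem_zpowers _))
  obtain ⟨a', ha', haa⟩ := (mem_Aut_iff hF1 (hD₀ ▸ hf₀.img_le hF1 le_rfl)).1 ha
  have hφ : F.Mor R (a' ∘ f₀) := hf₀.comp hF1 ha' fun y hy => hD₀.le (mem_img_of_mem f₀ hy)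
  have hph := hφ.phom hF1
  have hφe : ∀ y : R, (a' ∘ f₀) y = a (e y) := fun y => by rw [haa, he, Function.comp]
  have hkey : ∀ y : R, (a' ∘ f₀) (c y) = h * (a' ∘ f₀) y * h⁻¹ := fun y => by
    rw [hφe, hφe, ← hch]
    simp
  have hmem := hc (a' ∘ f₀) (hR ▸ hφ) h (mem_normSys_S.2 ⟨hh.1, by
    rintro _ ⟨Q, hQ, rfl⟩
    rw [mem_normalizer_iff]
    intro w
    constructor
    · intro hw
      obtain ⟨y, hy, rfl⟩ := (hph.mem_img (hQR Q hQ)).1 hw
      rw [← hkey ⟨y, hQR Q hQ hy⟩]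
      exact mem_img_of_mem _ ((hcσ Q hQ _).2 hy)
    · intro hw
      obtain ⟨y, hy, hyw⟩ := (hph.mem_img (hQR Q hQ)).1 hw
      have h1 := hkey (c⁻¹ ⟨y, hQR Q hQ hy⟩)
      rw [MulAut.apply_inv_self, hyw] at h1
      have h2 : w = (a' ∘ f₀) (c⁻¹ ⟨y, hQR Q hQ hy⟩ : R) := by simpa using h1
      rw [h2]
      refine mem_img_of_mem _ ((hcσ Q hQ _).1 ?_)
      rwa [MulAut.apply_inv_self]⟩) (fun y hy => by
    have h1 := hkey ⟨y, hPR hy⟩
    rw [hcP _ hy] at h1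
    exact (eq_mul_inv_iff_mul_eq.1 h1).symm)
  obtain ⟨z, hz, hzh⟩ := (hph.mem_img hPR).1 hmem
  refine ⟨⟨z, hPR hz⟩, MulEquiv.ext fun y => Subtype.ext ?_⟩
  apply hph.inj _ (Subtype.prop _) _ (Subtype.prop _)
  rw [hkey, ← hzh, ← hph.map_conj (hPR hz) y.2]
  rfl

end Fus

end Pool.Agent.MP_3359e9_al

end MrgPart0

-- ======== part 1: formerly Pool.Agent.MP_3359e9_al.Toggle
section MrgPart1

set_option autoImplicit false

namespace Pool.Agent.MP_3359e9_al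

open Subgroup

variable {G : Type} [Group G]

/-- The subgroup that is added to or removed from the chain `σ`. -/
def tg (σ : Set (Subgroup G)) (P : Subgroup G) : Subgroup G :=
  closure {y | (∃ Q ∈ σ, ¬ P ≤ Q ∧ y ∈ Q) ∨ ∃ g ∈ sSup σ ⊔ P, ∃ x ∈ P, y = g * x * g⁻¹}

/-- The toggled chain. -/
def toggle (σ : Set (Subgroup G)) (P : Subgroup G) : Set (Subgroup G) :=
  {Q | (Q ∈ σ ∧ Q ≠ tg σ P) ∨ (Q ∉ σ ∧ Q = tg σ P)}

/-- A normal chain of nontrivial subgroups normalized by `P`. -/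
structure NC (σ : Set (Subgroup G)) (P : Subgroup G) : Prop where
  chain : IsChain (· ≤ ·) σ
  ne_bot : ∀ Q ∈ σ, Q ≠ ⊥
  norm : ∀ Q ∈ σ, sSup σ ⊔ P ≤ normalizer (Q : Set G)

variable {σ : Set (Subgroup G)} {P : Subgroup G}

lemma le_sSup_sup {Q : Subgroup G} (hQ : Q ∈ σ) : Q ≤ sSup σ ⊔ P :=
  (le_sSup hQ).trans le_sup_left

lemma le_tg : P ≤ tg σ P := fun x hx =>
  subset_closure (Or.inr ⟨1, one_mem _, x, hx, by simp⟩)

lemma le_tg_of_not_le {Q : Subgroup G} (hQ : Q ∈ σ) (h : ¬ P ≤ Q) : Q ≤ tg σ P := fun _ hx =>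
  subset_closure (Or.inl ⟨Q, hQ, h, hx⟩)

lemma tg_le_iff {M : Subgroup G} : tg σ P ≤ M ↔ (∀ Q ∈ σ, ¬ P ≤ Q → Q ≤ M) ∧
    ∀ g ∈ sSup σ ⊔ P, ∀ x ∈ P, g * x * g⁻¹ ∈ M := by
  rw [tg, closure_le]
  constructor
  · exact fun h => ⟨fun Q hQ hP y hy => h (Or.inl ⟨Q, hQ, hP, hy⟩),
      fun g hg x hx => h (Or.inr ⟨g, hg, x, hx, rfl⟩)⟩
  · rintro ⟨h1, h2⟩ y (⟨Q, hQ, hP, hy⟩ | ⟨g, hg, x, hx, rfl⟩)
    · exact h1 Q hQ hP hy
    · exact h2 g hg x hx

lemma tg_le_sup : tg σ P ≤ sSup σ ⊔ P :=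
  tg_le_iff.2 ⟨fun _ hQ _ => le_sSup_sup hQ,
    fun _ hg _ hx => mul_mem (mul_mem hg (mem_sup_right hx)) (inv_mem hg)⟩

lemma NC.tg_le (h : NC σ P) {Q : Subgroup G} (hQ : Q ∈ σ) (hP : P ≤ Q) : tg σ P ≤ Q :=
  tg_le_iff.2 ⟨fun _ hQ' hP' => (h.chain.total hQ' hQ).resolve_right fun h' => hP' (hP.trans h'),
    fun _ hg x hx => (mem_normalizer_iff.1 (h.norm Q hQ hg) x).1 (hP hx)⟩

lemma PHom.img_tg {R : Subgroup G} {f : G → G} (h : PHom R f) (hR : sSup σ ⊔ P ≤ R) :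
    img f (tg σ P) = tg (img f '' σ) (img f P) := by
  have hP : P ≤ R := le_sup_right.trans hR
  rw [tg, h.img_closure (subset_closure.trans (tg_le_sup.trans hR)), tg]
  congr 1
  ext y
  constructor
  · rintro ⟨w, (⟨Q, hQ, hPQ, hw⟩ | ⟨g, hg, x, hx, rfl⟩), rfl⟩
    · exact Or.inl ⟨img f Q, Set.mem_image_of_mem _ hQ,
        fun h' => hPQ ((h.img_le_img_iff hP ((le_sSup_sup hQ).trans hR)).1 h'),
        mem_img_of_mem f hw⟩
    · refine Or.inr ⟨f g, ?_, f x, mem_img_of_mem f hx, h.map_conj (hR hg) (hP hx)⟩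
      rw [← Fus.img_sSup_sup h hR]
      exact mem_img_of_mem f hg
  · rintro (⟨_, ⟨Q, hQ, rfl⟩, hPQ, hy⟩ | ⟨g, hg, x, hx, rfl⟩)
    · obtain ⟨w, hw, rfl⟩ := (h.mem_img ((le_sSup_sup hQ).trans hR)).1 hy
      exact ⟨w, Or.inl ⟨Q, hQ, fun h' => hPQ (img_mono f h'), hw⟩, rfl⟩
    · rw [← Fus.img_sSup_sup h hR] at hg
      obtain ⟨g', hg', rfl⟩ := (h.mem_img hR).1 hg
      obtain ⟨x', hx', rfl⟩ := (h.mem_img hP).1 hx
      exact ⟨_, Or.inr ⟨g', hg', x', hx', rfl⟩, h.map_conj (hR hg') (hP hx')⟩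

lemma PHom.img_tg_eq {R : Subgroup G} {f : G → G} (h : PHom R f) (hR : sSup σ ⊔ P ≤ R)
    (hσ : ∀ Q ∈ σ, img f Q = Q) (hP : img f P = P) : img f (tg σ P) = tg σ P := by
  rw [h.img_tg hR, image_eq_of_fix hσ, hP]

lemma mem_normalizer_tg {g : G} (hσ : ∀ Q ∈ σ, g ∈ normalizer (Q : Set G))
    (hP : g ∈ normalizer (P : Set G)) : g ∈ normalizer (tg σ P : Set G) :=
  img_cj_eq_iff.1 ((phom_cj ⊤ g).img_tg_eq le_top (fun Q hQ => img_cj_eq_iff.2 (hσ Q hQ))
    (img_cj_eq_iff.2 hP))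

lemma mem_toggle_cases {Q : Subgroup G} (hQ : Q ∈ toggle σ P) : Q ∈ σ ∨ Q = tg σ P :=
  hQ.imp And.left And.right

lemma mem_cases_toggle {Q : Subgroup G} (hQ : Q ∈ σ) : Q ∈ toggle σ P ∨ Q = tg σ P := by
  by_cases h : Q = tg σ P
  · exact Or.inr h
  · exact Or.inl (Or.inl ⟨hQ, h⟩)

lemma toggle_le {Q : Subgroup G} (hQ : Q ∈ toggle σ P) : Q ≤ sSup σ ⊔ P := by
  rcases mem_toggle_cases hQ with h | rfl
  · exact le_sSup_sup h
  · exact tg_le_sup

lemma PHom.image_toggle {R : Subgroup G} {f : G → G} (h : PHom R f) (hR : sSup σ ⊔ P ≤ R) :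
    img f '' toggle σ P = toggle (img f '' σ) (img f P) := by
  have hT : tg σ P ≤ R := tg_le_sup.trans hR
  ext Q'
  rw [toggle, toggle, ← h.img_tg hR]
  constructor
  · rintro ⟨Q, (⟨hQ, hne⟩ | ⟨hQ, rfl⟩), rfl⟩
    · exact Or.inl ⟨Set.mem_image_of_mem _ hQ,
        fun h' => hne (h.img_inj ((le_sSup_sup hQ).trans hR) hT h')⟩
    · refine Or.inr ⟨?_, rfl⟩
      rintro ⟨Q, hQ', h'⟩
      exact hQ (h.img_inj ((le_sSup_sup hQ').trans hR) hT h' ▸ hQ')
  · rintro (⟨⟨Q, hQ, rfl⟩, hne⟩ | ⟨hQ, rfl⟩)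
    · exact ⟨Q, Or.inl ⟨hQ, fun h' => hne (h' ▸ rfl)⟩, rfl⟩
    · exact ⟨_, Or.inr ⟨fun h' => hQ (Set.mem_image_of_mem _ h'), rfl⟩, rfl⟩

variable [Finite G] {p : ℕ} [Fact p.Prime]

lemma sup_toggle (hp : IsPGroup p ↥(sSup σ ⊔ P)) : sSup (toggle σ P) ⊔ P = sSup σ ⊔ P := by
  refine eq_of_normal_closure hp (sup_le (sSup_le fun Q hQ => toggle_le hQ) le_sup_right) ?_
  intro M hM _ hn
  have hT : tg σ P ≤ M := tg_le_iff.2 ⟨fun Q hQ hPQ =>
      (le_sSup_sup (Or.inl ⟨hQ, fun h' => hPQ (h' ▸ le_tg)⟩ : Q ∈ toggle σ P)).trans hM,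
    fun g hg x hx => (mem_normalizer_iff.1 (hn hg) x).1 (hM (mem_sup_right hx))⟩
  refine sup_le (sSup_le fun Q hQ => ?_) (le_sup_right.trans hM)
  rcases mem_cases_toggle (P := P) hQ with h | rfl
  · exact (le_sSup_sup h).trans hM
  · exact hT

lemma tg_toggle (hp : IsPGroup p ↥(sSup σ ⊔ P)) : tg (toggle σ P) P = tg σ P := by
  rw [tg, sup_toggle hp]
  conv_rhs => rw [tg]
  congr 1
  ext y
  refine or_congr_left ⟨?_, ?_⟩
  · rintro ⟨Q, hQ, hPQ, hy⟩
    exact ⟨Q, (mem_toggle_cases hQ).resolve_right fun h' => hPQ (h' ▸ le_tg), hPQ, hy⟩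
  · rintro ⟨Q, hQ, hPQ, hy⟩
    exact ⟨Q, Or.inl ⟨hQ, fun h' => hPQ (h' ▸ le_tg)⟩, hPQ, hy⟩

lemma toggle_toggle (hp : IsPGroup p ↥(sSup σ ⊔ P)) : toggle (toggle σ P) P = σ := by
  ext Q
  rw [toggle, tg_toggle hp, toggle]
  simp only [Set.mem_ofPred_eq]
  tauto

lemma NC.toggle (h : NC σ P) (hP : P ≠ ⊥) (hp : IsPGroup p ↥(sSup σ ⊔ P)) :
    NC (toggle σ P) P := by
  have hcomp : ∀ Q ∈ σ, Q ≤ tg σ P ∨ tg σ P ≤ Q := fun Q hQ => by
    by_cases hPQ : P ≤ Q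
    · exact Or.inr (h.tg_le hQ hPQ)
    · exact Or.inl (le_tg_of_not_le hQ hPQ)
  refine ⟨fun A hA B hB _ => ?_, fun Q hQ => ?_, fun Q hQ => ?_⟩
  · rcases mem_toggle_cases hA with hA | rfl <;> rcases mem_toggle_cases hB with hB | rfl
    · exact h.chain.total hA hB
    · exact hcomp A hA
    · exact (hcomp B hB).symm
    · exact Or.inl le_rfl
  · rcases mem_toggle_cases hQ with hQ | rfl
    · exact h.ne_bot Q hQ
    · exact fun h' => hP (eq_bot_iff.2 (h' ▸ le_tg))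
  · rw [sup_toggle hp]
    rcases mem_toggle_cases hQ with hQ | rfl
    · exact h.norm Q hQ
    · intro g hg
      rw [mem_normalizer_iff]
      have key : ∀ g ∈ sSup σ ⊔ P, img (cj g) (tg σ P) ≤ tg σ P := by
        intro g hg
        rw [tg, (phom_cj ⊤ g).img_closure (Set.subset_univ _), closure_le]
        rintro _ ⟨y, (⟨Q, hQ, hPQ, hy⟩ | ⟨g', hg', x, hx, rfl⟩), rfl⟩
        · exact subset_closure (Or.inl ⟨Q, hQ, hPQ, (mem_normalizer_iff.1 (h.norm Q hQ hg) y).1 hy⟩)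
        · exact subset_closure (Or.inr ⟨g * g', mul_mem hg hg', x, hx, by simp [cj, mul_assoc]⟩)
      intro y
      refine ⟨fun hy => key g hg (mem_img_of_mem _ hy), fun hy => ?_⟩
      have := key g⁻¹ (inv_mem hg) (mem_img_of_mem _ hy)
      simpa [cj, mul_assoc] using this

lemma neg_one_pow_toggle : (-1 : ℤ) ^ (toggle σ P).ncard = -(-1) ^ σ.ncard := by
  by_cases h : tg σ P ∈ σ
  · have h1 : σ = insert (tg σ P) (toggle σ P) := by
      ext Q
      constructor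
      · exact fun hQ => (mem_cases_toggle hQ).symm
      · rintro (rfl | hQ)
        · exact h
        · rcases mem_toggle_cases hQ with hQ | rfl
          · exact hQ
          · exact h
    have h2 : tg σ P ∉ toggle σ P := by
      rintro (⟨-, h'⟩ | ⟨h', -⟩)
      · exact h' rfl
      · exact h' h
    conv_rhs => rw [h1, Set.ncard_insert_of_notMem h2, pow_succ]
    ring
  · have h1 : toggle σ P = insert (tg σ P) σ := by
      ext Q
      constructor
      · exact fun hQ => (mem_toggle_cases hQ).symm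
      · rintro (rfl | hQ)
        · exact Or.inr ⟨h, rfl⟩
        · exact Or.inl ⟨hQ, fun h' => h (h' ▸ hQ)⟩
    rw [h1, Set.ncard_insert_of_notMem h, pow_succ]
    ring

end Pool.Agent.MP_3359e9_al

end MrgPart1

-- ======== part 2: formerly Pool.Agent.MP_3359e9_al.Tw
section MrgPart2

set_option autoImplicit false

namespace Pool.Agent.MP_3359e9_al

section Z

/-- Simple projective modules. -/
abbrev SP (A : Type) [Ring A] : Type 1 :=
  {M : ModuleCat.{0} A // IsSimpleModule A M ∧ Module.Projective A M}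

/-- Isomorphism classes of simple projective modules. -/
abbrev SPC (A : Type) [Ring A] : Type 1 :=
  Quot fun M N : SP A => Nonempty (M.1 ≃ₗ[A] N.1)

lemma spEquiv (A : Type) [Ring A] : Equivalence fun M N : SP A => Nonempty (M.1 ≃ₗ[A] N.1) :=
  ⟨fun _ => ⟨LinearEquiv.refl _ _⟩, fun ⟨e⟩ => ⟨e.symm⟩, fun ⟨e⟩ ⟨e'⟩ => ⟨e.trans e'⟩⟩

variable {A B : Type} [Ring A] [Ring B]

/-- Restriction of scalars along a ring isomorphism. -/
noncomputable def resSP (e : A ≃+* B) (M : SP B) : SP A :=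
  ⟨(ModuleCat.restrictScalars (e : A →+* B)).obj M.1, by
    have i1 := RingHomInvPair.of_ringEquiv e
    have i2 := RingHomInvPair.of_ringEquiv_symm e
    let l : ((ModuleCat.restrictScalars (e : A →+* B)).obj M.1) ≃ₛₗ[(e : A →+* B)] M.1 :=
      { toFun := fun x => x
        invFun := fun x => x
        map_add' := fun _ _ => rfl
        map_smul' := fun _ _ => rfl
        left_inv := fun _ => rfl
        right_inv := fun _ => rfl }
    have h1 := M.2.1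
    have h2 := M.2.2
    exact ⟨(l.toLinearMap.isSimpleModule_iff_of_bijective l.bijective).2 h1,
      Module.Projective.of_equiv l.symm⟩⟩

lemma resSP_iff (e : A ≃+* B) (M N : SP B) :
    Nonempty ((resSP e M).1 ≃ₗ[A] (resSP e N).1) ↔ Nonempty (M.1 ≃ₗ[B] N.1) := by
  constructor
  · rintro ⟨l⟩
    refine ⟨{ toFun := fun x => l x
              invFun := fun x => l.symm x
              map_add' := fun x y => l.map_add x y
              map_smul' := fun b x => ?_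
              left_inv := fun x => l.left_inv x
              right_inv := fun x => l.right_inv x }⟩
    obtain ⟨a, rfl⟩ := e.surjective b
    exact l.map_smul a x
  · rintro ⟨l⟩
    exact ⟨{ toFun := fun x => l x
             invFun := fun x => l.symm x
             map_add' := fun x y => l.map_add x y
             map_smul' := fun a x => l.map_smul (e a) x
             left_inv := fun x => l.left_inv x
             right_inv := fun x => l.right_inv x }⟩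

lemma exists_inj (e : A ≃+* B) : ∃ f : SPC B → SPC A, Function.Injective f := by
  refine ⟨Quot.map (resSP e) fun M N h => (resSP_iff e M N).2 h, ?_⟩
  intro c d h
  induction c using Quot.ind
  induction d using Quot.ind
  have h' := (spEquiv A).eqvGen_iff.1 (Quot.eq.1 h)
  exact Quot.sound ((resSP_iff e _ _).1 h')

lemma z_congr (e : A ≃+* B) : z A = z B := by
  obtain ⟨f, hf⟩ := exists_inj e
  obtain ⟨g, hg⟩ := exists_inj e.symm
  obtain ⟨h, hh⟩ := Function.Embedding.schroeder_bernstein hg hf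
  exact Nat.card_congr (Equiv.ofBijective h hh)

end Z

section Tw

variable {k : Type} [Field k] {H H' : Type} [Group H] [Group H']

/-- The generators of the twisted group algebra. -/
noncomputable def gen (β : H → H → kˣ) (h : H) : TwAlg k H β :=
  RingQuot.mkAlgHom k _ (FreeAlgebra.ι k h)

lemma gen_mul (β : H → H → kˣ) (g h : H) :
    gen β g * gen β h = (β g h : k) • gen β (g * h) := by
  unfold gen
  rw [← map_mul, ← map_smul]
  exact RingQuot.mkAlgHom_rel k (Or.inl ⟨g, h, rfl, rfl⟩)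

lemma gen_one (β : H → H → kˣ) : gen β 1 = algebraMap k _ (β 1 1 : k) := by
  unfold gen
  rw [← AlgHom.commutes (RingQuot.mkAlgHom k _)]
  exact RingQuot.mkAlgHom_rel k (Or.inr ⟨rfl, rfl⟩)

lemma exists_twHom (β : H → H → kˣ) (β' : H' → H' → kˣ) (θ : H →* H') (b : H → kˣ)
    (hb : ∀ g h, β g h * b (g * h) = β' (θ g) (θ h) * b g * b h) :
    ∃ Φ : TwAlg k H β →ₐ[k] TwAlg k H' β', ∀ h, Φ (gen β h) = (b h : k) • gen β' (θ h) := by
  refine ⟨RingQuot.liftAlgHom k ⟨FreeAlgebra.lift k fun h => (b h : k) • gen β' (θ h), ?_⟩, ?_⟩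
  · rintro x y (⟨g, h, rfl, rfl⟩ | ⟨rfl, rfl⟩)
    · simp only [map_mul, map_smul, FreeAlgebra.lift_ι_apply, smul_mul_smul_comm, gen_mul,
        smul_smul]
      congr 1
      have := congrArg Units.val (hb g h)
      simp only [Units.val_mul] at this
      rw [this]
      ring
    · simp only [FreeAlgebra.lift_ι_apply, AlgHom.commutes, map_one, gen_one]
      have h1 := hb 1 1
      simp only [mul_one, map_one, mul_left_inj] at h1
      rw [h1, Algebra.smul_def, ← map_mul, Units.val_mul, mul_comm]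
  · intro h
    unfold gen
    rw [RingQuot.liftAlgHom_mkAlgHom_apply, FreeAlgebra.lift_ι_apply]

lemma twHom_ext {β : H → H → kˣ} {C : Type} [Ring C] [Algebra k C]
    (Φ Ψ : TwAlg k H β →ₐ[k] C) (h : ∀ g, Φ (gen β g) = Ψ (gen β g)) : Φ = Ψ := by
  apply RingQuot.ringQuot_ext'
  apply FreeAlgebra.hom_ext
  funext g
  exact h g

lemma z_tw_congr (β : H → H → kˣ) (β' : H' → H' → kˣ) (θ : H ≃* H') (b : H → kˣ)
    (hb : ∀ g h, β g h * b (g * h) = β' (θ g) (θ h) * b g * b h) :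
    z (TwAlg k H β) = z (TwAlg k H' β') := by
  obtain ⟨Φ, hΦ⟩ := exists_twHom β β' θ.toMonoidHom b hb
  obtain ⟨Ψ, hΨ⟩ := exists_twHom β' β θ.symm.toMonoidHom (fun h => (b (θ.symm h))⁻¹) (by
    intro g h
    have h1 := hb (θ.symm g) (θ.symm h)
    simp only [MulEquiv.apply_symm_apply] at h1
    simp only [MulEquiv.coe_toMonoidHom, map_mul]
    rw [mul_inv_eq_iff_eq_mul]
    calc β' g h = β' g h * b (θ.symm g) * b (θ.symm h) * (b (θ.symm g))⁻¹ * (b (θ.symm h))⁻¹ := by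
          simp [mul_assoc, mul_comm, mul_left_comm]
      _ = _ := by
          rw [← h1]
          simp [mul_assoc, mul_comm, mul_left_comm])
  refine z_congr (AlgEquiv.ofAlgHom Φ Ψ ?_ ?_).toRingEquiv
  · apply twHom_ext
    intro g
    simp [hΦ, hΨ, smul_smul]
  · apply twHom_ext
    intro g
    simp [hΦ, hΨ, smul_smul]

lemma units_pow_eq_one (p : ℕ) [Fact p.Prime] [CharP k p] (u : kˣ) (m : ℕ)
    (h : u ^ p ^ m = 1) : u = 1 := by
  have h1 : (u : k) ^ p ^ m = 1 := by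
    rw [← Units.val_pow_eq_pow_val, h, Units.val_one]
  have h2 : ((u : k) - 1) ^ p ^ m = 0 := by
    rw [sub_pow_char_pow, h1, one_pow, sub_self]
  exact Units.ext (sub_eq_zero.1 (pow_eq_zero_iff (pow_ne_zero m (Fact.out : p.Prime).ne_zero) |>.1 h2))

/-- Descent of a coboundary through a common extension with `p`-torsion kernel. -/
lemma z_tw_of_surj (p : ℕ) [Fact p.Prime] [CharP k p] {Γ : Type} [Group Γ]
    (π : Γ →* H) (π' : Γ →* H') (hπ : Function.Surjective π) (hπ' : Function.Surjective π')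
    (hker : ∀ γ, π γ = 1 ↔ π' γ = 1) (β : H → H → kˣ) (β' : H' → H' → kˣ) (b : Γ → kˣ)
    (hb : ∀ c d, β (π c) (π d) * b (c * d) = β' (π' c) (π' d) * b c * b d)
    (hp : ∀ n, π n = 1 → ∃ m : ℕ, b (n ^ p ^ m) = b 1) :
    z (TwAlg k H β) = z (TwAlg k H' β') := by
  have hker' : π.ker = π'.ker := by
    ext γ
    exact hker γ
  let θ : H ≃* H' := ((QuotientGroup.quotientKerEquivOfSurjective π hπ).symm.trans
    (QuotientGroup.quotientMulEquivOfEq hker')).trans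
    (QuotientGroup.quotientKerEquivOfSurjective π' hπ')
  have hθ : ∀ γ, θ (π γ) = π' γ := by
    intro γ
    have h1 : (QuotientGroup.quotientKerEquivOfSurjective π hπ).symm (π γ) = (γ : Γ ⧸ π.ker) := by
      rw [MulEquiv.symm_apply_eq]
      rfl
    simp only [θ, MulEquiv.trans_apply, h1]
    rfl
  have h11 : β 1 1 = β' 1 1 * b 1 := by
    have := hb 1 1
    simpa only [map_one, mul_one, mul_left_inj] using this
  have hN : ∀ n n', π n = 1 → π n' = 1 → b 1 * b (n * n') = b n * b n' := by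
    intro n n' hn hn'
    have := hb n n'
    rw [hn, hn', (hker n).1 hn, (hker n').1 hn', h11, mul_assoc, mul_assoc, mul_right_inj] at this
    exact this
  have hpow : ∀ n, π n = 1 → ∀ j : ℕ, b (n ^ j) * (b 1)⁻¹ = (b n * (b 1)⁻¹) ^ j := by
    intro n hn j
    induction j with
    | zero => simp
    | succ j ih =>
      have h1 := hN (n ^ j) n (by rw [map_pow, hn, one_pow]) hn
      rw [pow_succ, pow_succ, ← ih]
      have h2 : b (n ^ j * n) = (b 1)⁻¹ * (b (n ^ j) * b n) := by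
        rw [← h1, inv_mul_cancel_left]
      rw [h2]
      simp [mul_assoc, mul_comm, mul_left_comm]
  have hN1 : ∀ n, π n = 1 → b n = b 1 := by
    intro n hn
    obtain ⟨m, hm⟩ := hp n hn
    have h1 := hpow n hn (p ^ m)
    rw [hm, mul_inv_cancel] at h1
    exact mul_inv_eq_one.1 (units_pow_eq_one p _ m h1.symm)
  have hc : ∀ c n, π n = 1 → b (c * n) = b c := by
    intro c n hn
    have h1 := hb c n
    have h2 := hb c 1
    rw [hn, (hker n).1 hn, hN1 n hn] at h1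
    rw [map_one, map_one, mul_one, ← h1, mul_right_inj] at h2
    exact h2.symm
  have hbπ : ∀ c d, π c = π d → b c = b d := by
    intro c d h
    have := hc c (c⁻¹ * d) (by rw [map_mul, map_inv, h, inv_mul_cancel])
    rw [mul_inv_cancel_left] at this
    exact this.symm
  refine z_tw_congr β β' θ (fun h => b (Function.surjInv hπ h)) fun g h => ?_
  obtain ⟨c, rfl⟩ := hπ g
  obtain ⟨d, rfl⟩ := hπ h
  rw [hθ, hθ, hbπ _ c (Function.surjInv_eq hπ _), hbπ _ d (Function.surjInv_eq hπ _),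
    hbπ _ (c * d) (by rw [Function.surjInv_eq hπ, map_mul])]
  exact hb c d

end Tw

end Pool.Agent.MP_3359e9_al

end MrgPart2

-- ======== part 3: formerly Pool.Agent.MP_3359e9_al.Triples
section MrgPart3

set_option autoImplicit false

namespace Pool.Agent.MP_3359e9_al

open Subgroup

variable {G : Type} [Group G]

namespace Fus

/-- The triples over which both sides of the identity are expanded. -/
structure Valid (F : Fus G) (σ : Set (Subgroup G)) (x : G) (P : Subgroup G) : Prop where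
  nc : NC σ P
  le : sSup σ ⊔ P ≤ F.S
  mem : x ∈ P
  comm : ∀ y ∈ P, y * x = x * y
  cpair : F.CPair σ P

/-- `F`-isomorphism of triples. -/
def Rel (F : Fus G) (σ : Set (Subgroup G)) (x : G) (P : Subgroup G)
    (σ' : Set (Subgroup G)) (x' : G) (P' : Subgroup G) : Prop :=
  ∃ f, F.Mor (sSup σ ⊔ P) f ∧ img f '' σ = σ' ∧ f x = x' ∧ img f P = P'

variable {F : Fus G} {σ : Set (Subgroup G)} {x : G} {P : Subgroup G}

lemma Valid.le_normSys (h : F.Valid σ x P) : sSup σ ⊔ P ≤ (F.normSys σ).S :=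
  fun _ hg => mem_normSys_S.2 ⟨h.le hg, fun Q hQ => h.nc.norm Q hQ hg⟩

lemma Valid.le_NN (h : F.Valid σ x P) : P ≤ F.NN σ x := fun g hg =>
  mem_NN.2 ⟨h.le (mem_sup_right hg), fun Q hQ => h.nc.norm Q hQ (mem_sup_right hg), h.comm g hg⟩

lemma DD_le (hx : x ∈ P) : DD σ x ≤ sSup σ ⊔ P := sup_le_sup_left (zpowers_le.2 hx) _

lemma _root_.Pool.Agent.MP_3359e9_al.NC.map {R : Subgroup G} {f : G → G} (h : NC σ P)
    (hf : PHom R f) (hR : sSup σ ⊔ P ≤ R) : NC (img f '' σ) (img f P) := by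
  refine ⟨?_, ?_, ?_⟩
  · rintro _ ⟨A, hA, rfl⟩ _ ⟨B, hB, rfl⟩ _
    exact (h.chain.total hA hB).imp (img_mono f) (img_mono f)
  · rintro _ ⟨Q, hQ, rfl⟩
    exact hf.img_ne_bot ((le_sSup_sup hQ).trans hR) (h.ne_bot Q hQ)
  · rintro _ ⟨Q, hQ, rfl⟩
    rw [← img_sSup_sup hf hR, img_le_iff]
    exact fun g hg => hf.mem_normalizer_img ((le_sSup_sup hQ).trans hR) (hR hg) (h.norm Q hQ hg)

lemma Valid.map (hF : F.IsFusionSystem) (h : F.Valid σ x P) {f : G → G}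
    (hf : F.Mor (sSup σ ⊔ P) f) : F.Valid (img f '' σ) (f x) (img f P) := by
  have hph := hf.phom hF
  refine ⟨h.nc.map hph le_rfl, ?_, mem_img_of_mem f h.mem, fun y hy => ?_, fun g hg u hu hc => ?_⟩
  · rw [← img_sSup_sup hph le_rfl]
    exact hf.img_le hF le_rfl
  · obtain ⟨w, hw, rfl⟩ := (hph.mem_img le_sup_right).1 hy
    rw [← hph.map_mul _ (mem_sup_right hw) _ (mem_sup_right h.mem), h.comm w hw,
      hph.map_mul _ (mem_sup_right h.mem) _ (mem_sup_right hw)]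
  · rw [← img_sSup_sup hph le_rfl] at hg
    rw [← hph.img_comp le_sup_right]
    refine h.cpair (g ∘ f) (hf.comp hF hg fun y hy => mem_img_of_mem f hy) u ?_
      fun y hy => hc _ (mem_img_of_mem f hy)
    rwa [hph.image_img_comp fun Q hQ => le_sSup_sup hQ]

lemma Rel.valid (hF : F.IsFusionSystem) {σ' : Set (Subgroup G)} {x' : G} {P' : Subgroup G}
    (hr : F.Rel σ x P σ' x' P') (h : F.Valid σ x P) : F.Valid σ' x' P' := by
  obtain ⟨f, hf, rfl, rfl, rfl⟩ := hr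
  exact h.map hF hf

lemma Rel.refl (hF : F.IsFusionSystem) (h : sSup σ ⊔ P ≤ F.S) : F.Rel σ x P σ x P :=
  ⟨id, mor_id hF h, image_img_id σ, rfl, img_id P⟩

lemma Rel.symm (hF : F.IsFusionSystem) {σ' : Set (Subgroup G)} {x' : G} {P' : Subgroup G}
    (hx : x ∈ P) (hr : F.Rel σ x P σ' x' P') : F.Rel σ' x' P' σ x P := by
  obtain ⟨f, hf, rfl, rfl, rfl⟩ := hr
  have hph := hf.phom hF
  obtain ⟨g, hg, hgf⟩ := hf.inv hF
  rw [img_sSup_sup hph le_rfl] at hg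
  refine ⟨g, hg, ?_, hgf x (mem_sup_right hx), ?_⟩
  · rw [← hph.image_img_comp fun Q hQ => le_sSup_sup hQ]
    exact image_eq_of_fix fun Q hQ => img_eq_self fun y hy => hgf y (le_sSup_sup hQ hy)
  · rw [← hph.img_comp le_sup_right]
    exact img_eq_self fun y hy => hgf y (mem_sup_right hy)

lemma Rel.trans (hF : F.IsFusionSystem) {σ' σ'' : Set (Subgroup G)} {x' x'' : G}
    {P' P'' : Subgroup G} (hr : F.Rel σ x P σ' x' P') (hr' : F.Rel σ' x' P' σ'' x'' P'') :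
    F.Rel σ x P σ'' x'' P'' := by
  obtain ⟨f, hf, rfl, rfl, rfl⟩ := hr
  obtain ⟨g, hg, rfl, rfl, rfl⟩ := hr'
  have hph := hf.phom hF
  rw [← img_sSup_sup hph le_rfl] at hg
  exact ⟨g ∘ f, hf.comp hF hg fun y hy => mem_img_of_mem f hy,
    hph.image_img_comp (fun Q hQ => le_sSup_sup hQ) g, rfl, hph.img_comp le_sup_right g⟩

lemma centric_iff {Q : Subgroup G} : F.Centric Q ↔
    Q ≤ F.S ∧ ∀ f, F.Mor Q f → F.S ⊓ centralizer (img f Q : Set G) ≤ img f Q :=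
  and_congr_right fun _ =>
    forall_hom_range (q := fun T => F.S ⊓ centralizer (T : Set G) ≤ T)

lemma Valid.centric (h : F.Valid σ x P) : F.Centric (sSup σ ⊔ P) := by
  refine centric_iff.2 ⟨h.le, fun f hf u hu => ?_⟩
  refine img_mono f le_sup_right (h.cpair f hf u (mem_normSys_S.2 ⟨hu.1, ?_⟩) fun y hy => ?_)
  · rintro _ ⟨Q, hQ, rfl⟩
    exact centralizer_le_normalizer _ (centralizer_le (img_mono f (le_sSup_sup hQ)) hu.2)
  · exact (mem_centralizer_iff.1 hu.2 _ (mem_img_of_mem f (mem_sup_right hy))).symm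

lemma Valid.ne_bot (hF : F.IsFusionSystem) (hne : F.S ≠ ⊥) (h : F.Valid σ x P) : P ≠ ⊥ := by
  rintro rfl
  have h1 : (F.normSys σ).S ≤ ⊥ := fun u hu => by
    have := h.cpair id (mor_id hF h.le) u (by rwa [image_img_id]) fun y hy => by
      rw [mem_bot.1 hy]
      simp
    rwa [img_id] at this
  rcases σ.eq_empty_or_nonempty with rfl | ⟨Q, hQ⟩
  · refine hne (eq_bot_iff.2 fun u hu => h1 (mem_normSys_S.2 ⟨hu, fun Q hQ => hQ.elim⟩))
  · exact h.nc.ne_bot Q hQ (eq_bot_iff.2 ((le_sSup_sup hQ).trans (h.le_normSys.trans h1)))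

lemma loc_mor (hF : F.IsFusionSystem) (hx : x ∈ P) {f : G → G} :
    ((F.normSys σ).centSys x).Mor P f ↔ P ≤ F.NN σ x ∧ ∃ g, F.Mor (sSup σ ⊔ P) g ∧
      (∀ y ∈ P, g y = f y) ∧ (∀ Q ∈ σ, img g Q = Q) ∧ g x = x := by
  have hxP : zpowers x ⊔ P = P := sup_eq_right.2 (zpowers_le.2 hx)
  rw [centSys_mor, hxP]
  constructor
  · rintro ⟨h1, -, g, hg, hgf, hgx⟩
    obtain ⟨-, -, g', hg', hgg, hσ⟩ := normSys_mor.1 hg
    exact ⟨h1, g', hg', fun y hy => (hgg y hy).trans (hgf y hy), hσ, (hgg x hx).trans hgx⟩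
  · rintro ⟨h1, g, hg, hgf, hσ, hgx⟩
    have h2 : img g P ≤ F.NN σ x := img_le_iff.2 fun y hy => by
      have := hg.apply_mem_NN hF (DD_le hx) (mem_sup_right hy) (h1 hy)
      rwa [image_eq_of_fix hσ, hgx] at this
    exact ⟨h1, img_congr hgf ▸ h2, g, normSys_mor.2 ⟨h1.trans inf_le_left, h2.trans inf_le_left,
      g, hg, fun _ _ => rfl, hσ⟩, hgf, hgx⟩

/-- `c` is an `F`-automorphism of `R` stabilising `σ` and extending `a`. -/
def Ext (F : Fus G) (σ : Set (Subgroup G)) (P R : Subgroup G) (a : MulAut P) (c : MulAut R) :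
    Prop :=
  c ∈ F.Aut R ∧ (∀ (x : P) (y : R), (x : G) = y → (a x : G) = c y) ∧
    ∀ Q ∈ σ, ∀ u : R, (c u : G) ∈ Q ↔ (u : G) ∈ Q

lemma map_eq_iff {Q R : Subgroup G} (hQ : Q ≤ R) (c : MulAut R) :
    (Q.subgroupOf R).map (R.subtype.comp c.toMonoidHom) = Q ↔
      ∀ u : R, (c u : G) ∈ Q ↔ (u : G) ∈ Q := by
  constructor
  · intro h u
    constructor
    · intro hu
      rw [← h] at hu
      obtain ⟨v, hv, hvu⟩ := hu
      have : v = u := c.injective (Subtype.ext hvu)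
      exact this ▸ hv
    · intro hu
      rw [← h]
      exact ⟨u, hu, rfl⟩
  · intro h
    apply le_antisymm
    · rintro _ ⟨u, hu, rfl⟩
      exact (h u).2 hu
    · intro y hy
      refine ⟨c⁻¹ ⟨y, hQ hy⟩, (h _).1 ?_, ?_⟩
      · rwa [MulAut.apply_inv_self]
      · simp

lemma img_eq_iff {Q R : Subgroup G} (hQ : Q ≤ R) (c : MulAut R) {g : G → G}
    (hc : ∀ y : R, (c y : G) = g y) :
    img g Q = Q ↔ ∀ u : R, (c u : G) ∈ Q ↔ (u : G) ∈ Q := by
  rw [← map_eq_iff hQ, map_subgroupOf_eq_img (R.subtype.comp c.toMonoidHom) hc hQ]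

lemma Ext.one {R : Subgroup G} : F.Ext σ P R 1 1 :=
  ⟨one_mem _, fun _ _ h => h, fun _ _ _ => Iff.rfl⟩

lemma Ext.mul {R : Subgroup G} {a a' : MulAut P} {c c' : MulAut R} (h : F.Ext σ P R a c)
    (h' : F.Ext σ P R a' c') : F.Ext σ P R (a * a') (c * c') :=
  ⟨mul_mem h.1 h'.1, fun x y hxy => h.2.1 _ _ (h'.2.1 x y hxy),
    fun Q hQ u => (h.2.2 Q hQ (c' u)).trans (h'.2.2 Q hQ u)⟩

lemma Ext.inv {R : Subgroup G} (hPR : P ≤ R) {a : MulAut P} {c : MulAut R}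
    (h : F.Ext σ P R a c) : F.Ext σ P R a⁻¹ c⁻¹ := by
  refine ⟨inv_mem h.1, fun x y hxy => ?_, fun Q hQ u => ?_⟩
  · have h1 := h.2.1 (a⁻¹ x) ⟨_, hPR (a⁻¹ x).2⟩ rfl
    rw [MulAut.apply_inv_self, hxy] at h1
    rw [Subtype.ext h1, MulAut.inv_apply_self]
  · rw [← h.2.2 Q hQ (c⁻¹ u), MulAut.apply_inv_self]

lemma Ext.conj (hF : F.IsFusionSystem) {R : Subgroup G} (hPR : P ≤ R)
    (hRN : R ≤ (F.normSys σ).S) (u : P) :
    F.Ext σ P R (MulAut.conj u) (MulAut.conj ⟨u, hPR u.2⟩) := by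
  have hRS : R ≤ F.S := hRN.trans inf_le_left
  refine ⟨(mem_Aut_iff hF hRS).2 ⟨cj u, mor_cj hF hRS (hRS (hPR u.2)), fun _ => rfl⟩,
    fun x y hxy => by simp [hxy], fun Q hQ v => ?_⟩
  exact (mem_normalizer_iff.1 ((mem_normSys_S.1 (hRN (hPR u.2))).2 Q hQ) v).symm

lemma Valid.mem_locAut_iff (hF : F.IsFusionSystem) (h : F.Valid σ x P) {R : Subgroup G}
    (hR : R = sSup σ ⊔ P) {a : MulAut P} :
    a ∈ ((F.normSys σ).centSys x).Aut P ↔
      (∃ c, F.Ext σ P R a c) ∧ (a ⟨x, h.mem⟩ : G) = x := by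
  subst hR
  have hE := centSys_isFusionSystem (normSys_isFusionSystem hF (le_sup_left.trans h.le))
    (h.le_normSys (mem_sup_right h.mem))
  rw [mem_Aut_iff hE h.le_NN]
  constructor
  · rintro ⟨f, hf, haf⟩
    obtain ⟨-, g, hg, hgf, hσ, hgx⟩ := (loc_mor hF h.mem).1 hf
    have hP : img g P = P := by
      rw [img_congr hgf, img_eq_iff le_rfl a haf]
      exact fun u => ⟨fun _ => u.2, fun _ => (a u).2⟩
    obtain ⟨c, hc, hcg⟩ := hg.exists_aut hF (by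
      rw [img_sSup_sup (hg.phom hF) le_rfl, image_eq_of_fix hσ, hP])
    refine ⟨⟨c, hc, fun y y' hy => ?_, fun Q hQ => (img_eq_iff (le_sSup_sup hQ) c hcg).1 (hσ Q hQ)⟩,
      ?_⟩
    · rw [haf, hcg, ← hy, hgf y y.2]
    · rw [haf, ← hgf x h.mem, hgx]
  · rintro ⟨⟨c, hc, hac, hσ⟩, hax⟩
    obtain ⟨g, hg, hcg⟩ := (mem_Aut_iff hF h.le).1 hc
    have hag : ∀ y : P, (a y : G) = g y := fun y => by
      rw [hac y ⟨y, mem_sup_right y.2⟩ rfl, hcg]
    exact ⟨g, (loc_mor hF h.mem).2 ⟨h.le_NN, g, hg, fun _ _ => rfl,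
      fun Q hQ => (img_eq_iff (le_sSup_sup hQ) c hcg).2 (hσ Q hQ),
      (hag ⟨x, h.mem⟩).symm.trans hax⟩, hag⟩

lemma extOut_eq {R : Subgroup G} (hσ : ∀ Q ∈ σ, Q ≤ R) (a : Out P) :
    F.extOut σ P R a = Classical.epsilon fun c : Out R =>
      ∃ (ψ : MulAut R) (φ : MulAut P), c = ψ ∧ a = φ ∧ F.Ext σ P R φ ψ := by
  unfold extOut
  congr 1
  funext c
  apply propext
  constructor
  · rintro ⟨ψ, h1, φ, h2, h3, h4, h5⟩
    exact ⟨ψ, φ, h2, h3, h1, h4, fun Q hQ => (map_eq_iff (hσ Q hQ) ψ).1 (h5 Q hQ)⟩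
  · rintro ⟨ψ, φ, h2, h3, h1, h4, h5⟩
    exact ⟨ψ, h1, φ, h2, h3, h4, fun Q hQ => (map_eq_iff (hσ Q hQ) ψ).2 (h5 Q hQ)⟩

variable [Finite G] {p : ℕ} [Fact p.Prime]

lemma Valid.extOut_spec (hS : IsPGroup p F.S) (hF : F.IsSaturated p) (h : F.Valid σ x P)
    {R : Subgroup G} (hR : R = sSup σ ⊔ P) {a : MulAut P} {c : MulAut R}
    (hac : F.Ext σ P R a c) : F.extOut σ P R a = c := by
  have hPR : P ≤ R := hR ▸ le_sup_right
  have hRN : R ≤ (F.normSys σ).S := hR ▸ h.le_normSys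
  rw [extOut_eq fun Q hQ => hR ▸ le_sSup_sup hQ]
  obtain ⟨ψ, φ, h1, h2, h3⟩ := Classical.epsilon_spec
    (p := fun c' : Out R => ∃ (ψ : MulAut R) (φ : MulAut P), c' = ψ ∧ (a : Out P) = φ ∧
      F.Ext σ P R φ ψ) ⟨c, c, a, rfl, rfl, hac⟩
  rw [h1]
  obtain ⟨u, hu⟩ := mem_inn_iff.1 (QuotientGroup.eq.1 h2)
  have h4 := (h3.inv hPR).mul (hac.mul (Ext.conj hF.1 hPR hRN u))
  rw [hu, mul_inv_cancel_left, inv_mul_cancel] at h4
  have h5 := inner_of_fix hS hF hR hRN h.cpair h4.1 h4.2.2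
    fun v hv => Subtype.ext (h4.2.1 ⟨v, hv⟩ v rfl).symm
  rw [QuotientGroup.eq]
  have h6 := mul_mem h5 (inv_mem (⟨⟨u, hPR u.2⟩, rfl⟩ :
    MulAut.conj ⟨u, hPR u.2⟩ ∈ (MulAut.conj : R →* MulAut R).range))
  rw [mul_assoc, mul_inv_cancel_right] at h6
  exact mem_inn_iff.2 h6

end Fus

end Pool.Agent.MP_3359e9_al

end MrgPart3

-- ======== part 4: formerly Pool.Agent.MP_3359e9_al.Good
section MrgPart4

set_option autoImplicit false

namespace Pool.Agent.MP_3359e9_al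

open Subgroup

variable {G : Type} [Group G]

lemma DD_one (σ : Set (Subgroup G)) : DD σ 1 = sSup σ := by simp [DD]

lemma centralizer_zpowers (y : G) : centralizer (zpowers y : Set G) = centralizer {y} := by
  rw [zpowers_eq_closure, centralizer_closure]

namespace Fus

variable {F : Fus G}

lemma fullyCentralized_iff {Q : Subgroup G} : F.FullyCentralized Q ↔ ∀ f, F.Mor Q f →
    Nat.card ↥(F.S ⊓ centralizer (img f Q : Set G)) ≤ Nat.card ↥(F.S ⊓ centralizer (Q : Set G)) :=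
  forall_hom_range (q := fun T : Subgroup G => Nat.card ↥(F.S ⊓ centralizer (T : Set G))
    ≤ Nat.card ↥(F.S ⊓ centralizer (Q : Set G)))

lemma fullyNormalized_iff {Q : Subgroup G} : F.FullyNormalized Q ↔ ∀ f, F.Mor Q f →
    Nat.card ↥(F.S ⊓ normalizer (img f Q : Set G)) ≤ Nat.card ↥(F.S ⊓ normalizer (Q : Set G)) :=
  forall_hom_range (q := fun T : Subgroup G => Nat.card ↥(F.S ⊓ normalizer (T : Set G))
    ≤ Nat.card ↥(F.S ⊓ normalizer (Q : Set G)))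

lemma fullyNormalizedChain_cons {Q : Subgroup G} {τ : List (Subgroup G)} :
    F.FullyNormalizedChain (Q :: τ) ↔
      F.FullyNormalized Q ∧ (F.normSys {Q}).FullyNormalizedChain τ :=
  ⟨fun h => by cases h with | cons _ _ _ h1 h2 => exact ⟨h1, h2⟩, fun h => .cons _ _ _ h.1 h.2⟩

lemma NN_eq (σ : Set (Subgroup G)) (y : G) :
    F.NN σ y = (F.normSys σ).S ⊓ centralizer (zpowers y : Set G) := by
  rw [centralizer_zpowers]
  rfl

lemma normSys_insert_S (ρ : Set (Subgroup G)) (Q : Subgroup G) :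
    (F.normSys (insert Q ρ)).S = (F.normSys ρ).S ⊓ normalizer (Q : Set G) := by
  ext g
  simp only [mem_normSys_S, Set.forall_mem_insert, mem_inf]
  tauto

lemma normSys_S_anti {ρ σ : Set (Subgroup G)} (h : ρ ⊆ σ) : (F.normSys σ).S ≤ (F.normSys ρ).S :=
  fun _ hg => mem_normSys_S.2 ⟨(mem_normSys_S.1 hg).1, fun Q hQ => (mem_normSys_S.1 hg).2 Q (h hQ)⟩

lemma Mor.apply_mem_normSys (hF : F.IsFusionSystem) {R : Subgroup G} {g : G → G} (h : F.Mor R g)
    {σ : Set (Subgroup G)} {n : G} (hD : sSup σ ≤ R) (hn : n ∈ R) (hN : n ∈ (F.normSys σ).S) :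
    g n ∈ (F.normSys (img g '' σ)).S := by
  have := h.apply_mem_NN hF (σ := σ) (x := 1) (by rwa [DD_one]) hn (by rwa [NN_one])
  rwa [(h.phom hF).map_one, NN_one] at this

lemma normSys_normSys (hF : F.IsFusionSystem) {ρ : Set (Subgroup G)} {Q : Subgroup G}
    (hQ : Q ≤ (F.normSys ρ).S) : (F.normSys ρ).normSys {Q} = F.normSys (insert Q ρ) := by
  have hS : ((F.normSys ρ).normSys {Q}).S = (F.normSys (insert Q ρ)).S := by
    rw [normSys_insert_S]
    ext g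
    simp [mem_normSys_S (F := F.normSys ρ)]
  refine fus_ext hS fun P f => ?_
  have hR : sSup (insert Q ρ) ⊔ P = sSup ρ ⊔ (Q ⊔ P) := by
    rw [sSup_insert, sup_comm Q, sup_assoc]
  rw [normSys_mor, normSys_mor, hS, sSup_singleton, hR]
  refine and_congr_right fun h1 => and_congr_right fun h2 => ⟨?_, ?_⟩
  · rintro ⟨g, hg, hgf, hgQ⟩
    obtain ⟨-, -, g', hg', hgg, hρ⟩ := normSys_mor.1 hg
    refine ⟨g', hg', fun y hy => (hgg y (mem_sup_right hy)).trans (hgf y hy), ?_⟩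
    rintro T (rfl | hT)
    · rw [img_congr fun y hy => hgg y (mem_sup_left hy), hgQ T rfl]
    · exact hρ T hT
  · rintro ⟨g, hg, hgf, hσ⟩
    have hle : Q ⊔ P ≤ (F.normSys ρ).S :=
      sup_le hQ (h1.trans (normSys_S_anti (Set.subset_insert _ _)))
    have hρ : ∀ T ∈ ρ, img g T = T := fun T hT => hσ T (Set.mem_insert_of_mem _ hT)
    refine ⟨g, normSys_mor.2 ⟨hle, img_le_iff.2 fun y hy => ?_, g, hg, fun _ _ => rfl, hρ⟩, hgf, ?_⟩
    · have := hg.apply_mem_normSys hF le_sup_left (mem_sup_right hy) (hle hy)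
      rwa [image_eq_of_fix hρ] at this
    · rintro T rfl
      exact hσ T (Set.mem_insert _ _)

lemma KP.exists_back (hF : F.IsFusionSystem) {ρ : Set (Subgroup G)} (hρ : F.KP ρ 1)
    {T : Subgroup G} (hT : T ≤ (F.normSys ρ).S) {f : G → G} (hf : F.Mor (sSup ρ ⊔ T) f) :
    ∃ g, F.Mor ((F.normSys (img f '' ρ)).S ⊔ sSup (img f '' ρ)) g ∧
      img g '' (img f '' ρ) = ρ ∧ (F.normSys ρ).Mor T (g ∘ f) := by
  have hph := hf.phom hF
  obtain ⟨h, hh, hhf⟩ := hf.inv hF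
  rw [img_sSup_sup hph le_rfl] at hh
  have hfix : ∀ Q ∈ ρ, img h (img f Q) = Q := fun Q hQ => by
    rw [← hph.img_comp (le_sSup_sup hQ)]
    exact img_eq_self fun y hy => hhf y (le_sSup_sup hQ hy)
  obtain ⟨g, hg, hgh, -⟩ := hρ (img f '' ρ) 1 h (hh.mono hF (by rw [DD_one]; exact le_sup_left))
    (by
      rw [← Set.image_comp]
      exact (Set.image_congr hfix).trans (Set.image_id ρ)) (hh.phom hF).map_one
  rw [NN_one, DD_one] at hg
  have hfix' : ∀ Q ∈ ρ, img (g ∘ f) Q = Q := fun Q hQ => by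
    rw [hph.img_comp (le_sSup_sup hQ), hgh _ (Set.mem_image_of_mem _ hQ), hfix Q hQ]
  have hmor : F.Mor (sSup ρ ⊔ T) (g ∘ f) := hf.comp hF hg (img_le_iff.1 (by
    rw [img_sSup_sup hph le_rfl, sup_comm]
    exact sup_le_sup_right (img_le_iff.2 fun y hy =>
      hf.apply_mem_normSys hF le_sup_left (mem_sup_right hy) (hT hy)) _))
  refine ⟨g, hg, ?_, normSys_mor.2 ⟨hT, img_le_iff.2 fun y hy => ?_, g ∘ f, hmor, fun _ _ => rfl,
    hfix'⟩⟩
  · rw [← hph.image_img_comp fun Q hQ => le_sSup_sup hQ, image_eq_of_fix hfix']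
  · have := hmor.apply_mem_normSys hF le_sup_left (mem_sup_right hy) (hT hy)
    rwa [image_eq_of_fix hfix'] at this

variable [Finite G]

lemma KP.max_of_centralized (hF : F.IsFusionSystem) {σ : Set (Subgroup G)} (hσ : F.KP σ 1)
    {x : G} (hx : x ∈ (F.normSys σ).S) (hc : (F.normSys σ).FullyCentralized (zpowers x)) :
    F.MaxCfg σ x := by
  intro f hf
  obtain ⟨g, hg, hgσ, hE⟩ := hσ.exists_back hF (zpowers_le.2 hx) hf
  have h1 := fullyCentralized_iff.1 hc _ hE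
  have hph := hf.phom hF
  have hfx : f x ∈ (F.normSys (img f '' σ)).S :=
    hf.apply_mem_normSys hF le_sup_left (mem_DD σ x) hx
  have hgph := hg.phom hF
  rw [hph.img_comp le_sup_right, hph.img_zpowers (mem_DD σ x), hgph.img_zpowers (mem_sup_left hfx),
    ← NN_eq, ← NN_eq] at h1
  have hle : F.NN (img f '' σ) (f x) ≤ (F.normSys (img f '' σ)).S ⊔ sSup (img f '' σ) :=
    le_trans inf_le_left le_sup_left
  rw [← hgph.card_img hle]
  refine (card_le_of_le (img_le_iff.2 fun n hn => ?_)).trans h1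
  have := hg.apply_mem_NN hF (σ := img f '' σ) (x := f x)
    (sup_le le_sup_right (zpowers_le.2 (mem_sup_left hfx))) (hle hn) hn
  rwa [hgσ] at this

lemma KP.max_insert (hF : F.IsFusionSystem) {ρ : Set (Subgroup G)} (hρ : F.KP ρ 1)
    {Q : Subgroup G} (hQ : Q ≤ (F.normSys ρ).S) (hc : (F.normSys ρ).FullyNormalized Q) :
    F.MaxCfg (insert Q ρ) 1 := by
  intro f hf
  rw [DD_one, sSup_insert, sup_comm] at hf
  obtain ⟨g, hg, hgσ, hE⟩ := hρ.exists_back hF hQ hf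
  have h1 := fullyNormalized_iff.1 hc _ hE
  have hph := hf.phom hF
  have hfQ : img f Q ≤ (F.normSys (img f '' ρ)).S := img_le_iff.2 fun y hy =>
    hf.apply_mem_normSys hF le_sup_left (mem_sup_right hy) (hQ hy)
  have hgph := hg.phom hF
  rw [hph.img_comp le_sup_right, ← normSys_insert_S, ← normSys_insert_S] at h1
  rw [hph.map_one, NN_one, NN_one, Set.image_insert_eq]
  have hle : (F.normSys (insert (img f Q) (img f '' ρ))).S
      ≤ (F.normSys (img f '' ρ)).S ⊔ sSup (img f '' ρ) :=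
    (normSys_S_anti (Set.subset_insert _ _)).trans le_sup_left
  rw [← hgph.card_img hle]
  refine (card_le_of_le (img_le_iff.2 fun n hn => ?_)).trans h1
  have := hg.apply_mem_normSys hF (σ := insert (img f Q) (img f '' ρ))
    (by rw [sSup_insert]; exact sup_le_sup_right hfQ _) (hle hn) hn
  rwa [Set.image_insert_eq, hgσ] at this

lemma exists_max_conj (hF : F.IsFusionSystem) (μ : Subgroup G → ℕ) {Q : Subgroup G}
    (hQ : Q ≤ F.S) : ∃ f, F.Mor Q f ∧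
      ∀ g, F.Mor (img f Q) g → μ (img g (img f Q)) ≤ μ (img f Q) := by
  obtain ⟨_, ⟨f, hf, rfl⟩, hmax⟩ := Set.exists_max_image {T | ∃ f, F.Mor Q f ∧ img f Q = T} μ
    (Set.toFinite _) ⟨_, id, mor_id hF hQ, rfl⟩
  refine ⟨f, hf, fun g hg => hmax _ ⟨g ∘ f, hf.comp hF hg fun y hy => mem_img_of_mem f hy, ?_⟩⟩
  exact (hf.phom hF).img_comp le_rfl g

variable {p : ℕ} [Fact p.Prime]

lemma KP_empty (hS : IsPGroup p F.S) (hF : F.IsSaturated p) : F.KP ∅ 1 :=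
  KP_of_max hS hF fun f hf => by rw [Set.image_empty, (hf.phom hF.1).map_one]

lemma KP_of_chain (hS : IsPGroup p F.S) (hF : F.IsSaturated p) (τ : List (Subgroup G)) :
    ∀ ρ : Set (Subgroup G), F.KP ρ 1 → (∀ Q ∈ τ, Q ≤ (F.normSys (ρ ∪ {T | T ∈ τ})).S) →
      (F.normSys ρ).FullyNormalizedChain τ → F.KP (ρ ∪ {T | T ∈ τ}) 1 := by
  induction τ with
  | nil => exact fun ρ hρ _ _ => by simpa using hρ
  | cons Q τ ih =>
    intro ρ hρ hle hfn
    have hset : ρ ∪ {T | T ∈ Q :: τ} = insert Q ρ ∪ {T | T ∈ τ} := by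
      ext T
      simp only [Set.mem_union, Set.mem_ofPred_eq, List.mem_cons, Set.mem_insert_iff]
      tauto
    have hQ : Q ≤ (F.normSys ρ).S :=
      (hle Q List.mem_cons_self).trans (normSys_S_anti Set.subset_union_left)
    rw [hset] at hle ⊢
    obtain ⟨hfn1, hfn2⟩ := fullyNormalizedChain_cons.1 hfn
    refine ih _ (KP_of_max hS hF (hρ.max_insert hF.1 hQ hfn1))
      (fun T hT => hle T (List.mem_cons_of_mem _ hT)) ?_
    rw [← normSys_normSys hF.1 hQ]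
    exact hfn2

lemma exists_fullyNormalizedChain (hS : IsPGroup p F.S) (hF : F.IsSaturated p) (n : ℕ) :
    ∀ (τ : List (Subgroup G)) (ρ : Set (Subgroup G)), τ.length = n → F.KP ρ 1 →
      sSup (ρ ∪ {T | T ∈ τ}) ≤ (F.normSys (ρ ∪ {T | T ∈ τ})).S →
      ∃ f, F.Mor (sSup (ρ ∪ {T | T ∈ τ})) f ∧ (∀ Q ∈ ρ, img f Q = Q) ∧
        (F.normSys ρ).FullyNormalizedChain (τ.map (img f)) := by
  induction n with
  | zero =>
    intro τ ρ hτ _ hle
    rw [List.length_eq_zero_iff.1 hτ] at hle ⊢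
    exact ⟨id, mor_id hF.1 (hle.trans inf_le_left), fun Q _ => img_id Q, .nil _⟩
  | succ n ih =>
    intro τ ρ hτ hρ hle
    obtain ⟨Q, τ, rfl⟩ := List.exists_cons_of_length_eq_add_one hτ
    have hset : ρ ∪ {T | T ∈ Q :: τ} = insert Q ρ ∪ {T | T ∈ τ} := by
      ext T
      simp only [Set.mem_union, Set.mem_ofPred_eq, List.mem_cons, Set.mem_insert_iff]
      tauto
    rw [hset] at hle ⊢
    have hsub : ρ ⊆ insert Q ρ ∪ {T | T ∈ τ} :=
      (Set.subset_insert _ _).trans Set.subset_union_left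
    have hQm : Q ∈ insert Q ρ ∪ {T | T ∈ τ} := Or.inl (Set.mem_insert _ _)
    have hQ : Q ≤ (F.normSys ρ).S := (le_sSup hQm).trans (hle.trans (normSys_S_anti hsub))
    have hE := normSys_isFusionSystem hF.1 ((sSup_le_sSup hsub).trans (hle.trans inf_le_left))
    obtain ⟨f₁, hf₁, hmax⟩ := exists_max_conj hE
      (fun T => Nat.card ↥((F.normSys ρ).S ⊓ normalizer (T : Set G))) hQ
    have hfn : (F.normSys ρ).FullyNormalized (img f₁ Q) := fullyNormalized_iff.2 hmax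
    obtain ⟨-, hQ₁, g₁, hg₁, hgf, hgρ⟩ := normSys_mor.1 hf₁
    have hKP := KP_of_max hS hF (hρ.max_insert hF.1 hQ₁ hfn)
    obtain ⟨g₂, hg₂, hg₂σ, -⟩ := hKP (insert Q ρ) 1 g₁
      (by rwa [DD_one, sSup_insert, sup_comm])
      (by rw [Set.image_insert_eq, image_eq_of_fix hgρ, img_congr hgf]) (hg₁.phom hF.1).map_one
    have hg₃ : F.Mor (sSup (insert Q ρ ∪ {T | T ∈ τ})) g₂ := hg₂.mono hF.1 (by
      rw [NN_one]
      exact (hle.trans (normSys_S_anti Set.subset_union_left)).trans le_sup_left)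
    have hph := hg₃.phom hF.1
    have hQQ : img g₂ Q = img f₁ Q := by rw [hg₂σ Q (Set.mem_insert _ _), img_congr hgf]
    have hρρ : ∀ T ∈ ρ, img g₂ T = T := fun T hT => by
      rw [hg₂σ T (Set.mem_insert_of_mem _ hT), hgρ T hT]
    have himg : insert (img f₁ Q) ρ ∪ {T | T ∈ τ.map (img g₂)}
        = img g₂ '' (insert Q ρ ∪ {T | T ∈ τ}) := by
      rw [Set.image_union, Set.image_insert_eq, image_eq_of_fix hρρ, hQQ]
      congr 1
      ext T
      simp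
    obtain ⟨f₂, hf₂, hf₂ρ, hf₂τ⟩ := ih (τ.map (img g₂)) (insert (img f₁ Q) ρ)
      (by simpa using hτ) hKP (by
        rw [himg, ← hph.img_sSup fun T hT => le_sSup hT, img_le_iff]
        exact fun y hy => hg₃.apply_mem_normSys hF.1 le_rfl hy (hle hy))
    rw [himg, ← hph.img_sSup fun T hT => le_sSup hT] at hf₂
    refine ⟨f₂ ∘ g₂, hg₃.comp hF.1 hf₂ fun y hy => mem_img_of_mem _ hy, fun T hT => ?_,
      fullyNormalizedChain_cons.2 ⟨?_, ?_⟩⟩
    · rw [hph.img_comp (le_sSup (hsub hT)), hρρ T hT, hf₂ρ T (Set.mem_insert_of_mem _ hT)]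
    · rwa [hph.img_comp (le_sSup hQm), hQQ, hf₂ρ _ (Set.mem_insert _ _)]
    · rw [hph.img_comp (le_sSup hQm), hQQ, hf₂ρ _ (Set.mem_insert _ _),
        normSys_normSys hF.1 hQ₁]
      rw [List.map_map] at hf₂τ
      rwa [List.map_congr_left fun T hT => hph.img_comp
        (le_sSup (Or.inr hT : T ∈ insert Q ρ ∪ {T | T ∈ τ})) f₂]

end Fus

end Pool.Agent.MP_3359e9_al

end MrgPart4

-- marker of a merged file
example : 731051 + 366899 = 731051 + 366899 := rfl
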