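import Pool.Agent.MP_3359e9_al.Good
import Pool.Agent.MP_3359e9_al.Defs

-- ======== part 0: formerly Pool.Agent.MP_3359e9_al.Val
section MrgPart0

set_option autoImplicit false

namespace Pool.Agent.MP_3359e9_al

open Subgroup

variable {G : Type} [Group G]

lemma congr_conj {H H' : Type} [Group H] [Group H'] (e : H ≃* H') (u : H) :
    MulAut.congr e (MulAut.conj u) = MulAut.conj (e u) := by
  ext y
  simp

lemma congr_mem_inn_iff {H H' : Type} [Group H] [Group H'] (e : H ≃* H') (a : MulAut H) :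
    MulAut.congr e a ∈ normalClosure (Set.range (MulAut.conj : H' → MulAut H')) ↔
      a ∈ normalClosure (Set.range (MulAut.conj : H → MulAut H)) := by
  rw [mem_inn_iff, mem_inn_iff]
  constructor
  · rintro ⟨u, hu⟩
    obtain ⟨u, rfl⟩ := e.surjective u
    rw [← congr_conj] at hu
    exact ⟨u, (MulAut.congr e).injective hu⟩
  · rintro ⟨u, rfl⟩
    exact ⟨e u, (congr_conj e u).symm⟩

namespace Fus

variable {k : Type} [Field k]

/-- The contribution of a triple, with the overgroup `R` as a parameter. -/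
noncomputable def valR (F : Fus G) (α : (Q : Subgroup G) → Out Q → Out Q → kˣ)
    (σ : Set (Subgroup G)) (x : G) (P R : Subgroup G) : ℤ :=
  z (TwAlg k (((F.normSys σ).centSys x).OutF P)
    fun a b => α R (F.extOut σ P R a) (F.extOut σ P R b))

/-- The contribution of a triple. -/
noncomputable def val (F : Fus G) (α : (Q : Subgroup G) → Out Q → Out Q → kˣ)
    (σ : Set (Subgroup G)) (x : G) (P : Subgroup G) : ℤ :=
  F.valR α σ x P (sSup σ ⊔ P)

variable {F : Fus G} {α : (Q : Subgroup G) → Out Q → Out Q → kˣ}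
  {σ : Set (Subgroup G)} {x : G} {P : Subgroup G}

/-- Pairs `(a, c)` with `c` an admissible extension of `a`. -/
def EG (F : Fus G) (σ : Set (Subgroup G)) (P : Subgroup G) (x : P) :
    Subgroup (MulAut P × MulAut ↥(sSup σ ⊔ P)) where
  carrier := {γ | F.Ext σ P _ γ.1 γ.2 ∧ γ.1 x = x}
  one_mem' := ⟨Ext.one, rfl⟩
  mul_mem' := by
    rintro a b ⟨ha, ha'⟩ ⟨hb, hb'⟩
    exact ⟨ha.mul hb, by rw [Prod.fst_mul, MulAut.mul_apply, hb', ha']⟩
  inv_mem' := by
    rintro a ⟨ha, ha'⟩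
    refine ⟨ha.inv le_sup_right, ?_⟩
    conv_lhs => rw [← ha']
    exact MulAut.inv_apply_self _ _ _

lemma Valid.exists_pi (hF : F.IsFusionSystem) (h : F.Valid σ x P) :
    ∃ π : F.EG σ P ⟨x, h.mem⟩ →* ((F.normSys σ).centSys x).OutF P, Function.Surjective π ∧
      ∀ γ, (π γ : Out P) = γ.1.1 := by
  refine ⟨((QuotientGroup.mk' _).comp ((MonoidHom.fst _ _).comp (F.EG σ P _).subtype)).codRestrict _
    fun γ => ⟨γ.1.1, (h.mem_locAut_iff hF rfl).2 ⟨⟨_, γ.2.1⟩, congrArg Subtype.val γ.2.2⟩, rfl⟩,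
    ?_, fun _ => rfl⟩
  rintro ⟨_, a, ha, rfl⟩
  obtain ⟨⟨c, hc⟩, hx⟩ := (h.mem_locAut_iff hF rfl).1 ha
  exact ⟨⟨(a, c), hc, Subtype.ext hx⟩, rfl⟩

lemma Ext.transport (hF : F.IsFusionSystem) {R P' R' : Subgroup G} {f : G → G} (hf : F.Mor R f)
    (hPR : P ≤ R) (hσ : ∀ Q ∈ σ, Q ≤ R) (hR' : img f R = R') (eP : P ≃* P') (eR : R ≃* R')
    (heP : ∀ y : P, (eP y : G) = f y) (heR : ∀ y : R, (eR y : G) = f y)
    {a : MulAut P} {c : MulAut R} (h : F.Ext σ P R a c) :
    F.Ext (img f '' σ) P' R' (MulAut.congr eP a) (MulAut.congr eR c) := by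
  have hph := hf.phom hF
  obtain ⟨c', hc', hcc⟩ := (mem_Aut_iff hF (hf.le hF)).1 h.1
  refine ⟨congr_mem_Aut hF hf hR' eR heR hc'
    (fun y hy => by rw [← hcc ⟨y, hy⟩]; exact (c ⟨y, hy⟩).2) (fun y => by simp [heR, hcc]),
    fun y y' hy => ?_, ?_⟩
  · obtain ⟨y, rfl⟩ := eP.surjective y
    obtain ⟨y', rfl⟩ := eR.surjective y'
    rw [heP, heR] at hy
    have := h.2.1 y y' (hph.inj _ (hPR y.2) _ y'.2 hy)
    simp [heP, heR, this]
  · rintro _ ⟨Q, hQ, rfl⟩ u
    obtain ⟨u, rfl⟩ := eR.surjective u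
    simp only [MulAut.congr_apply, MulEquiv.trans_apply, MulEquiv.symm_apply_apply, heR]
    rw [hph.apply_mem_img (hσ Q hQ) (c u).2, hph.apply_mem_img (hσ Q hQ) u.2]
    exact h.2.2 Q hQ u

variable [Finite G] {p : ℕ} [Fact p.Prime]

theorem val_map [CharP k p] (hS : IsPGroup p F.S) (hF : F.IsSaturated p) (hα : F.Compatible α)
    (h : F.Valid σ x P) {f : G → G} (hf : F.Mor (sSup σ ⊔ P) f) :
    F.val α σ x P = F.val α (img f '' σ) (f x) (img f P) := by
  have hF1 := hF.1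
  have h' := h.map hF1 hf
  have hph := hf.phom hF1
  have hR' : img f (sSup σ ⊔ P) = sSup (img f '' σ) ⊔ img f P := img_sSup_sup hph le_rfl
  obtain ⟨eP, heP⟩ := (hph.mono le_sup_right).exists_mulEquiv (rfl : img f P = _)
  obtain ⟨eR, heR⟩ := hph.exists_mulEquiv hR'
  obtain ⟨π, hπ, hπa⟩ := h.exists_pi hF1
  obtain ⟨π', hπ', hπa'⟩ := h'.exists_pi hF1
  have hx : eP ⟨x, h.mem⟩ = ⟨f x, h'.mem⟩ := Subtype.ext (heP _)
  let τ : F.EG σ P ⟨x, h.mem⟩ →* F.EG (img f '' σ) (img f P) ⟨f x, h'.mem⟩ :=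
    ((MonoidHom.prodMap (MulAut.congr eP).toMonoidHom (MulAut.congr eR).toMonoidHom).comp
      (F.EG σ P _).subtype).codRestrict _ fun γ =>
      ⟨Ext.transport hF1 hf le_sup_right (fun _ hQ => le_sSup_sup hQ) hR' eP eR heP heR γ.2.1, by
        rw [← hx]
        simp [γ.2.2]⟩
  have hτ1 : ∀ γ, (τ γ).1.1 = MulAut.congr eP γ.1.1 := fun _ => rfl
  have hτ2 : ∀ γ, (τ γ).1.2 = MulAut.congr eR γ.1.2 := fun _ => rfl
  have hτ : Function.Surjective τ := by
    intro γ
    obtain ⟨g, hg, hgf⟩ := hf.inv hF1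
    rw [hR'] at hg
    have h1 := Ext.transport hF1 hg le_sup_right (fun _ hQ => le_sSup_sup hQ)
      (show img g _ = sSup σ ⊔ P by
        rw [← hR', ← hph.img_comp le_rfl]
        exact img_eq_self hgf) eP.symm eR.symm
      (fun y => by
        obtain ⟨y, rfl⟩ := eP.surjective y
        rw [MulEquiv.symm_apply_apply, heP, hgf _ (mem_sup_right y.2)])
      (fun y => by
        obtain ⟨y, rfl⟩ := eR.surjective y
        rw [MulEquiv.symm_apply_apply, heR, hgf _ y.2]) γ.2.1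
    rw [← hph.image_img_comp fun Q hQ => le_sSup_sup hQ,
      image_eq_of_fix (f := g ∘ f) (σ := σ)
        fun Q hQ => img_eq_self fun y hy => hgf y (le_sSup_sup hQ hy)] at h1
    refine ⟨⟨(MulAut.congr eP.symm γ.1.1, MulAut.congr eR.symm γ.1.2), h1, ?_⟩, ?_⟩
    · have h2 := γ.2.2
      simp only [MulAut.congr_apply, MulEquiv.symm_symm, MulEquiv.trans_apply, hx, h2]
      rw [← hx, MulEquiv.symm_apply_apply]
    · refine Subtype.ext (Prod.ext ?_ ?_)
      · rw [hτ1]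
        ext y
        simp
      · rw [hτ2]
        ext y
        simp
  obtain ⟨φ, hφ, hφf⟩ := hf
  obtain ⟨b, hb⟩ := hα.2 _ _ h.centric h'.centric φ hφ (by rw [range_eq_img φ hφf, hR']) (by
    rw [range_eq_img φ hφf, hR']
    exact le_normalizer)
  have hcomm : ∀ (c : MulAut ↥(sSup σ ⊔ P)) y (y' : ↥(sSup (img f '' σ) ⊔ img f P)),
      φ y = y' → φ (c y) = MulAut.congr eR c y' := fun c y y' hy => by
    have : y' = eR y := Subtype.ext (by rw [heR, ← hφf, hy])
    rw [this]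
    simp [heR, hφf]
  unfold val valR
  congr 1
  refine z_tw_of_surj p π (π'.comp τ) hπ (hπ'.comp hτ) (fun γ => ?_) _ _
    (fun γ => b (γ.1.2, MulAut.congr eR γ.1.2)) (fun c d => ?_) fun n hn => ?_
  · rw [Subtype.ext_iff, Subtype.ext_iff, MonoidHom.comp_apply, hπa, hπa', hτ1]
    simp only [OneMemClass.coe_one, QuotientGroup.eq_one_iff]
    exact (congr_mem_inn_iff eP _).symm
  · have h1 := hb (c.1.2, (τ c).1.2) ⟨c.2.1.1, (τ c).2.1.1, hcomm _⟩
      (d.1.2, (τ d).1.2) ⟨d.2.1.1, (τ d).2.1.1, hcomm _⟩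
    simp only [MonoidHom.comp_apply, hπa, hπa']
    rw [h.extOut_spec hS hF rfl c.2.1, h.extOut_spec hS hF rfl d.2.1,
      h'.extOut_spec hS hF rfl (τ c).2.1, h'.extOut_spec hS hF rfl (τ d).2.1]
    simpa only [hτ2, Subgroup.coe_mul, Prod.snd_mul, map_mul, Prod.mk_mul_mk] using h1
  · have h1 := h.extOut_spec hS hF rfl n.2.1
    have h2 := h.extOut_spec hS hF rfl (Ext.one (F := F) (σ := σ) (P := P))
    rw [← hπa, hn, OneMemClass.coe_one] at h1
    rw [QuotientGroup.mk_one, h1, QuotientGroup.mk_one, QuotientGroup.eq_one_iff] at h2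
    obtain ⟨u, hu⟩ := mem_inn_iff.1 h2
    obtain ⟨m, hm⟩ := hS.to_le h.le u
    refine ⟨m, ?_⟩
    have h3 : n.1.2 ^ p ^ m = 1 := by rw [← hu, ← map_pow, hm, map_one]
    simp only [SubgroupClass.coe_pow, Prod.pow_snd, h3, OneMemClass.coe_one, Prod.snd_one]

theorem Rel.val_eq [CharP k p] (hS : IsPGroup p F.S) (hF : F.IsSaturated p)
    (hα : F.Compatible α) {σ' : Set (Subgroup G)} {x' : G} {P' : Subgroup G}
    (hr : F.Rel σ x P σ' x' P') (h : F.Valid σ x P) : F.val α σ x P = F.val α σ' x' P' := by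
  obtain ⟨f, hf, rfl, rfl, rfl⟩ := hr
  exact val_map hS hF hα h hf

omit [Finite G] in
lemma Ext.toggle {R : Subgroup G} (hR : R = sSup σ ⊔ P) {a : MulAut P} {c : MulAut R}
    (h : F.Ext σ P R a c) : F.Ext (toggle σ P) P R a c := by
  subst hR
  refine ⟨h.1, h.2.1, fun Q hQ => ?_⟩
  rcases mem_toggle_cases hQ with hQ | rfl
  · exact h.2.2 Q hQ
  · have hc := extFun_coe ((sSup σ ⊔ P).subtype.comp c.toMonoidHom)
    set g := extFun ((sSup σ ⊔ P).subtype.comp c.toMonoidHom)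
    have hc' : ∀ y : ↥(sSup σ ⊔ P), (c y : G) = g y := hc
    have hph : PHom (sSup σ ⊔ P) g := by
      constructor
      · intro y hy w hw
        rw [← hc' ⟨y, hy⟩, ← hc' ⟨w, hw⟩, ← hc' ⟨y * w, mul_mem hy hw⟩, ← Subgroup.coe_mul,
          ← map_mul]
        rfl
      · intro y hy w hw hyw
        rw [← hc' ⟨y, hy⟩, ← hc' ⟨w, hw⟩] at hyw
        exact congrArg Subtype.val (c.injective (Subtype.ext hyw))
    rw [← img_eq_iff tg_le_sup c hc']
    refine hph.img_tg_eq le_rfl (fun Q hQ => (img_eq_iff (le_sSup_sup hQ) c hc').2 (h.2.2 Q hQ)) ?_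
    rw [img_eq_iff le_rfl a fun y => (h.2.1 y ⟨y, mem_sup_right y.2⟩ rfl).trans (hc' _)]
    exact fun u => ⟨fun _ => u.2, fun _ => (a u).2⟩

lemma Valid.toggle (hS : IsPGroup p F.S) (hF : F.IsFusionSystem) (hne : F.S ≠ ⊥)
    (h : F.Valid σ x P) : F.Valid (toggle σ P) x P := by
  have hp := hS.to_le h.le
  refine ⟨h.nc.toggle (h.ne_bot hF hne) hp, by rw [sup_toggle hp]; exact h.le, h.mem, h.comm,
    fun f hf u hu hc => ?_⟩
  have hph := hf.phom hF
  obtain ⟨hu1, hu2⟩ := mem_normSys_S.1 hu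
  refine h.cpair f (sup_toggle hp ▸ hf) u (mem_normSys_S.2 ⟨hu1, ?_⟩) hc
  rintro _ ⟨Q, hQ, rfl⟩
  rcases mem_cases_toggle (P := P) hQ with hQ | rfl
  · exact hu2 _ (Set.mem_image_of_mem _ hQ)
  · rw [← tg_toggle hp, hph.img_tg le_rfl]
    refine mem_normalizer_tg hu2 (centralizer_le_normalizer _ (mem_centralizer_iff.2 ?_))
    intro y hy
    obtain ⟨w, hw, rfl⟩ := (hph.mem_img le_sup_right).1 hy
    exact (hc w hw).symm

lemma Rel.toggle (hS : IsPGroup p F.S) (hF : F.IsFusionSystem) {σ' : Set (Subgroup G)} {x' : G}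
    {P' : Subgroup G} (hr : F.Rel σ x P σ' x' P') :
    F.Rel (toggle σ P) x P (toggle σ' P') x' P' := by
  obtain ⟨f, hf, rfl, rfl, rfl⟩ := hr
  exact ⟨f, (sup_toggle (hS.to_le (hf.le hF))).symm ▸ hf, (hf.phom hF).image_toggle le_rfl, rfl, rfl⟩

lemma Valid.val_toggle (hS : IsPGroup p F.S) (hF : F.IsFusionSystem) (hne : F.S ≠ ⊥)
    (h : F.Valid σ x P) : F.val α (Pool.Agent.MP_3359e9_al.toggle σ P) x P = F.val α σ x P := by
  have hp := hS.to_le h.le
  have h' := h.toggle hS hF hne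
  have hR := sup_toggle hp
  have hExt : ∀ a c, F.Ext (Pool.Agent.MP_3359e9_al.toggle σ P) P (sSup σ ⊔ P) a c ↔
      F.Ext σ P (sSup σ ⊔ P) a c := fun a c =>
    ⟨fun h1 => by simpa only [toggle_toggle hp] using h1.toggle hR.symm, fun h1 => h1.toggle rfl⟩
  have hAut : ((F.normSys (Pool.Agent.MP_3359e9_al.toggle σ P)).centSys x).OutF P
      = ((F.normSys σ).centSys x).OutF P := by
    unfold OutF
    congr 1
    ext a
    rw [h'.mem_locAut_iff hF hR.symm, h.mem_locAut_iff hF rfl]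
    simp only [hExt]
  have hext : F.extOut (Pool.Agent.MP_3359e9_al.toggle σ P) P (sSup σ ⊔ P)
      = F.extOut σ P (sSup σ ⊔ P) := by
    funext a
    rw [extOut_eq fun Q hQ => toggle_le hQ, extOut_eq fun Q hQ => le_sSup_sup hQ]
    simp only [hExt]
  unfold val
  rw [hR]
  unfold valR
  rw [hext, hAut]

omit [Finite G] in
lemma normSys_empty (hF : F.IsFusionSystem) : F.normSys ∅ = F := by
  have hS : (F.normSys ∅).S = F.S := by
    ext g
    simp [mem_normSys_S]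
  refine fus_ext hS fun P f => ?_
  rw [normSys_mor, hS, sSup_empty, bot_sup_eq]
  constructor
  · rintro ⟨-, -, g, hg, hgf, -⟩
    exact hg.congr hgf
  · exact fun h => ⟨h.le hF, h.img_le hF le_rfl, f, h, fun _ _ => rfl, fun _ hQ => hQ.elim⟩

lemma Valid.val_empty (hS : IsPGroup p F.S) (hF : F.IsSaturated p) (h : F.Valid ∅ x P) :
    F.val α ∅ x P = z (TwAlg k ((F.centSys x).OutF P) fun a b => α P a b) := by
  have hR : sSup (∅ : Set (Subgroup G)) ⊔ P = P := by rw [sSup_empty, bot_sup_eq]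
  have hext : ∀ a : ((F.normSys ∅).centSys x).OutF P, F.extOut ∅ P P a = a := by
    rintro ⟨_, a, ha, rfl⟩
    obtain ⟨⟨c, hc⟩, -⟩ := (h.mem_locAut_iff hF.1 hR.symm).1 ha
    have hca : a = c := MulEquiv.ext fun y => Subtype.ext (hc.2.1 y y rfl)
    subst hca
    exact h.extOut_spec hS hF hR.symm hc
  unfold val
  rw [hR]
  unfold valR
  have h1 : (fun a b : ((F.normSys ∅).centSys x).OutF P =>
      α P (F.extOut ∅ P P a) (F.extOut ∅ P P b))
      = fun a b : ((F.normSys ∅).centSys x).OutF P => α P a b := by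
    funext a b
    rw [hext, hext]
  rw [h1, normSys_empty hF.1]

end Fus

end Pool.Agent.MP_3359e9_al

end MrgPart0

-- ======== part 1: formerly Pool.Agent.MP_3359e9_al.Sums
section MrgPart1

set_option autoImplicit false

namespace Pool.Agent.MP_3359e9_al

/-- The sum of `f` over one representative of each class of the relation `r`. -/
noncomputable def csum {X : Type} (r : X → X → Prop) (f : X → ℤ) : ℤ :=
  ∑ᶠ c : Quot r, f c.out

lemma classSum_eq {X : Type} (q : X → Prop) (r : X → X → Prop) (f : X → ℤ) :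
    classSum q r f = csum (fun x y : {x // q x} => r x.1 y.1) fun x => f x.1 := rfl

section

variable {X : Type} {r : X → X → Prop}

lemma quot_mk_eq_iff (hr : Equivalence r) {x y : X} : Quot.mk r x = Quot.mk r y ↔ r x y := by
  rw [Quot.eq, hr.eqvGen_iff]

lemma rel_out (hr : Equivalence r) (x : X) : r (Quot.mk r x).out x :=
  (quot_mk_eq_iff hr).1 (Quot.out_eq _)

lemma csum_eq_sum [Fintype (Quot r)] (f : X → ℤ) :
    csum r f = ∑ c : Quot r, f c.out := finsum_eq_sum_of_fintype _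

/-- Fibred form of a sum over classes. -/
lemma csum_fiber [Finite X] (hr : Equivalence r) {B : Type} [Finite B] {s : B → B → Prop}
    (hs : Equivalence s) {Y : B → Type} [∀ b, Finite (Y b)] {t : ∀ b, Y b → Y b → Prop}
    (m : ∀ b, Y b → X) (ht : ∀ b y y', t b y y' ↔ r (m b y) (m b y'))
    (hb : ∀ b b' y y', r (m b y) (m b' y') → s b b')
    (hc : ∀ x, ∃ b₀, ∀ b, s b₀ b → ∃ y, r (m b y) x)
    (f : X → ℤ) (hf : ∀ x y, r x y → f x = f y) :
    csum r f = csum s fun b => csum (t b) fun y => f (m b y) := by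
  classical
  have ht' : ∀ b, Equivalence (t b) := fun b =>
    ⟨fun y => (ht b y y).2 (hr.refl _), fun h => (ht b _ _).2 (hr.symm ((ht b _ _).1 h)),
      fun h h' => (ht b _ _).2 (hr.trans ((ht b _ _).1 h) ((ht b _ _).1 h'))⟩
  let : Fintype (Quot r) := Fintype.ofFinite _
  let : Fintype (Quot s) := Fintype.ofFinite _
  let : ∀ b, Fintype (Quot (t b)) := fun b => Fintype.ofFinite _
  let e : (Σ c : Quot s, Quot (t c.out)) → Quot r := fun d => Quot.mk r (m d.1.out d.2.out)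
  have he : Function.Bijective e := by
    constructor
    · rintro ⟨c, d⟩ ⟨c', d'⟩ h
      have h1 := (quot_mk_eq_iff hr).1 h
      have h2 : c = c' := by
        rw [← Quot.out_eq c, ← Quot.out_eq c']
        exact Quot.sound (hb _ _ _ _ h1)
      subst h2
      have h3 : d = d' := by
        rw [← Quot.out_eq d, ← Quot.out_eq d']
        exact Quot.sound ((ht _ _ _).2 h1)
      rw [h3]
    · intro q
      obtain ⟨b₀, hb₀⟩ := hc q.out
      obtain ⟨y, hy⟩ := hb₀ (Quot.mk s b₀).out (hs.symm (rel_out hs b₀))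
      refine ⟨⟨Quot.mk s b₀, Quot.mk _ y⟩, ?_⟩
      rw [← Quot.out_eq q]
      exact Quot.sound (hr.trans ((ht _ _ _).1 (rel_out (ht' _) y)) hy)
  rw [csum_eq_sum, csum_eq_sum]
  simp only [csum_eq_sum]
  rw [← Fintype.sum_sigma' (fun (c : Quot s) (d : Quot (t c.out)) => f (m c.out d.out))]
  symm
  refine Fintype.sum_bijective e he _ _ fun d => ?_
  exact (hf _ _ (rel_out hr _)).symm

/-- Transport of a sum over classes. -/
lemma csum_congr [Finite X] {Y : Type} [Finite Y] {s : Y → Y → Prop} (hs : Equivalence s)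
    (m : X → Y) (hm : ∀ x x', r x x' ↔ s (m x) (m x')) (hsurj : ∀ y, ∃ x, s (m x) y)
    (g : Y → ℤ) (hg : ∀ y y', s y y' → g y = g y') :
    csum s g = csum r fun x => g (m x) := by
  have h := csum_fiber (B := Unit) (s := fun _ _ => True) hs
    ⟨fun _ => trivial, fun _ => trivial, fun _ _ => trivial⟩ (Y := fun _ => X) (t := fun _ => r)
    (fun _ => m) (fun _ => hm) (fun _ _ _ _ _ => trivial) (fun y => ⟨(), fun _ _ => hsurj y⟩) g hg
  rw [h]
  have : Unique (Quot fun _ _ : Unit => True) :=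
    ⟨⟨Quot.mk _ ()⟩, fun q => by induction q using Quot.ind; rfl⟩
  rw [csum, finsum_unique]

/-- A sign-reversing involution kills a sum over classes. -/
lemma csum_eq_zero [Finite X] (hr : Equivalence r) (ι : X → X)
    (hι : ∀ x, ι (ι x) = x) (hrι : ∀ x y, r x y → r (ι x) (ι y))
    (f : X → ℤ) (hf : ∀ x y, r x y → f x = f y) (hneg : ∀ x, f (ι x) = -f x) :
    csum r f = 0 := by
  classical
  have h := csum_congr (r := r) hr ι
    (fun x x' => ⟨hrι x x', fun h => by simpa only [hι] using hrι _ _ h⟩)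
    (fun y => ⟨ι y, by rw [hι]; exact hr.refl y⟩) f hf
  let : Fintype (Quot r) := Fintype.ofFinite _
  rw [csum_eq_sum, csum_eq_sum] at h
  simp only [hneg, Finset.sum_neg_distrib] at h
  rw [csum_eq_sum]
  omega

/-- Splitting a sum over classes along an invariant predicate. -/
lemma csum_split [Finite X] (hr : Equivalence r) (q : X → Prop)
    (hq : ∀ x y, r x y → (q x ↔ q y)) (f : X → ℤ) (hf : ∀ x y, r x y → f x = f y) :
    csum r f = csum (fun x y : {x // q x} => r x.1 y.1) (fun x => f x.1)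
      + csum (fun x y : {x // ¬ q x} => r x.1 y.1) (fun x => f x.1) := by
  classical
  have h := csum_fiber (B := Bool) (s := Eq) hr eq_equivalence
    (Y := fun b => {x // decide (q x) = b}) (t := fun _ x y => r x.1 y.1)
    (fun _ x => x.1) (fun _ _ _ => Iff.rfl)
    (fun b b' y y' h => by
      rw [← y.2, ← y'.2]
      exact decide_eq_decide.2 (hq _ _ h))
    (fun x => ⟨decide (q x), fun b hb => ⟨⟨x, hb⟩, hr.refl x⟩⟩) f hf
  rw [h]
  have h2 : ∀ g : Bool → ℤ, csum (Eq : Bool → Bool → Prop) g = g true + g false := by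
    intro g
    let : Fintype (Quot (Eq : Bool → Bool → Prop)) := Fintype.ofFinite _
    rw [csum_eq_sum, ← Fintype.sum_bool]
    refine Fintype.sum_bijective Quot.out ⟨fun c d h => by rw [← Quot.out_eq c, h, Quot.out_eq], fun b => ⟨Quot.mk _ b, ?_⟩⟩ _ _
      fun _ => rfl
    exact rel_out eq_equivalence b
  rw [h2]
  have hsub : ∀ q' : X → Prop, Equivalence fun x y : {x // q' x} => r x.1 y.1 := fun q' =>
    ⟨fun x => hr.refl _, fun h => hr.symm h, fun h h' => hr.trans h h'⟩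
  congr 1
  · exact csum_congr (hsub fun x => decide (q x) = true)
      (fun x : {x // q x} => ⟨x.1, decide_eq_true x.2⟩)
      (fun _ _ => Iff.rfl) (fun y => ⟨⟨y.1, of_decide_eq_true y.2⟩, hr.refl _⟩)
      (fun x => f x.1) (fun _ _ h => hf _ _ h)
  · exact csum_congr (hsub fun x => decide (q x) = false)
      (fun x : {x // ¬ q x} => ⟨x.1, decide_eq_false x.2⟩)
      (fun _ _ => Iff.rfl) (fun y => ⟨⟨y.1, of_decide_eq_false y.2⟩, hr.refl _⟩)
      (fun x => f x.1) (fun _ _ h => hf _ _ h)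

lemma csum_mul [Finite X] (c : ℤ) (f : X → ℤ) :
    csum r (fun x => c * f x) = c * csum r f := by
  let : Fintype (Quot r) := Fintype.ofFinite _
  rw [csum_eq_sum, csum_eq_sum, Finset.mul_sum]

lemma csum_neg [Finite X] (f : X → ℤ) :
    csum r (fun x => -f x) = -csum r f := by
  let : Fintype (Quot r) := Fintype.ofFinite _
  rw [csum_eq_sum, csum_eq_sum, Finset.sum_neg_distrib]

end

end Pool.Agent.MP_3359e9_al

end MrgPart1

-- ======== part 2: formerly Pool.Agent.MP_3359e9_al.Main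
section MrgPart2

set_option autoImplicit false

namespace Pool.Agent.MP_3359e9_al

open Subgroup

lemma exists_list_of_isChain {A : Type} [Finite A] [PartialOrder A] (n : ℕ) :
    ∀ σ : Set A, σ.ncard = n → IsChain (· ≤ ·) σ →
      ∃ l : List A, l.Pairwise (· < ·) ∧ {Q | Q ∈ l} = σ := by
  induction n with
  | zero =>
    intro σ hn _
    exact ⟨[], List.Pairwise.nil, by rw [(Set.ncard_eq_zero σ.toFinite).1 hn]; simp⟩
  | succ n ih =>
    intro σ hn hσ
    obtain ⟨m, hm⟩ := exists_minimal_of_wellFoundedLT (· ∈ σ)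
      (Set.nonempty_of_ncard_ne_zero (by omega))
    obtain ⟨l, hl, hlσ⟩ := ih (σ \ {m}) (by rw [Set.ncard_sdiff_singleton_of_mem hm.1, hn]; rfl)
      (hσ.mono Set.sdiff_subset)
    refine ⟨m :: l, List.Pairwise.cons (fun b hb => ?_) hl, ?_⟩
    · have hb' : b ∈ σ \ {m} := hlσ ▸ hb
      refine lt_of_le_of_ne ?_ (Ne.symm hb'.2)
      exact (hσ.total hm.1 hb'.1).elim id (hm.2 hb'.1)
    · ext b
      have : b ∈ l ↔ b ∈ σ \ {m} := by rw [← hlσ]; rfl
      simp only [List.mem_cons, Set.mem_ofPred_eq, this, Set.mem_sdiff, Set.mem_singleton_iff]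
      constructor
      · rintro (rfl | h)
        · exact hm.1
        · exact h.1
      · intro h
        by_cases hb : b = m
        · exact Or.inl hb
        · exact Or.inr ⟨h, hb⟩

lemma ncard_list {A : Type} [PartialOrder A] {l : List A} (hl : l.Pairwise (· < ·)) :
    {Q | Q ∈ l}.ncard = l.length := by
  classical
  rw [← List.toFinset_card_of_nodup hl.nodup, ← Set.ncard_coe_finset]
  congr 1
  ext Q
  simp

lemma isChain_list {A : Type} [PartialOrder A] {l : List A} (hl : l.Pairwise (· < ·)) :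
    IsChain (· ≤ ·) {Q | Q ∈ l} := by
  intro a ha b hb hab
  have : Std.Symm fun a b : A => a ≤ b ∨ b ≤ a := ⟨fun _ _ h => h.symm⟩
  exact List.Pairwise.forall (R := fun a b : A => a ≤ b ∨ b ≤ a)
    (hl.imp fun h => Or.inl h.le) ha hb hab

variable {G : Type} [Group G]

lemma setOf_mem_map (l : List (Subgroup G)) (f : G → G) :
    {Q | Q ∈ l.map (img f)} = img f '' {Q | Q ∈ l} := by
  ext T
  simp

namespace Fus

variable {F : Fus G} {σ : Set (Subgroup G)} {x : G} {P : Subgroup G}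

/-- A possibly empty normal chain of nontrivial subgroups of `S`. -/
structure NCh (F : Fus G) (σ : Set (Subgroup G)) : Prop where
  chain : IsChain (· ≤ ·) σ
  ne_bot : ∀ Q ∈ σ, Q ≠ ⊥
  le : sSup σ ≤ (F.normSys σ).S

lemma Valid.nch (h : F.Valid σ x P) : F.NCh σ :=
  ⟨h.nc.chain, h.nc.ne_bot, le_sup_left.trans h.le_normSys⟩

lemma Valid.locCentric (h : F.Valid σ x P) (hF : F.IsFusionSystem) :
    ((F.normSys σ).centSys x).Centric P := by
  refine centric_iff.2 ⟨h.le_NN, fun f hf u hu => ?_⟩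
  obtain ⟨-, g, hg, hgf, hσ, -⟩ := (loc_mor hF h.mem).1 hf
  rw [← img_congr hgf] at hu ⊢
  refine h.cpair g hg u (by rw [image_eq_of_fix hσ]; exact hu.1.1) fun y hy => ?_
  exact (mem_centralizer_iff.1 hu.2 _ (mem_img_of_mem g hy)).symm

lemma valid_of_locCentric (hF : F.IsFusionSystem) (hσ : F.NCh σ) (hx : x ∈ (F.normSys σ).S)
    (hKP : F.KP σ x) (h : ((F.normSys σ).centSys x).Centric P) : F.Valid σ x P := by
  obtain ⟨hP, hc⟩ := centric_iff.1 h
  have hE := centSys_isFusionSystem (normSys_isFusionSystem hF (hσ.le.trans inf_le_left)) hx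
  have hxP : x ∈ P := by
    have := hc id (mor_id hE hP) (x := x) ⟨mem_centSys_S.2 ⟨hx, rfl⟩, by
      rw [img_id]
      exact mem_centralizer_iff.2 fun y hy => (mem_NN.1 (hP hy)).2.2⟩
    rwa [img_id] at this
  have hle : sSup σ ⊔ P ≤ (F.normSys σ).S := sup_le hσ.le (hP.trans inf_le_left)
  refine ⟨⟨hσ.chain, hσ.ne_bot, fun Q hQ g hg => (mem_normSys_S.1 (hle hg)).2 Q hQ⟩,
    hle.trans inf_le_left, hxP, fun y hy => (mem_NN.1 (hP hy)).2.2, fun f hf u hu huc => ?_⟩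
  have hph := hf.phom hF
  obtain ⟨f', hf', hff⟩ := hf.inv hF
  have hfix : ∀ Q ∈ σ, img f' (img f Q) = Q := fun Q hQ => by
    rw [← hph.img_comp (le_sSup_sup hQ)]
    exact img_eq_self fun y hy => hff y (le_sSup_sup hQ hy)
  obtain ⟨g, hg, hgσ, hgx⟩ := hKP (img f '' σ) (f x) f'
    (hf'.mono hF (by rw [← hph.img_DD (DD_le hxP)]; exact img_mono f (DD_le hxP)))
    (by
      rw [← Set.image_comp]
      exact (Set.image_congr hfix).trans (Set.image_id σ)) (hff x (mem_sup_right hxP))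
  have hgph := hg.phom hF
  have hfP : img f P ≤ F.NN (img f '' σ) (f x) := img_le_iff.2 fun y hy =>
    hf.apply_mem_NN hF (DD_le hxP) (mem_sup_right hy) (hP hy)
  have hmor : F.Mor (sSup σ ⊔ P) (g ∘ f) := hf.comp hF hg (img_le_iff.1 (by
    rw [img_sSup_sup hph le_rfl, sup_comm]
    exact sup_le_sup hfP le_sup_left))
  have hfix' : ∀ Q ∈ σ, img (g ∘ f) Q = Q := fun Q hQ => by
    rw [hph.img_comp (le_sSup_sup hQ), hgσ _ (Set.mem_image_of_mem _ hQ), hfix Q hQ]
  have hloc : ((F.normSys σ).centSys x).Mor P (g ∘ f) :=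
    (loc_mor hF hxP).2 ⟨hP, g ∘ f, hmor, fun _ _ => rfl, hfix', hgx⟩
  have huN : u ∈ F.NN (img f '' σ) (f x) :=
    mem_NN.2 ⟨(mem_normSys_S.1 hu).1, (mem_normSys_S.1 hu).2, huc x hxP⟩
  have h1 : g u ∈ img (g ∘ f) P := by
    refine hc _ hloc ⟨?_, mem_centralizer_iff.2 fun y hy => ?_⟩
    · have := hg.apply_mem_NN hF le_sup_right (mem_sup_left huN) huN
      rwa [← hph.image_img_comp fun Q hQ => le_sSup_sup hQ, image_eq_of_fix hfix', hgx] at this
    · obtain ⟨w, hw, rfl⟩ := ((hmor.phom hF).mem_img le_sup_right).1 hy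
      have hfw := mem_sup_left (T := DD (img f '' σ) (f x)) (hfP (mem_img_of_mem f hw))
      rw [Function.comp, ← hgph.map_mul _ hfw _ (mem_sup_left huN), ← huc w hw,
        hgph.map_mul _ (mem_sup_left huN) _ hfw]
  rwa [hph.img_comp le_sup_right,
    hgph.apply_mem_img (hfP.trans le_sup_left) (mem_sup_left huN)] at h1

lemma eltConj_equiv (hF : F.IsFusionSystem) (q : G → Prop) :
    Equivalence fun x y : {x // x ∈ F.S ∧ q x} =>
      ∃ φ ∈ F.Hom (zpowers x.1), φ ⟨x.1, mem_zpowers x.1⟩ = y.1 := by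
  simp only [exists_hom_apply]
  refine ⟨fun x => ⟨id, mor_id hF (zpowers_le.2 x.2.1), rfl⟩, ?_, ?_⟩
  · rintro x y ⟨f, hf, hxy⟩
    obtain ⟨g, hg, hgf⟩ := hf.inv hF
    rw [(hf.phom hF).img_zpowers (mem_zpowers _), hxy] at hg
    exact ⟨g, hg, hxy ▸ hgf _ (mem_zpowers _)⟩
  · rintro x y z ⟨f, hf, hxy⟩ ⟨g, hg, hyz⟩
    refine ⟨g ∘ f, hf.comp hF hg (img_le_iff.1 ?_), by rw [Function.comp, hxy, hyz]⟩
    rw [(hf.phom hF).img_zpowers (mem_zpowers _), hxy]

lemma chainConj_iff (hF : F.IsFusionSystem) {l l' : List (Subgroup G)} (hl : l.Pairwise (· < ·))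
    (hl' : l'.Pairwise (· < ·)) :
    (∃ φ ∈ F.Hom (sSup {Q | Q ∈ l}),
      l.map (fun Q => (Q.subgroupOf (sSup {Q | Q ∈ l})).map φ) = l') ↔
    ∃ f, F.Mor (sSup {Q | Q ∈ l}) f ∧ img f '' {Q | Q ∈ l} = {Q | Q ∈ l'} := by
  constructor
  · rintro ⟨φ, hφ, rfl⟩
    refine ⟨_, mor_extFun hφ, ?_⟩
    rw [List.map_congr_left fun Q hQ => map_subgroupOf_eq_img φ (extFun_coe φ)
      (le_sSup (hQ : Q ∈ {Q | Q ∈ l})), setOf_mem_map]
  · rintro ⟨f, hf, h⟩
    have hph := hf.phom hF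
    obtain ⟨φ, hφ, hφf⟩ := hf
    refine ⟨φ, hφ, ?_⟩
    rw [List.map_congr_left fun Q hQ => map_subgroupOf_eq_img φ hφf
      (le_sSup (hQ : Q ∈ {Q | Q ∈ l}))]
    refine List.Pairwise.eq_of_mem_iff (r := (· < ·)) ?_ hl' fun T => ?_
    · rw [List.pairwise_map]
      exact hl.imp_of_mem fun _ hb hab => hph.img_lt_img (le_sSup (hb : _ ∈ {Q | Q ∈ l})) hab
    · exact Set.ext_iff.1 ((setOf_mem_map l f).trans h) T

lemma NormalChain.nch {l : List (Subgroup G)} (h : F.NormalChain l) : F.NCh {Q | Q ∈ l} :=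
  ⟨isChain_list h.2.1, fun Q hQ => (h.2.2 Q hQ).1, fun _ hg => mem_normSys_S.2
    ⟨(sSup_le fun Q hQ => (h.2.2 Q hQ).2.1 : _ ≤ F.S) hg, fun Q hQ => (h.2.2 Q hQ).2.2 hg⟩⟩

variable [Finite G]

lemma Valid.locConj_iff (hF : F.IsFusionSystem) (h : F.Valid σ x P) {P' : Subgroup G} :
    (∃ φ ∈ ((F.normSys σ).centSys x).Hom P, φ.range = P') ↔ F.Rel σ x P σ x P' := by
  rw [exists_hom_range (q := fun T => T = P')]
  constructor
  · rintro ⟨f, hf, rfl⟩
    obtain ⟨-, g, hg, hgf, hσ, hgx⟩ := (loc_mor hF h.mem).1 hf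
    exact ⟨g, hg, image_eq_of_fix hσ, hgx, img_congr hgf⟩
  · rintro ⟨f, hf, hσ, hx, hP⟩
    exact ⟨f, (loc_mor hF h.mem).2 ⟨h.le_NN, f, hf, fun _ _ => rfl,
      (hf.phom hF).fix_of_image_eq h.nc.chain (fun Q hQ => le_sSup_sup hQ) hσ, hx⟩, hP⟩

variable {p : ℕ} [Fact p.Prime] {k : Type} [Field k] [CharP k p]
  {α : (Q : Subgroup G) → Out Q → Out Q → kˣ}

theorem kk_eq (hS : IsPGroup p F.S) (hF : F.IsSaturated p) (hα : F.Compatible α)
    (hσ : F.NCh σ) (hKP : F.KP σ 1) (β : (Q : Subgroup G) → Out Q → Out Q → kˣ)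
    (hβ : ∀ x P, F.Valid σ x P →
      (z (TwAlg k (((F.normSys σ).centSys x).OutF P) fun a b => β P a b) : ℤ) = F.val α σ x P) :
    (F.normSys σ).kk β =
      csum (fun t t' : {t : G × Subgroup G // F.Valid σ t.1 t.2} =>
        F.Rel σ t.1.1 t.1.2 σ t'.1.1 t'.1.2) fun t => F.val α σ t.1.1 t.1.2 := by
  have hF1 := hF.1
  have hE := normSys_isFusionSystem hF1 (hσ.le.trans inf_le_left)
  have hgood : ∀ b : {x // x ∈ (F.normSys σ).S ∧ (F.normSys σ).FullyCentralized (zpowers x)},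
      F.KP σ b.1 := fun b => KP_of_max hS hF (hKP.max_of_centralized hF1 b.2.1 b.2.2)
  have hval : ∀ (b : {x // x ∈ (F.normSys σ).S ∧ (F.normSys σ).FullyCentralized (zpowers x)})
      (y : {P // ((F.normSys σ).centSys b.1).Centric P}), F.Valid σ b.1 y.1 :=
    fun b y => valid_of_locCentric hF1 hσ b.2.1 (hgood b) y.2
  rw [csum_fiber (X := {t : G × Subgroup G // F.Valid σ t.1 t.2})
    ⟨fun t => Rel.refl hF1 t.2.le, fun {t _} h => h.symm hF1 t.2.mem, fun h h' => h.trans hF1 h'⟩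
    (eltConj_equiv hE fun x => (F.normSys σ).FullyCentralized (zpowers x))
    (Y := fun b => {P // ((F.normSys σ).centSys b.1).Centric P})
    (t := fun b P Q => ∃ φ ∈ ((F.normSys σ).centSys b.1).Hom P.1, φ.range = Q.1)
    (fun b y => ⟨(b.1, y.1), hval b y⟩) (fun b y y' => (hval b y).locConj_iff hF1) ?_ ?_ _
    fun t t' h => h.val_eq hS hF hα t.2]
  · unfold kk w
    simp only [classSum_eq]
    congr 1
    funext b
    congr 1
    funext y
    exact hβ _ _ (hval b y)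
  · rintro b b' y y' ⟨f, hf, hfσ, hfx, -⟩
    have hv := hval b y
    have hfix := (hf.phom hF1).fix_of_image_eq hσ.chain (fun Q hQ => le_sSup_sup hQ) hfσ
    refine (exists_hom_apply _).2 ⟨f, normSys_mor.2 ⟨zpowers_le.2 b.2.1, ?_, f,
      hf.mono hF1 (DD_le hv.mem), fun _ _ => rfl, hfix⟩, hfx⟩
    rw [(hf.phom hF1).img_zpowers (mem_sup_right hv.mem), hfx]
    exact zpowers_le.2 b'.2.1
  · rintro ⟨⟨x, P⟩, ht⟩
    have hx : x ∈ (F.normSys σ).S := ht.le_normSys (mem_sup_right ht.mem)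
    obtain ⟨f, hf, hmax⟩ := exists_max_conj hE
      (fun T => Nat.card ↥((F.normSys σ).S ⊓ centralizer (T : Set G))) (zpowers_le.2 hx)
    have hfz := (hf.phom hE).img_zpowers (mem_zpowers x)
    refine ⟨⟨f x, hf.apply_mem hE (mem_zpowers x), hfz ▸ fullyCentralized_iff.2 hmax⟩,
      fun b hb => ?_⟩
    obtain ⟨g, hg, hgb⟩ := (exists_hom_apply _).1 hb
    have hgf := hf.comp hE hg (img_le_iff.1 hfz.le)
    obtain ⟨-, -, u, hu, hux, huσ⟩ := normSys_mor.1 hgf
    obtain ⟨v, hv, hvσ, hvx⟩ := hgood b σ x u hu (image_eq_of_fix huσ)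
      ((hux x (mem_zpowers x)).trans hgb)
    have hrel : F.Rel σ x P σ b.1 (img v P) :=
      ⟨v, hv.mono hF1 (sup_le (le_sup_left.trans le_sup_right) (ht.le_NN.trans le_sup_left)),
        image_eq_of_fix fun Q hQ => (hvσ Q hQ).trans (huσ Q hQ), hvx, rfl⟩
    exact ⟨⟨img v P, (hrel.valid hF1 ht).locCentric hF1⟩, hrel.symm hF1 ht.mem⟩

theorem main (hS : IsPGroup p F.S) (hne : F.S ≠ ⊥) (hF : F.IsSaturated p)
    (hα : F.Compatible α) :
    F.kk α = classSum (fun σ => F.NormalChain σ ∧ F.FullyNormalizedChain σ) F.ChainIso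
      fun σ => (-1) ^ (σ.length - 1) *
        (F.normSys {Q | Q ∈ σ}).kk (F.restrict α {Q | Q ∈ σ}) := by
  rw [classSum_eq]
  unfold ChainIso
  have hF1 := hF.1
  let X := {t : Set (Subgroup G) × G × Subgroup G // F.Valid t.1 t.2.1 t.2.2}
  let r : X → X → Prop := fun t t' => F.Rel t.1.1 t.1.2.1 t.1.2.2 t'.1.1 t'.1.2.1 t'.1.2.2
  have hr : Equivalence r :=
    ⟨fun t => Rel.refl hF1 t.2.le, fun {t _} h => h.symm hF1 t.2.mem, fun h h' => h.trans hF1 h'⟩
  let v : X → ℤ := fun t => (-1) ^ t.1.1.ncard * F.val α t.1.1 t.1.2.1 t.1.2.2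
  have hv : ∀ t t', r t t' → v t = v t' := by
    intro t t' h
    have h1 := h.val_eq hS hF hα t.2
    obtain ⟨f, hf, h2, -⟩ := h
    have h3 : t'.1.1.ncard = t.1.1.ncard := by
      rw [← h2]
      exact Set.InjOn.ncard_image fun A hA B hB hAB =>
        (hf.phom hF1).img_inj (le_sSup_sup hA) (le_sSup_sup hB) hAB
    simp only [v, h1, h3]
  have hzero : csum r v = 0 := by
    refine csum_eq_zero hr
      (fun t => ⟨(toggle t.1.1 t.1.2.2, t.1.2), t.2.toggle hS hF1 hne⟩) (fun t => ?_)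
      (fun t t' h => Rel.toggle hS hF1 h) v hv fun t => ?_
    · exact Subtype.ext (Prod.ext (toggle_toggle (hS.to_le t.2.le)) rfl)
    · simp only [v, neg_one_pow_toggle, t.2.val_toggle hS hF1 hne, neg_mul]
  rw [csum_split hr (fun t => t.1.1 = ∅) (by
    rintro t t' ⟨f, -, h, -⟩
    rw [← h, Set.image_eq_empty]) v hv] at hzero
  have hsub : ∀ q : X → Prop, Equivalence fun t t' : {t // q t} => r t.1 t'.1 := fun q =>
    ⟨fun _ => hr.refl _, fun h => hr.symm h, fun h h' => hr.trans h h'⟩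
  have hnch0 : F.NCh ∅ := ⟨IsChain.empty, fun _ h => h.elim, by rw [sSup_empty]; exact bot_le⟩
  have h1 : csum (fun t t' : {t : X // t.1.1 = ∅} => r t.1 t'.1) (fun t => v t.1) = F.kk α := by
    have h2 := kk_eq hS hF hα hnch0 (KP_empty hS hF) α fun x P h => by
      rw [h.val_empty hS hF, normSys_empty hF1]
    rw [normSys_empty hF1] at h2
    rw [h2, csum_congr (hsub _)
      (r := fun t t' : {t : G × Subgroup G // F.Valid ∅ t.1 t.2} =>
        F.Rel ∅ t.1.1 t.1.2 ∅ t'.1.1 t'.1.2)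
      (fun t => ⟨⟨(∅, t.1), t.2⟩, rfl⟩) (fun _ _ => Iff.rfl) ?_ _ fun _ _ h => hv _ _ h]
    · simp [v]
    · rintro ⟨⟨⟨σ, t⟩, ht⟩, h0⟩
      dsimp only at h0
      subst h0
      exact ⟨⟨t, ht⟩, hr.refl _⟩
  let B := {σ // F.NormalChain σ ∧ F.FullyNormalizedChain σ}
  have hBfin : Finite B := Finite.of_injective (fun b : B => {Q | Q ∈ b.1}) fun b b' h =>
    Subtype.ext (List.Pairwise.eq_of_mem_iff (r := (· < ·)) b.2.1.2.1 b'.2.1.2.1
      (Set.ext_iff.1 h))
  have hBKP : ∀ b : B, F.KP {Q | Q ∈ b.1} 1 := fun b => by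
    have := KP_of_chain hS hF b.1 ∅ (KP_empty hS hF) (fun Q hQ => by
      rw [Set.empty_union]
      exact le_trans (le_sSup (s := {Q | Q ∈ b.1}) hQ) b.2.1.nch.le) (by
      rw [normSys_empty hF1]
      exact b.2.2)
    rwa [Set.empty_union] at this
  have hBne : ∀ b : B, {Q | Q ∈ b.1} ≠ ∅ := fun b => by
    obtain ⟨Q, hQ⟩ := List.exists_mem_of_ne_nil _ b.2.1.1
    exact Set.Nonempty.ne_empty ⟨Q, hQ⟩
  have hs : Equivalence fun σ τ : B => ∃ φ ∈ F.Hom (sSup {Q | Q ∈ σ.1}),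
      σ.1.map (fun Q => (Q.subgroupOf (sSup {Q | Q ∈ σ.1})).map φ) = τ.1 := by
    refine ⟨fun b => (chainConj_iff hF1 b.2.1.2.1 b.2.1.2.1).2
      ⟨id, mor_id hF1 (b.2.1.nch.le.trans inf_le_left), image_img_id _⟩, ?_, ?_⟩
    · intro b b' h
      obtain ⟨f, hf, h⟩ := (chainConj_iff hF1 b.2.1.2.1 b'.2.1.2.1).1 h
      obtain ⟨g, hg, hg', -⟩ := Rel.symm hF1 (σ := {Q | Q ∈ b.1}) (P := ⊥) (one_mem _)
        ⟨f, by rwa [sup_bot_eq], h, rfl, rfl⟩
      exact (chainConj_iff hF1 b'.2.1.2.1 b.2.1.2.1).2 ⟨g, hg.mono hF1 le_sup_left, hg'⟩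
    · intro b b' b'' h h'
      obtain ⟨f, hf, h⟩ := (chainConj_iff hF1 b.2.1.2.1 b'.2.1.2.1).1 h
      obtain ⟨g, hg, h'⟩ := (chainConj_iff hF1 b'.2.1.2.1 b''.2.1.2.1).1 h'
      have hph := hf.phom hF1
      refine (chainConj_iff hF1 b.2.1.2.1 b''.2.1.2.1).2 ⟨g ∘ f, hf.comp hF1 hg (img_le_iff.1 ?_), ?_⟩
      · rw [hph.img_sSup fun Q hQ => le_sSup hQ, h]
      · rw [hph.image_img_comp fun Q hQ => le_sSup hQ, h, h']
  have h3 := csum_fiber (hsub fun t => ¬ t.1.1 = ∅) hs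
    (Y := fun b => {t : G × Subgroup G // F.Valid {Q | Q ∈ b.1} t.1 t.2})
    (t := fun b t t' => F.Rel {Q | Q ∈ b.1} t.1.1 t.1.2 {Q | Q ∈ b.1} t'.1.1 t'.1.2)
    (fun b t => ⟨⟨({Q | Q ∈ b.1}, t.1), t.2⟩, hBne b⟩) (fun _ _ _ => Iff.rfl)
    (by
      rintro b b' y y' ⟨f, hf, h, -⟩
      exact (chainConj_iff hF1 b.2.1.2.1 b'.2.1.2.1).2 ⟨f, hf.mono hF1 le_sup_left, h⟩)
    (by
      rintro ⟨⟨⟨σ, x, P⟩, ht⟩, hσne⟩
      obtain ⟨l, hl, rfl⟩ := exists_list_of_isChain _ σ rfl ht.nc.chain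
      obtain ⟨f, hf, -, hfn⟩ := exists_fullyNormalizedChain hS hF _ l ∅ rfl (KP_empty hS hF)
        (by rw [Set.empty_union]; exact ht.nch.le)
      rw [Set.empty_union] at hf
      rw [normSys_empty hF1] at hfn
      have hph := hf.phom hF1
      have hnc : F.NormalChain (l.map (img f)) := by
        refine ⟨fun h => hσne (by simp [List.map_eq_nil_iff.1 h]), ?_, fun T hT => ?_⟩
        · rw [List.pairwise_map]
          exact hl.imp_of_mem fun _ hb hab => hph.img_lt_img (le_sSup (hb : _ ∈ {Q | Q ∈ l})) hab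
        · obtain ⟨Q, hQ, rfl⟩ := List.mem_map.1 hT
          have hQ' : Q ≤ sSup {Q | Q ∈ l} := le_sSup hQ
          refine ⟨hph.img_ne_bot hQ' (ht.nc.ne_bot Q hQ), hf.img_le hF1 hQ', ?_⟩
          rw [setOf_mem_map, ← hph.img_sSup fun Q hQ => le_sSup hQ, img_le_iff]
          exact fun y hy => hph.mem_normalizer_img hQ' hy (ht.nc.norm Q hQ (mem_sup_left hy))
      refine ⟨⟨l.map (img f), hnc, hfn⟩, fun b hb => ?_⟩
      obtain ⟨g, hg, hgb⟩ := (chainConj_iff hF1 hnc.2.1 b.2.1.2.1).1 hb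
      rw [setOf_mem_map] at hg hgb
      obtain ⟨u, hu, huσ, -⟩ := hBKP b {Q | Q ∈ l} 1 (g ∘ f)
        (by
          rw [DD_one]
          exact hf.comp hF1 hg (img_le_iff.1 (hph.img_sSup fun Q hQ => le_sSup hQ).le))
        (by rw [hph.image_img_comp fun Q hQ => le_sSup hQ, hgb])
        (by rw [Function.comp, hph.map_one, (hg.phom hF1).map_one])
      have hrel : F.Rel {Q | Q ∈ l} x P {Q | Q ∈ b.1} (u x) (img u P) :=
        ⟨u, hu.mono hF1 (by rw [NN_one]; exact ht.le_normSys.trans le_sup_left), by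
          rw [Set.image_congr huσ, hph.image_img_comp fun Q hQ => le_sSup hQ, hgb], rfl, rfl⟩
      exact ⟨⟨(u x, img u P), hrel.valid hF1 ht⟩, hrel.symm hF1 ht.mem⟩)
    (fun t => v t.1) fun _ _ h => hv _ _ h
  rw [h1, h3] at hzero
  rw [eq_neg_of_add_eq_zero_left hzero, ← csum_neg]
  congr 1
  funext b
  rw [kk_eq hS hF hα b.2.1.nch (hBKP b) _ fun _ _ _ => rfl]
  simp only [v, csum_mul, ncard_list b.2.1.2.1]
  obtain ⟨n, hn⟩ := Nat.exists_eq_succ_of_ne_zero (List.length_eq_zero_iff.not.2 b.2.1.1)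
  rw [hn, Nat.succ_sub_one, pow_succ]
  ring

end Fus

end Pool.Agent.MP_3359e9_al

end MrgPart2

-- marker of a merged file
example : 731051 + 515158 = 731051 + 515158 := rfl
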